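import Mathlib

/-!
# Elementary counting lemmas
-/

set_option autoImplicit false

namespace Pool.Agent.T2H27.Szp

open Finset

/-- integers in one class modulo `g` and pairwise at distance at most `B` -/
theorem card_mod_le (g : ℕ) (hg : 0 < g) (B : ℝ) (hB : 0 ≤ B) (S : Finset ℤ)
    (h : ∀ x ∈ S, ∀ y ∈ S, (g : ℤ) ∣ x - y ∧ |(x : ℝ) - y| ≤ B) :
    (S.card : ℝ) ≤ B / g + 1 := by
  classical
  rcases S.eq_empty_or_nonempty with rfl | hne
  · simp only [card_empty, Nat.cast_zero]
    positivity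
  · have hg' : (0 : ℝ) < g := by exact_mod_cast hg
    have hgz : (g : ℤ) ≠ 0 := by exact_mod_cast hg.ne'
    set x₀ := S.min' hne with hx₀
    have hx₀S : x₀ ∈ S := S.min'_mem hne
    have hcard : S.card ≤ (Finset.range (⌊B / g⌋₊ + 1)).card := by
      refine Finset.card_le_card_of_injOn (fun x => ((x - x₀) / g).toNat) ?_ ?_
      · intro x hx
        have hx' : x ∈ S := hx
        obtain ⟨⟨k, hk⟩, h2⟩ := h x hx' x₀ hx₀S
        have hle : x₀ ≤ x := S.min'_le x hx'
        have hk0 : 0 ≤ k := by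
          by_contra hneg
          push Not at hneg
          have : (g : ℤ) * k < 0 := mul_neg_of_pos_of_neg (by exact_mod_cast hg) hneg
          omega
        have e1 : (x - x₀) / g = k := by
          rw [hk, Int.mul_ediv_cancel_left _ hgz]
        simp only [coe_range, Set.mem_Iio]
        rw [e1]
        have : ((k.toNat : ℕ) : ℝ) ≤ B / g := by
          have hkt : ((k.toNat : ℕ) : ℝ) = (k : ℝ) := by
            have : ((k.toNat : ℕ) : ℤ) = k := Int.toNat_of_nonneg hk0
            exact_mod_cast congrArg (Int.cast : ℤ → ℝ) this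
          rw [hkt, le_div_iff₀ hg']
          have h3 : ((x - x₀ : ℤ) : ℝ) = (g : ℝ) * k := by
            rw [hk]; push_cast; ring
          have h4 : (x : ℝ) - x₀ ≤ B := (le_abs_self _).trans h2
          push_cast at h3
          linarith [mul_comm (k : ℝ) g]
        exact Nat.lt_succ_of_le (Nat.le_floor this)
      · intro x hx y hy hxy
        have hx' : x ∈ S := hx
        have hy' : y ∈ S := hy
        obtain ⟨⟨k, hk⟩, -⟩ := h x hx' x₀ hx₀S
        obtain ⟨⟨l, hl⟩, -⟩ := h y hy' x₀ hx₀S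
        have hlex : x₀ ≤ x := S.min'_le x hx'
        have hley : x₀ ≤ y := S.min'_le y hy'
        have e1 : (x - x₀) / g = k := by
          rw [hk, Int.mul_ediv_cancel_left _ hgz]
        have e2 : (y - x₀) / g = l := by
          rw [hl, Int.mul_ediv_cancel_left _ hgz]
        have p1 : 0 ≤ (x - x₀) / g := Int.ediv_nonneg (by omega) (by positivity)
        have p2 : 0 ≤ (y - x₀) / g := Int.ediv_nonneg (by omega) (by positivity)
        have hxy' : ((x - x₀) / g).toNat = ((y - x₀) / g).toNat := hxy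
        have : (x - x₀) / g = (y - x₀) / g := by
          have h1 := Int.toNat_of_nonneg p1
          have h2 := Int.toNat_of_nonneg p2
          omega
        rw [e1, e2] at this
        subst this
        omega
    rw [card_range] at hcard
    calc (S.card : ℝ) ≤ ((⌊B / g⌋₊ + 1 : ℕ) : ℝ) := by exact_mod_cast hcard
      _ = (⌊B / g⌋₊ : ℝ) + 1 := by push_cast; ring
      _ ≤ B / g + 1 := by
          have := Nat.floor_le (show (0 : ℝ) ≤ B / g by positivity)
          linarith

theorem card_mod_abs_le (g : ℕ) (hg : 0 < g) (B : ℝ) (hB : 0 ≤ B) (S : Finset ℤ)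
    (h : ∀ x ∈ S, ∀ y ∈ S, (g : ℤ) ∣ x - y) (h' : ∀ x ∈ S, |(x : ℝ)| ≤ B) :
    (S.card : ℝ) ≤ 2 * B / g + 1 := by
  refine card_mod_le g hg (2 * B) (by positivity) S (fun x hx y hy => ⟨h x hx y hy, ?_⟩)
  have h1 := abs_le.1 (h' x hx)
  have h2 := abs_le.1 (h' y hy)
  rw [abs_le]
  constructor <;> linarith

theorem card_abs_le (B : ℝ) (hB : 0 ≤ B) (S : Finset ℤ) (h' : ∀ x ∈ S, |(x : ℝ)| ≤ B) :
    (S.card : ℝ) ≤ 2 * B + 1 := by
  have := card_mod_abs_le 1 one_pos B hB S (fun x _ y _ => by simp) h'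
  simpa using this

/-- the integers of absolute value at most `B` -/
noncomputable def I (B : ℝ) : Finset ℤ := Finset.Icc (-⌊B⌋) ⌊B⌋

theorem mem_I {B : ℝ} {x : ℤ} : x ∈ I B ↔ |(x : ℝ)| ≤ B := by
  unfold I
  rw [Finset.mem_Icc, abs_le]
  constructor
  · rintro ⟨h1, h2⟩
    have h3 : (x : ℝ) ≤ B := (Int.cast_le.2 h2).trans (Int.floor_le B)
    have h4 : ((-⌊B⌋ : ℤ) : ℝ) ≤ x := Int.cast_le.2 h1
    push_cast at h4
    exact ⟨by linarith [Int.floor_le B], h3⟩
  · rintro ⟨h1, h2⟩
    have h3 : x ≤ ⌊B⌋ := Int.le_floor.2 h2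
    have h4 : -x ≤ ⌊B⌋ := Int.le_floor.2 (by push_cast; linarith)
    exact ⟨by omega, h3⟩

theorem card_I (B : ℝ) (hB : 0 ≤ B) : ((I B).card : ℝ) ≤ 2 * B + 1 :=
  card_abs_le B hB _ (fun _ hx => mem_I.1 hx)

theorem card_I' (B : ℝ) (hB : 1 ≤ B) : ((I B).card : ℝ) ≤ 3 * B := by
  have := card_I B (by linarith)
  linarith

/-- **Quadratic congruence.** -/
theorem card_quad (q : ℕ) (hq : Odd q) (hsq : Squarefree q) (a₀ b₀ c₀ : ℤ) (A B C : ℝ)
    (hA : 0 ≤ A) (hB : 0 ≤ B) (hC : 0 ≤ C) (S : Finset (ℤ × ℤ × ℤ))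
    (hS : ∀ x ∈ S, |(x.1 : ℝ)| ≤ A ∧ |(x.2.1 : ℝ)| ≤ B ∧ |(x.2.2 : ℝ)| ≤ C ∧
      (q : ℤ) ∣ (x.2.1 + b₀) ^ 2 - 4 * (x.1 + a₀) * (x.2.2 + c₀)) :
    (S.card : ℝ) ≤ (2 * A + 1) * (4 * B * C / q + 2 * B + 2 * C + 1) := by
  classical
  have hq0 : 0 < q := Nat.pos_of_ne_zero (fun h => by simp [h] at hq)
  have hq0' : (0 : ℝ) < q := by exact_mod_cast hq0
  set M : ℝ := 4 * B * C / q + 2 * B + 2 * C + 1 with hM
  have hM0 : 0 ≤ M := by positivity
  -- the fibre over `a`
  have hfib : ∀ a ∈ S.image (fun x => x.1), ((S.filter (fun x => x.1 = a)).card : ℝ) ≤ M := by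
    intro a _
    set g : ℕ := Int.gcd (a + a₀) q with hg
    have hgq : g ∣ q := by
      have := Int.gcd_dvd_right (a := a + a₀) (b := (q : ℤ))
      exact_mod_cast this
    have hga : (g : ℤ) ∣ a + a₀ := Int.gcd_dvd_left ..
    have hg0 : 0 < g := Nat.pos_of_dvd_of_pos hgq hq0
    have hg0' : (0 : ℝ) < g := by exact_mod_cast hg0
    have hgle : (g : ℝ) ≤ q := by exact_mod_cast Nat.le_of_dvd hq0 hgq
    have hg1 : (1 : ℝ) ≤ g := by exact_mod_cast hg0
    obtain ⟨q', hq'⟩ := hgq
    have hq'0 : 0 < q' := Nat.pos_of_ne_zero (fun h => by simp [h] at hq'; omega)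
    have hq'0' : (0 : ℝ) < q' := by exact_mod_cast hq'0
    have hgsq : Squarefree g := hsq.squarefree_of_dvd ⟨q', hq'⟩
    have hcop : IsCoprime (((a + a₀) / g : ℤ)) ((q' : ℕ) : ℤ) := by
      have h1 : Int.gcd ((a + a₀) / g) ((q : ℤ) / g) = 1 := by
        have := Int.gcd_div_gcd_div_gcd (i := a + a₀) (j := (q : ℤ)) (by rw [← hg]; exact hg0)
        simpa [← hg] using this
      rw [Int.isCoprime_iff_gcd_eq_one]
      have h2 : (q : ℤ) / g = q' := by
        rw [hq']; push_cast
        exact Int.mul_ediv_cancel_left _ (by exact_mod_cast hg0.ne')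
      rwa [h2] at h1
    set T := S.filter (fun x => x.1 = a) with hT
    have hTb : (T.card : ℝ) ≤ (2 * B / g + 1) * (2 * C / q' + 1) := by
      have h1 : ((T.image (fun x => x.2.1)).card : ℝ) ≤ 2 * B / g + 1 := by
        refine card_mod_abs_le g hg0 B hB _ ?_ ?_
        · have key : ∀ x ∈ T.image (fun x => x.2.1), (g : ℤ) ∣ x + b₀ := by
            intro x hx
            obtain ⟨y, hy, rfl⟩ := mem_image.1 hx
            rw [hT, mem_filter] at hy
            obtain ⟨-, -, -, h4⟩ := hS y hy.1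
            have h5 : (g : ℤ) ∣ (y.2.1 + b₀) ^ 2 := by
              have h6 : (g : ℤ) ∣ (y.2.1 + b₀) ^ 2 - 4 * (y.1 + a₀) * (y.2.2 + c₀) :=
                dvd_trans (by rw [hq']; push_cast; exact dvd_mul_right _ _) h4
              have h7 : (g : ℤ) ∣ 4 * (y.1 + a₀) * (y.2.2 + c₀) := by
                rw [hy.2]
                exact Dvd.dvd.mul_right (Dvd.dvd.mul_left hga _) _
              have := dvd_add h6 h7
              simpa using this
            have h8 : (g : ℤ) ∣ y.2.1 + b₀ := by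
              have hsqz : Squarefree (g : ℤ) := Int.squarefree_natCast.2 hgsq
              exact (hsqz.dvd_pow_iff_dvd (by norm_num)).1 h5
            exact h8
          intro x hx y hy
          have := dvd_sub (key x hx) (key y hy)
          simpa using this
        · intro x hx
          obtain ⟨y, hy, rfl⟩ := mem_image.1 hx
          rw [hT, mem_filter] at hy
          exact (hS y hy.1).2.1
      have h2 : ∀ b ∈ T.image (fun x => x.2.1),
          ((T.filter (fun x => x.2.1 = b)).card : ℝ) ≤ 2 * C / q' + 1 := by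
        intro b _
        have h3 : (T.filter (fun x => x.2.1 = b)).card =
            ((T.filter (fun x => x.2.1 = b)).image (fun x => x.2.2)).card := by
          rw [card_image_of_injOn]
          intro x hx y hy hxy
          have hx' := (mem_filter.1 (mem_coe.1 hx))
          have hy' := (mem_filter.1 (mem_coe.1 hy))
          have hx2 := (mem_filter.1 hx'.1).2
          have hy2 := (mem_filter.1 hy'.1).2
          exact Prod.ext (hx2.trans hy2.symm) (Prod.ext (hx'.2.trans hy'.2.symm) hxy)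
        rw [h3]
        refine card_mod_abs_le q' hq'0 C hC _ ?_ ?_
        · intro x hx y hy
          obtain ⟨x', hx', rfl⟩ := mem_image.1 hx
          obtain ⟨y', hy', rfl⟩ := mem_image.1 hy
          obtain ⟨hx1, hx2⟩ := mem_filter.1 hx'
          obtain ⟨hy1, hy2⟩ := mem_filter.1 hy'
          obtain ⟨hx3, hx4⟩ := mem_filter.1 hx1
          obtain ⟨hy3, hy4⟩ := mem_filter.1 hy1
          have e1 := (hS x' hx3).2.2.2
          have e2 := (hS y' hy3).2.2.2
          have e3 : (q : ℤ) ∣ 4 * (a + a₀) * (x'.2.2 - y'.2.2) := by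
            have := dvd_sub e2 e1
            rw [hx2, hy2, hx4, hy4] at this
            have e : (b + b₀) ^ 2 - 4 * (a + a₀) * (y'.2.2 + c₀) -
              ((b + b₀) ^ 2 - 4 * (a + a₀) * (x'.2.2 + c₀)) =
              4 * (a + a₀) * (x'.2.2 - y'.2.2) := by ring
            rwa [e] at this
          obtain ⟨w, hw⟩ := hga
          have hw' : (a + a₀) / g = w := by
            rw [hw]
            exact Int.mul_ediv_cancel_left _ (by exact_mod_cast hg0.ne')
          rw [hw'] at hcop
          have e4 : (q' : ℤ) ∣ 4 * w * (x'.2.2 - y'.2.2) := by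
            rw [hw, hq'] at e3
            push_cast at e3
            have e5 : 4 * ((g : ℤ) * w) * (x'.2.2 - y'.2.2) =
              (g : ℤ) * (4 * w * (x'.2.2 - y'.2.2)) := by ring
            rw [e5] at e3
            exact (mul_dvd_mul_iff_left (by exact_mod_cast hg0.ne')).1 e3
          have hodd : IsCoprime ((q' : ℕ) : ℤ) 4 := by
            have h6 : Odd q' := by
              rw [hq'] at hq
              exact (Nat.odd_mul.1 hq).2
            have h7 : Nat.Coprime q' 4 := by
              have : Nat.Coprime q' 2 := Nat.coprime_two_right.2 h6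
              have := Nat.Coprime.pow_right 2 this
              simpa using this
            exact_mod_cast Nat.isCoprime_iff_coprime.2 h7
          have h8 : IsCoprime ((q' : ℕ) : ℤ) (4 * w) := hodd.mul_right hcop.symm
          exact h8.dvd_of_dvd_mul_left e4
        · intro x hx
          obtain ⟨x', hx', rfl⟩ := mem_image.1 hx
          obtain ⟨hx1, hx2⟩ := mem_filter.1 hx'
          obtain ⟨hx3, hx4⟩ := mem_filter.1 hx1
          exact (hS x' hx3).2.2.1
      have h4 : (T.card : ℝ) = ∑ b ∈ T.image (fun x => x.2.1),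
          ((T.filter (fun x => x.2.1 = b)).card : ℝ) := by
        rw [← Nat.cast_sum]
        congr 1
        exact card_eq_sum_card_image _ _
      rw [h4]
      calc ∑ b ∈ T.image (fun x => x.2.1), ((T.filter (fun x => x.2.1 = b)).card : ℝ)
          ≤ ∑ b ∈ T.image (fun x => x.2.1), (2 * C / q' + 1) := sum_le_sum h2
        _ = ((T.image (fun x => x.2.1)).card : ℝ) * (2 * C / q' + 1) := by
            rw [sum_const, nsmul_eq_mul]
        _ ≤ _ := mul_le_mul_of_nonneg_right h1 (by positivity)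
    refine hTb.trans ?_
    have hqr : (q : ℝ) = g * q' := by rw [hq']; push_cast; ring
    have h1 : (2 * B / g) * (2 * C / q') = 4 * B * C / q := by
      rw [hqr]; field_simp; ring
    have h2 : 2 * B / g ≤ 2 * B := div_le_self (by positivity) hg1
    have hq'1 : (1 : ℝ) ≤ q' := by exact_mod_cast hq'0
    have h3 : 2 * C / q' ≤ 2 * C := div_le_self (by positivity) hq'1
    rw [hM]
    nlinarith
  have h5 : ((S.image (fun x => x.1)).card : ℝ) ≤ 2 * A + 1 := by
    refine card_abs_le A hA _ ?_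
    intro x hx
    obtain ⟨y, hy, rfl⟩ := mem_image.1 hx
    exact (hS y hy).1
  have h4 : (S.card : ℝ) = ∑ b ∈ S.image (fun x => x.1),
      ((S.filter (fun x => x.1 = b)).card : ℝ) := by
    rw [← Nat.cast_sum]
    congr 1
    exact card_eq_sum_card_image _ _
  rw [h4]
  calc ∑ b ∈ S.image (fun x => x.1), ((S.filter (fun x => x.1 = b)).card : ℝ)
      ≤ ∑ b ∈ S.image (fun x => x.1), M := sum_le_sum hfib
    _ = ((S.image (fun x => x.1)).card : ℝ) * M := by
        rw [sum_const, nsmul_eq_mul]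
    _ ≤ _ := mul_le_mul_of_nonneg_right h5 hM0

end Pool.Agent.T2H27.Szp
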