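import Mathlib

/-!
# Reduced bases of planar lattices
-/

set_option autoImplicit false

namespace Pool.Agent.T2H27.Szp

/-- a reduced basis `(s₁, t₁), (s₂, t₂)` of `ℤ²` for the form `(a s + b t)² + (c t)²` -/
theorem exists_reduced (a b c : ℝ) (ha : 0 < a) (hc : 0 < c) :
    ∃ s₁ t₁ s₂ t₂ : ℤ, s₁ * t₂ - s₂ * t₁ = 1 ∧ ∃ R₁ R₂ : ℝ, 0 < R₁ ∧ R₁ ≤ R₂ ∧
      a * c ≤ R₁ * R₂ ∧ R₁ * R₂ ≤ 2 * (a * c) ∧
      |a * s₁ + b * t₁| ≤ R₁ ∧ |c * t₁| ≤ R₁ ∧ |a * s₂ + b * t₂| ≤ R₂ ∧ |c * t₂| ≤ R₂ := by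
  classical
  set Q : ℤ × ℤ → ℝ := fun v => (a * v.1 + b * v.2) ^ 2 + (c * v.2) ^ 2 with hQ
  have hQpos : ∀ v : ℤ × ℤ, v ≠ 0 → 0 < Q v := by
    rintro ⟨s, t⟩ hv
    by_cases ht : t = 0
    · subst ht
      have hs : s ≠ 0 := fun h => hv (by rw [h]; rfl)
      have : (0 : ℝ) < (a * s) ^ 2 := by
        have hs' : (s : ℝ) ≠ 0 := by exact_mod_cast hs
        positivity
      simp only [hQ, Int.cast_zero, mul_zero, add_zero]
      nlinarith
    · have ht' : (t : ℝ) ≠ 0 := by exact_mod_cast ht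
      have : (0 : ℝ) < (c * t) ^ 2 := by positivity
      simp only [hQ]
      nlinarith [sq_nonneg (a * (s : ℝ) + b * t)]
  -- finiteness
  set K : ℝ := Q (1, 0) with hK
  have hfin : {v : ℤ × ℤ | v ≠ 0 ∧ Q v ≤ K}.Finite := by
    set r : ℝ := Real.sqrt K with hr
    have hK0 : 0 ≤ K := (hQpos (1, 0) (by simp)).le
    refine Set.Finite.subset (Set.Finite.prod (Set.finite_Icc (-⌈(r + |b| * (r / c)) / a⌉)
      ⌈(r + |b| * (r / c)) / a⌉) (Set.finite_Icc (-⌈r / c⌉) ⌈r / c⌉)) ?_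
    rintro ⟨s, t⟩ ⟨-, hv⟩
    simp only [hQ] at hv
    have h1 : |c * (t : ℝ)| ≤ r := by
      apply Real.abs_le_sqrt
      nlinarith [sq_nonneg (a * (s : ℝ) + b * t)]
    have h2 : |a * (s : ℝ) + b * t| ≤ r := by
      apply Real.abs_le_sqrt
      nlinarith [sq_nonneg (c * (t : ℝ))]
    have h3 : |(t : ℝ)| ≤ r / c := by
      rw [abs_mul, abs_of_pos hc] at h1
      rw [le_div_iff₀ hc]
      linarith
    have h4 : |(s : ℝ)| ≤ (r + |b| * (r / c)) / a := by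
      rw [le_div_iff₀ ha]
      have h5 : |a * (s : ℝ)| ≤ |a * (s : ℝ) + b * t| + |b * (t : ℝ)| := by
        have := abs_sub (a * (s : ℝ) + b * t) (b * t)
        simpa using this
      rw [abs_mul, abs_of_pos ha, abs_mul] at h5
      have h6 : |b| * |(t : ℝ)| ≤ |b| * (r / c) := mul_le_mul_of_nonneg_left h3 (abs_nonneg _)
      linarith
    rw [abs_le] at h3 h4
    refine ⟨⟨?_, ?_⟩, ⟨?_, ?_⟩⟩
    · have : -(s : ℝ) ≤ ⌈(r + |b| * (r / c)) / a⌉ := by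
        have := Int.le_ceil ((r + |b| * (r / c)) / a)
        linarith
      have : -s ≤ ⌈(r + |b| * (r / c)) / a⌉ := by exact_mod_cast this
      simp only
      omega
    · have : (s : ℝ) ≤ ⌈(r + |b| * (r / c)) / a⌉ := by
        have := Int.le_ceil ((r + |b| * (r / c)) / a)
        linarith
      exact_mod_cast this
    · have : -(t : ℝ) ≤ ⌈r / c⌉ := by
        have := Int.le_ceil (r / c)
        linarith
      have : -t ≤ ⌈r / c⌉ := by exact_mod_cast this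
      simp only
      omega
    · have : (t : ℝ) ≤ ⌈r / c⌉ := by
        have := Int.le_ceil (r / c)
        linarith
      exact_mod_cast this
  obtain ⟨v, ⟨hv0, hvK⟩, hmin⟩ := Set.exists_min_image _ Q hfin ⟨(1, 0), by simp, le_refl _⟩
  have hmin' : ∀ w : ℤ × ℤ, w ≠ 0 → Q v ≤ Q w := by
    intro w hw
    by_cases h : Q w ≤ K
    · exact hmin w ⟨hw, h⟩
    · push Not at h
      exact hvK.trans h.le
  obtain ⟨s₁, t₁⟩ := v
  -- primitive
  have hprim : Int.gcd s₁ t₁ = 1 := by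
    by_contra hg
    have hg0 : Int.gcd s₁ t₁ ≠ 0 := by
      intro h
      rw [Int.gcd_eq_zero_iff] at h
      exact hv0 (by rw [h.1, h.2]; rfl)
    have hg2 : 2 ≤ Int.gcd s₁ t₁ := by omega
    obtain ⟨s', hs'⟩ : (Int.gcd s₁ t₁ : ℤ) ∣ s₁ := Int.gcd_dvd_left ..
    obtain ⟨t', ht'⟩ : (Int.gcd s₁ t₁ : ℤ) ∣ t₁ := Int.gcd_dvd_right ..
    set g := Int.gcd s₁ t₁ with hgdef
    have hne : ((s', t') : ℤ × ℤ) ≠ 0 := by
      intro h
      have h1 : s' = 0 := congrArg Prod.fst h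
      have h2 : t' = 0 := congrArg Prod.snd h
      rw [h1, mul_zero] at hs'
      rw [h2, mul_zero] at ht'
      exact hv0 (by rw [hs', ht']; rfl)
    have h1 := hmin' _ hne
    have h2 := hQpos _ hne
    have h3 : Q (s₁, t₁) = (g : ℝ) ^ 2 * Q (s', t') := by
      simp only [hQ]
      have e1 : (s₁ : ℝ) = g * s' := by
        have := congrArg (Int.cast : ℤ → ℝ) hs'
        push_cast at this
        exact this
      have e2 : (t₁ : ℝ) = g * t' := by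
        have := congrArg (Int.cast : ℤ → ℝ) ht'
        push_cast at this
        exact this
      rw [e1, e2]
      ring
    have hg2' : (2 : ℝ) ≤ g := by exact_mod_cast hg2
    have hg4 : (4 : ℝ) ≤ (g : ℝ) ^ 2 := by nlinarith
    have h4 : 4 * Q (s', t') ≤ (g : ℝ) ^ 2 * Q (s', t') := mul_le_mul_of_nonneg_right hg4 h2.le
    linarith
  -- complete to a basis
  obtain ⟨s₂', t₂', hdet⟩ : ∃ s t : ℤ, s₁ * t - s * t₁ = 1 := by
    have := Int.isCoprime_iff_gcd_eq_one.2 hprim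
    obtain ⟨u, w, huw⟩ := this
    exact ⟨-w, u, by linarith⟩
  have hQ1 : 0 < Q (s₁, t₁) := hQpos _ hv0
  set ip : ℝ := (a * s₁ + b * t₁) * (a * s₂' + b * t₂') + (c * t₁) * (c * t₂') with hip
  set k : ℤ := round (ip / Q (s₁, t₁)) with hk
  have hround : |ip / Q (s₁, t₁) - k| ≤ 1 / 2 := abs_sub_round _
  set s₂ : ℤ := s₂' - k * s₁ with hs₂
  set t₂ : ℤ := t₂' - k * t₁ with ht₂
  have hdet2 : s₁ * t₂ - s₂ * t₁ = 1 := by
    rw [hs₂, ht₂]
    linarith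
  set jp : ℝ := (a * s₁ + b * t₁) * (a * s₂ + b * t₂) + (c * t₁) * (c * t₂) with hjp
  have hjp1 : jp = ip - k * Q (s₁, t₁) := by
    rw [hjp, hip, hs₂, ht₂]
    simp only [hQ]
    push_cast
    ring
  have hjp2 : |jp| ≤ Q (s₁, t₁) / 2 := by
    have : jp = Q (s₁, t₁) * (ip / Q (s₁, t₁) - k) := by
      rw [hjp1, mul_sub, mul_div_cancel₀ _ hQ1.ne']
      ring
    rw [this, abs_mul, abs_of_pos hQ1]
    nlinarith
  have hv2 : ((s₂, t₂) : ℤ × ℤ) ≠ 0 := by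
    intro h
    have h1 : s₂ = 0 := congrArg Prod.fst h
    have h2 : t₂ = 0 := congrArg Prod.snd h
    rw [h1, h2] at hdet2
    simp at hdet2
  have hQ2 : Q (s₁, t₁) ≤ Q (s₂, t₂) := hmin' _ hv2
  have hlag : Q (s₁, t₁) * Q (s₂, t₂) = jp ^ 2 + (a * c) ^ 2 := by
    have e : ((s₁ : ℝ) * t₂ - s₂ * t₁) = 1 := by exact_mod_cast hdet2
    have : Q (s₁, t₁) * Q (s₂, t₂) = jp ^ 2 + (a * c) ^ 2 * ((s₁ : ℝ) * t₂ - s₂ * t₁) ^ 2 := by
      simp only [hQ, hjp]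
      ring
    rw [this, e]
    ring
  have hac : 0 < a * c := by positivity
  have hQ2pos : 0 < Q (s₂, t₂) := hQ1.trans_le hQ2
  refine ⟨s₁, t₁, s₂, t₂, hdet2, Real.sqrt (Q (s₁, t₁)), Real.sqrt (Q (s₂, t₂)),
    Real.sqrt_pos.2 hQ1, Real.sqrt_le_sqrt hQ2, ?_, ?_, ?_, ?_, ?_, ?_⟩
  · rw [← Real.sqrt_mul hQ1.le]
    apply Real.le_sqrt_of_sq_le
    rw [hlag]
    nlinarith [sq_nonneg jp]
  · rw [← Real.sqrt_mul hQ1.le]
    rw [Real.sqrt_le_left (by positivity)]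
    have h1 : jp ^ 2 ≤ (Q (s₁, t₁) / 2) ^ 2 := by
      rw [← sq_abs jp]
      exact pow_le_pow_left₀ (abs_nonneg _) hjp2 2
    have h2 : Q (s₁, t₁) * Q (s₁, t₁) ≤ Q (s₁, t₁) * Q (s₂, t₂) :=
      mul_le_mul_of_nonneg_left hQ2 hQ1.le
    have h3 : (Q (s₁, t₁) / 2) ^ 2 = (Q (s₁, t₁) * Q (s₁, t₁)) / 4 := by ring
    have h4 : (2 * (a * c)) ^ 2 = 4 * (a * c) ^ 2 := by ring
    have h5 : 0 ≤ (a * c) ^ 2 := sq_nonneg _
    rw [h4]
    linarith
  · apply Real.abs_le_sqrt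
    simp only [hQ]
    nlinarith [sq_nonneg (c * (t₁ : ℝ))]
  · apply Real.abs_le_sqrt
    simp only [hQ]
    nlinarith [sq_nonneg (a * (s₁ : ℝ) + b * t₁)]
  · apply Real.abs_le_sqrt
    simp only [hQ]
    nlinarith [sq_nonneg (c * (t₂ : ℝ))]
  · apply Real.abs_le_sqrt
    simp only [hQ]
    nlinarith [sq_nonneg (a * (s₂ : ℝ) + b * t₂)]

end Pool.Agent.T2H27.Szp
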