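import Mathlib
import Pool.Agent.T2H27.Cnt
import Pool.Agent.T2H27.Red

/-!
# Binary cubic forms attached to a pair `(A, B)` with a double root modulo `m²`
-/

set_option autoImplicit false

namespace Pool.Agent.T2H27.Szp

/-- the value at `(s, t)` of the cubic form `(m, 3r, 3h, k)` -/
def fa (m r h k s t : ℤ) : ℤ := m * s ^ 3 + 3 * r * s ^ 2 * t + 3 * h * s * t ^ 2 + k * t ^ 3

/-- the polar form -/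
def fb (m r h k s₁ t₁ s₂ t₂ : ℤ) : ℤ :=
  m * s₁ ^ 2 * s₂ + r * (s₁ ^ 2 * t₂ + 2 * s₁ * s₂ * t₁) +
    h * (s₂ * t₁ ^ 2 + 2 * s₁ * t₁ * t₂) + k * t₁ ^ 2 * t₂

/-- the Hessian of `(a, 3b, 3c, d)` at `(t₂, -t₁)` -/
def dH (a b c d t₁ t₂ : ℤ) : ℤ :=
  (a * c - b ^ 2) * t₂ ^ 2 - (a * d - b * c) * t₁ * t₂ + (b * d - c ^ 2) * t₁ ^ 2

/-- the cubic covariant of `(a, 3b, 3c, d)` at `(t₂, -t₁)` -/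
def dG (a b c d t₁ t₂ : ℤ) : ℤ :=
  (a ^ 2 * d - 3 * a * b * c + 2 * b ^ 3) * t₂ ^ 3 -
    3 * (a * b * d + b ^ 2 * c - 2 * a * c ^ 2) * t₂ ^ 2 * t₁ -
    3 * (a * c * d + b * c ^ 2 - 2 * b ^ 2 * d) * t₂ * t₁ ^ 2 +
    (a * d ^ 2 - 3 * b * c * d + 2 * c ^ 3) * t₁ ^ 3

theorem dH_eq (m r h k s₁ t₁ s₂ t₂ : ℤ) :
    dH (fa m r h k s₁ t₁) (fb m r h k s₁ t₁ s₂ t₂) (fb m r h k s₂ t₂ s₁ t₁) (fa m r h k s₂ t₂)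
      t₁ t₂ = (s₁ * t₂ - s₂ * t₁) ^ 4 * (m * h - r ^ 2) := by
  unfold dH fa fb
  ring

theorem dG_eq (m r h k s₁ t₁ s₂ t₂ : ℤ) :
    dG (fa m r h k s₁ t₁) (fb m r h k s₁ t₁ s₂ t₂) (fb m r h k s₂ t₂ s₁ t₁) (fa m r h k s₂ t₂)
      t₁ t₂ = (s₁ * t₂ - s₂ * t₁) ^ 6 * (m ^ 2 * k - 3 * m * r * h + 2 * r ^ 3) := by
  unfold dG fa fb
  ring

/-- the size of the polar form of a cubic form close to the cusp -/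
theorem polar_bound (Z d ρ₁ ρ₂ e p g x₁ t₁ x₂ t₂ : ℝ) (hZ : 1 ≤ Z) (hd : 1 ≤ d)
    (hdZ : d ^ 2 ≤ 6 * Z) (h0 : 0 ≤ ρ₁) (h0' : 0 ≤ ρ₂)
    (he : |e| ≤ 4096 * Z) (hp : |p| ≤ 4096 * d ^ 2 * Z) (hg : |g| ≤ 4096 * d ^ 4 * Z)
    (h1 : |x₁| ≤ d * ρ₁) (h2 : d * |t₁| ≤ ρ₁) (h3 : |x₂| ≤ d * ρ₂) (h4 : d * |t₂| ≤ ρ₂) :
    |x₁ ^ 2 * x₂ + e * (x₁ ^ 2 * t₂ + 2 * x₁ * x₂ * t₁) + p * (x₂ * t₁ ^ 2 + 2 * x₁ * t₁ * t₂) +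
      g * t₁ ^ 2 * t₂| ≤ 30000 * (d * Z) * (ρ₁ ^ 2 * ρ₂) := by
  have hd0 : 0 < d := by linarith
  have ht1 : |t₁| ≤ ρ₁ / d := by
    rw [le_div_iff₀ hd0]; linarith
  have ht2 : |t₂| ≤ ρ₂ / d := by
    rw [le_div_iff₀ hd0]; linarith
  have hr1 : 0 ≤ ρ₁ / d := by positivity
  have hr2 : 0 ≤ ρ₂ / d := by positivity
  have T1 : |x₁ ^ 2 * x₂| ≤ (d * ρ₁) ^ 2 * (d * ρ₂) := by
    rw [abs_mul, abs_pow]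
    gcongr
  have T2 : |e * (x₁ ^ 2 * t₂ + 2 * x₁ * x₂ * t₁)| ≤
      4096 * Z * ((d * ρ₁) ^ 2 * (ρ₂ / d) + 2 * (d * ρ₁) * (d * ρ₂) * (ρ₁ / d)) := by
    rw [abs_mul]
    gcongr
    refine (abs_add_le _ _).trans ?_
    rw [abs_mul, abs_mul, abs_mul, abs_mul, abs_pow, abs_two]
    gcongr
  have T3 : |p * (x₂ * t₁ ^ 2 + 2 * x₁ * t₁ * t₂)| ≤
      4096 * d ^ 2 * Z * ((d * ρ₂) * (ρ₁ / d) ^ 2 + 2 * (d * ρ₁) * (ρ₁ / d) * (ρ₂ / d)) := by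
    rw [abs_mul]
    gcongr
    refine (abs_add_le _ _).trans ?_
    rw [abs_mul, abs_mul, abs_mul, abs_mul, abs_pow, abs_two]
    gcongr
  have T4 : |g * t₁ ^ 2 * t₂| ≤ 4096 * d ^ 4 * Z * (ρ₁ / d) ^ 2 * (ρ₂ / d) := by
    rw [abs_mul, abs_mul, abs_pow]
    gcongr
  have htri : |x₁ ^ 2 * x₂ + e * (x₁ ^ 2 * t₂ + 2 * x₁ * x₂ * t₁) +
      p * (x₂ * t₁ ^ 2 + 2 * x₁ * t₁ * t₂) + g * t₁ ^ 2 * t₂| ≤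
      |x₁ ^ 2 * x₂| + |e * (x₁ ^ 2 * t₂ + 2 * x₁ * x₂ * t₁)| +
      |p * (x₂ * t₁ ^ 2 + 2 * x₁ * t₁ * t₂)| + |g * t₁ ^ 2 * t₂| := by
    refine (abs_add_le _ _).trans ?_
    gcongr
    refine (abs_add_le _ _).trans ?_
    gcongr
    exact abs_add_le _ _
  refine htri.trans ((add_le_add (add_le_add (add_le_add T1 T2) T3) T4).trans ?_)
  have e1 : (d * ρ₁) ^ 2 * (d * ρ₂) = d ^ 2 * (d * (ρ₁ ^ 2 * ρ₂)) := by ring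
  have e2 : 4096 * Z * ((d * ρ₁) ^ 2 * (ρ₂ / d) + 2 * (d * ρ₁) * (d * ρ₂) * (ρ₁ / d)) =
      12288 * Z * (d * (ρ₁ ^ 2 * ρ₂)) := by
    field_simp
    ring
  have e3 : 4096 * d ^ 2 * Z * ((d * ρ₂) * (ρ₁ / d) ^ 2 + 2 * (d * ρ₁) * (ρ₁ / d) * (ρ₂ / d)) =
      12288 * Z * (d * (ρ₁ ^ 2 * ρ₂)) := by
    field_simp
    ring
  have e4 : 4096 * d ^ 4 * Z * (ρ₁ / d) ^ 2 * (ρ₂ / d) = 4096 * Z * (d * (ρ₁ ^ 2 * ρ₂)) := by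
    field_simp
  rw [e1, e2, e3, e4]
  have h5 : 0 ≤ d * (ρ₁ ^ 2 * ρ₂) := by positivity
  have h6 : d ^ 2 * (d * (ρ₁ ^ 2 * ρ₂)) ≤ 6 * Z * (d * (ρ₁ ^ 2 * ρ₂)) :=
    mul_le_mul_of_nonneg_right hdZ h5
  have h7 : 30000 * (d * Z) * (ρ₁ ^ 2 * ρ₂) = 30000 * Z * (d * (ρ₁ ^ 2 * ρ₂)) := by ring
  rw [h7]
  have h8 : 0 ≤ Z * (d * (ρ₁ ^ 2 * ρ₂)) := by positivity
  linarith

/-- the double root `r` of `x³ - 3Ax + 2B` modulo `m² q`, a basis of the lattice of the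
`(x, y) ≡ (r y, y)` modulo `m`, and its size -/
structure Bas (Z d : ℝ) (m q : ℕ) (A B : ℤ) (ρ₁ ρ₂ : ℝ) (s₁ t₁ s₂ t₂ r h k : ℤ) : Prop where
  hA : A = r ^ 2 - m * h
  hB : 2 * B = m ^ 2 * k + 2 * r ^ 3 - 3 * m * r * h
  hqh : (q : ℤ) ∣ h
  hqk : (q : ℤ) ∣ k
  det : s₁ * t₂ - s₂ * t₁ = 1
  ht : t₁ ≠ 0
  bd : ∃ e : ℝ, |e| ≤ 4096 * Z ∧ |e ^ 2 - A| ≤ 4096 * d ^ 2 * Z ∧
    |e ^ 3 - 3 * A * e + 2 * B| ≤ 4096 * d ^ 4 * Z ∧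
    |(m : ℝ) * s₁ + (r - e) * t₁| ≤ d * ρ₁ ∧ d * |(t₁ : ℝ)| ≤ ρ₁ ∧
    |(m : ℝ) * s₂ + (r - e) * t₂| ≤ d * ρ₂ ∧ d * |(t₂ : ℝ)| ≤ ρ₂

namespace Bas

variable {Z d : ℝ} {m q : ℕ} {A B : ℤ} {ρ₁ ρ₂ : ℝ} {s₁ t₁ s₂ t₂ r h k : ℤ}

theorem rho1 (H : Bas Z d m q A B ρ₁ ρ₂ s₁ t₁ s₂ t₂ r h k) (hd : 1 ≤ d) : d ≤ ρ₁ := by
  obtain ⟨e, -, -, -, -, h5, -, -⟩ := H.bd
  have : (1 : ℝ) ≤ |(t₁ : ℝ)| := by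
    have := Int.one_le_abs H.ht
    exact_mod_cast this
  nlinarith

/-- replace `w₂` by `w₂ + j w₁` -/
theorem shift (H : Bas Z d m q A B ρ₁ ρ₂ s₁ t₁ s₂ t₂ r h k) (hd : 1 ≤ d) (j : ℕ) :
    Bas Z d m q A B ρ₁ (ρ₂ + j * ρ₁) s₁ t₁ (s₂ + j * s₁) (t₂ + j * t₁) r h k := by
  obtain ⟨e, h1, h2, h3, h4, h5, h6, h7⟩ := H.bd
  refine ⟨H.hA, H.hB, H.hqh, H.hqk, ?_, H.ht, e, h1, h2, h3, h4, h5, ?_, ?_⟩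
  · have := H.det
    linarith
  · push_cast
    have e1 : (m : ℝ) * (s₂ + j * s₁) + (r - e) * (t₂ + j * t₁) =
      (m * s₂ + (r - e) * t₂) + j * (m * s₁ + (r - e) * t₁) := by ring
    rw [e1]
    refine (abs_add_le _ _).trans ?_
    rw [abs_mul, Nat.abs_cast]
    have : (j : ℝ) * |(m : ℝ) * s₁ + (r - e) * t₁| ≤ j * (d * ρ₁) :=
      mul_le_mul_of_nonneg_left h4 (Nat.cast_nonneg _)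
    linarith
  · push_cast
    have h8 : |(t₂ : ℝ) + j * t₁| ≤ |(t₂ : ℝ)| + j * |(t₁ : ℝ)| := by
      refine (abs_add_le _ _).trans ?_
      rw [abs_mul, Nat.abs_cast]
    have h9 : d * |(t₂ : ℝ) + j * t₁| ≤ d * (|(t₂ : ℝ)| + j * |(t₁ : ℝ)|) :=
      mul_le_mul_of_nonneg_left h8 (by linarith)
    have h10 : (j : ℝ) * (d * |(t₁ : ℝ)|) ≤ j * ρ₁ :=
      mul_le_mul_of_nonneg_left h5 (Nat.cast_nonneg _)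
    nlinarith

theorem mono (H : Bas Z d m q A B ρ₁ ρ₂ s₁ t₁ s₂ t₂ r h k) (hd : 1 ≤ d) {ρ₁' ρ₂' : ℝ}
    (h1 : ρ₁ ≤ ρ₁') (h2 : ρ₂ ≤ ρ₂') : Bas Z d m q A B ρ₁' ρ₂' s₁ t₁ s₂ t₂ r h k := by
  obtain ⟨e, h1, h2, h3, h4, h5, h6, h7⟩ := H.bd
  exact ⟨H.hA, H.hB, H.hqh, H.hqk, H.det, H.ht, e, h1, h2, h3,
    h4.trans (by gcongr), h5.trans (by assumption), h6.trans (by gcongr),
    h7.trans (by assumption)⟩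

/-- the value of the polar form -/
theorem polar_eq (hA : A = r ^ 2 - m * h) (hB : 2 * B = m ^ 2 * k + 2 * r ^ 3 - 3 * m * r * h)
    (s₁ t₁ s₂ t₂ : ℤ) (e : ℝ) :
    (m : ℝ) ^ 2 * (fb m r h k s₁ t₁ s₂ t₂ : ℝ) =
      (m * s₁ + (r - e) * t₁) ^ 2 * (m * s₂ + (r - e) * t₂) +
      e * ((m * s₁ + (r - e) * t₁) ^ 2 * t₂ +
        2 * (m * s₁ + (r - e) * t₁) * (m * s₂ + (r - e) * t₂) * t₁) +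
      (e ^ 2 - A) * ((m * s₂ + (r - e) * t₂) * (t₁ : ℝ) ^ 2 +
        2 * (m * s₁ + (r - e) * t₁) * t₁ * t₂) +
      (e ^ 3 - 3 * A * e + 2 * B) * (t₁ : ℝ) ^ 2 * t₂ := by
  have hA' : (A : ℝ) = r ^ 2 - m * h := by exact_mod_cast congrArg (Int.cast : ℤ → ℝ) hA
  have hB' : 2 * (B : ℝ) = m ^ 2 * k + 2 * r ^ 3 - 3 * m * r * h := by
    exact_mod_cast congrArg (Int.cast : ℤ → ℝ) hB
  rw [hB', hA']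
  unfold fb
  push_cast
  ring

theorem fa_eq_fb (m r h k s t : ℤ) : fa m r h k s t = fb m r h k s t s t := by
  unfold fa fb
  ring

theorem bound_b (H : Bas Z d m q A B ρ₁ ρ₂ s₁ t₁ s₂ t₂ r h k) (hZ : 1 ≤ Z) (hd : 1 ≤ d)
    (hdZ : d ^ 2 ≤ 6 * Z) (hm : 0 < m) (h0' : 0 ≤ ρ₂) :
    |(fb m r h k s₁ t₁ s₂ t₂ : ℝ)| ≤ 30000 * (d * Z) * (ρ₁ ^ 2 * ρ₂) / m ^ 2 := by
  have hm' : (0 : ℝ) < m := by exact_mod_cast hm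
  have hr := H.rho1 hd
  obtain ⟨e, h1, h2, h3, h4, h5, h6, h7⟩ := H.bd
  have := polar_bound Z d ρ₁ ρ₂ e _ _ _ t₁ _ t₂ hZ hd hdZ (by linarith) h0' h1 h2 h3 h4 h5 h6 h7
  rw [← polar_eq H.hA H.hB, abs_mul, abs_of_pos (by positivity : (0 : ℝ) < (m : ℝ) ^ 2)] at this
  rw [le_div_iff₀ (by positivity)]
  linarith

theorem bound_c (H : Bas Z d m q A B ρ₁ ρ₂ s₁ t₁ s₂ t₂ r h k) (hZ : 1 ≤ Z) (hd : 1 ≤ d)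
    (hdZ : d ^ 2 ≤ 6 * Z) (hm : 0 < m) (h0' : 0 ≤ ρ₂) :
    |(fb m r h k s₂ t₂ s₁ t₁ : ℝ)| ≤ 30000 * (d * Z) * (ρ₁ * ρ₂ ^ 2) / m ^ 2 := by
  have hm' : (0 : ℝ) < m := by exact_mod_cast hm
  have hr := H.rho1 hd
  obtain ⟨e, h1, h2, h3, h4, h5, h6, h7⟩ := H.bd
  have := polar_bound Z d ρ₂ ρ₁ e _ _ _ t₂ _ t₁ hZ hd hdZ h0' (by linarith) h1 h2 h3 h6 h7 h4 h5
  rw [← polar_eq H.hA H.hB, abs_mul, abs_of_pos (by positivity : (0 : ℝ) < (m : ℝ) ^ 2)] at this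
  rw [le_div_iff₀ (by positivity)]
  linarith

theorem bound_a (H : Bas Z d m q A B ρ₁ ρ₂ s₁ t₁ s₂ t₂ r h k) (hZ : 1 ≤ Z) (hd : 1 ≤ d)
    (hdZ : d ^ 2 ≤ 6 * Z) (hm : 0 < m) :
    |(fa m r h k s₁ t₁ : ℝ)| ≤ 30000 * (d * Z) * ρ₁ ^ 3 / m ^ 2 := by
  have hm' : (0 : ℝ) < m := by exact_mod_cast hm
  have hr := H.rho1 hd
  obtain ⟨e, h1, h2, h3, h4, h5, h6, h7⟩ := H.bd
  have := polar_bound Z d ρ₁ ρ₁ e _ _ _ t₁ _ t₁ hZ hd hdZ (by linarith) (by linarith) h1 h2 h3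
    h4 h5 h4 h5
  rw [← polar_eq H.hA H.hB, abs_mul, abs_of_pos (by positivity : (0 : ℝ) < (m : ℝ) ^ 2)] at this
  rw [le_div_iff₀ (by positivity), fa_eq_fb]
  linarith

theorem bound_d (H : Bas Z d m q A B ρ₁ ρ₂ s₁ t₁ s₂ t₂ r h k) (hZ : 1 ≤ Z) (hd : 1 ≤ d)
    (hdZ : d ^ 2 ≤ 6 * Z) (hm : 0 < m) (h0' : 0 ≤ ρ₂) :
    |(fa m r h k s₂ t₂ : ℝ)| ≤ 30000 * (d * Z) * ρ₂ ^ 3 / m ^ 2 := by
  have hm' : (0 : ℝ) < m := by exact_mod_cast hm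
  obtain ⟨e, h1, h2, h3, h4, h5, h6, h7⟩ := H.bd
  have := polar_bound Z d ρ₂ ρ₂ e _ _ _ t₂ _ t₂ hZ hd hdZ h0' h0' h1 h2 h3
    h6 h7 h6 h7
  rw [← polar_eq H.hA H.hB, abs_mul, abs_of_pos (by positivity : (0 : ℝ) < (m : ℝ) ^ 2)] at this
  rw [le_div_iff₀ (by positivity), fa_eq_fb]
  linarith

/-- the pair `(A, B)` is determined by `(t₁, t₂)` and the form -/
theorem dec (H : Bas Z d m q A B ρ₁ ρ₂ s₁ t₁ s₂ t₂ r h k) :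
    dH (fa m r h k s₁ t₁) (fb m r h k s₁ t₁ s₂ t₂) (fb m r h k s₂ t₂ s₁ t₁) (fa m r h k s₂ t₂)
      t₁ t₂ = -A ∧
    dG (fa m r h k s₁ t₁) (fb m r h k s₁ t₁ s₂ t₂) (fb m r h k s₂ t₂ s₁ t₁) (fa m r h k s₂ t₂)
      t₁ t₂ = 2 * B := by
  rw [dH_eq, dG_eq, H.det, H.hA, H.hB]
  constructor <;> ring

theorem big (H : Bas Z d m q A B ρ₁ ρ₂ s₁ t₁ s₂ t₂ r h k) (hd : 1 ≤ d) :
    (m : ℝ) ≤ d * (ρ₁ * |(t₂ : ℝ)| + ρ₂ * |(t₁ : ℝ)|) := by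
  obtain ⟨e, h1, h2, h3, h4, h5, h6, h7⟩ := H.bd
  have hdet : (s₁ : ℝ) * t₂ - s₂ * t₁ = 1 := by exact_mod_cast H.det
  have e1 : (m : ℝ) = (m * s₁ + (r - e) * t₁) * t₂ - (m * s₂ + (r - e) * t₂) * t₁ := by
    linear_combination (-(m : ℝ)) * hdet
  calc (m : ℝ) ≤ |(m * s₁ + (r - e) * t₁) * t₂ - (m * s₂ + (r - e) * t₂) * t₁| := by
        rw [← e1]; exact le_abs_self _
    _ ≤ |(m * s₁ + (r - e) * t₁) * t₂| + |(m * s₂ + (r - e) * t₂) * t₁| := abs_sub _ _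
    _ = |m * s₁ + (r - e) * t₁| * |(t₂ : ℝ)| + |m * s₂ + (r - e) * t₂| * |(t₁ : ℝ)| := by
        rw [abs_mul, abs_mul]
    _ ≤ (d * ρ₁) * |(t₂ : ℝ)| + (d * ρ₂) * |(t₁ : ℝ)| := by gcongr
    _ = _ := by ring

end Bas

end Pool.Agent.T2H27.Szp
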