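import Mathlib
import Pool.Agent.T2H27.Cub

/-!
# Counting by boxes: the modulus is not fixed
-/

set_option autoImplicit false

namespace Pool.Agent.T2H27.Szp

open Finset

/-- the tuple attached to a basis -/
def tup (m r h k s₁ t₁ s₂ t₂ : ℤ) : ℤ × ℤ × ℤ × ℤ × ℤ × ℤ :=
  (t₁, t₂, fa m r h k s₁ t₁, fb m r h k s₁ t₁ s₂ t₂, fb m r h k s₂ t₂ s₁ t₁, fa m r h k s₂ t₂)

/-- `(A, B)` from the tuple -/
def untup (x : ℤ × ℤ × ℤ × ℤ × ℤ × ℤ) : ℤ × ℤ :=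
  (-dH x.2.2.1 x.2.2.2.1 x.2.2.2.2.1 x.2.2.2.2.2 x.1 x.2.1,
    dG x.2.2.1 x.2.2.2.1 x.2.2.2.2.1 x.2.2.2.2.2 x.1 x.2.1 / 2)

theorem untup_tup {Z d : ℝ} {m q : ℕ} {A B : ℤ} {ρ₁ ρ₂ : ℝ} {s₁ t₁ s₂ t₂ r h k : ℤ}
    (H : Bas Z d m q A B ρ₁ ρ₂ s₁ t₁ s₂ t₂ r h k) :
    untup (tup m r h k s₁ t₁ s₂ t₂) = (A, B) := by
  obtain ⟨h1, h2⟩ := H.dec
  unfold untup tup
  simp only
  rw [h1, h2]
  simp

/-- the box -/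
noncomputable def Box (d Q ρ₁ ρ₂ : ℝ) : Finset (ℤ × ℤ × ℤ × ℤ × ℤ × ℤ) :=
  I (ρ₁ / d) ×ˢ I (ρ₂ / d) ×ˢ I (Q * ρ₁ ^ 3) ×ˢ I (Q * (ρ₁ ^ 2 * ρ₂)) ×ˢ
    I (Q * (ρ₁ * ρ₂ ^ 2)) ×ˢ I (Q * ρ₂ ^ 3)

theorem tup_mem_box {Z d : ℝ} {m q : ℕ} {A B : ℤ} {ρ₁ ρ₂ M : ℝ} {s₁ t₁ s₂ t₂ r h k : ℤ}
    (H : Bas Z d m q A B ρ₁ ρ₂ s₁ t₁ s₂ t₂ r h k) (hZ : 1 ≤ Z) (hd : 1 ≤ d)
    (hdZ : d ^ 2 ≤ 6 * Z) (h0' : 0 ≤ ρ₂) (hM : 0 < M) (hm : M ≤ m) :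
    tup m r h k s₁ t₁ s₂ t₂ ∈ Box d (30000 * (d * Z) / M ^ 2) ρ₁ ρ₂ := by
  have hm0 : 0 < m := by
    have : (0 : ℝ) < m := by linarith
    exact_mod_cast this
  have hr := H.rho1 hd
  have hρ : 0 ≤ ρ₁ := by linarith
  have hd0 : 0 < d := by linarith
  have key : ∀ y x : ℝ, 0 ≤ y → |x| ≤ 30000 * (d * Z) * y / m ^ 2 →
      |x| ≤ 30000 * (d * Z) / M ^ 2 * y := by
    intro y x hy hx
    refine hx.trans ?_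
    rw [div_mul_eq_mul_div]
    gcongr
  have ba := key _ _ (by positivity) (H.bound_a hZ hd hdZ hm0)
  have bb := key _ _ (by positivity) (H.bound_b hZ hd hdZ hm0 h0')
  have bc := key _ _ (by positivity) (H.bound_c hZ hd hdZ hm0 h0')
  have bd := key _ _ (by positivity) (H.bound_d hZ hd hdZ hm0 h0')
  obtain ⟨e, -, -, -, -, h5, -, h7⟩ := H.bd
  unfold Box tup
  simp only [mem_product, mem_I]
  refine ⟨?_, ?_, ba, bb, bc, bd⟩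
  · rw [le_div_iff₀ hd0]; linarith
  · rw [le_div_iff₀ hd0]; linarith

theorem countB (Z d M ρ₁ ρ₂ : ℝ) (hZ : 1 ≤ Z) (hd : 1 ≤ d) (hdZ : d ^ 2 ≤ 6 * Z) (hM : 0 < M)
    (hρ : ρ₁ ≤ ρ₂) (hρM : ρ₁ * ρ₂ ≤ 16 * M) (S : Finset (ℤ × ℤ))
    (hS : ∀ x ∈ S, ∃ m : ℕ, M ≤ m ∧ ∃ s₁ t₁ s₂ t₂ r h k : ℤ,
      Bas Z d m 1 x.1 x.2 ρ₁ ρ₂ s₁ t₁ s₂ t₂ r h k ∧ fa m r h k s₁ t₁ ≠ 0) :
    (S.card : ℝ) ≤ 729 * 30000 ^ 4 * 16 ^ 7 * (d ^ 2 * Z ^ 4 / M) := by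
  classical
  have hd0 : 0 < d := by linarith
  rcases S.eq_empty_or_nonempty with rfl | ⟨x₀, hx₀⟩
  · simp only [card_empty, Nat.cast_zero]
    positivity
  · obtain ⟨m₀, hm₀, s₁, t₁, s₂, t₂, r, h, k, H₀, hne⟩ := hS x₀ hx₀
    have hρ1 := H₀.rho1 hd
    have hρ1' : 0 < ρ₁ := by linarith
    have hρ2' : 0 < ρ₂ := by linarith
    have hm0 : 0 < m₀ := by
      have : (0 : ℝ) < m₀ := by linarith
      exact_mod_cast this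
    set Q : ℝ := 30000 * (d * Z) / M ^ 2 with hQ
    have hQ0 : 0 < Q := by positivity
    have hQa : 1 ≤ Q * ρ₁ ^ 3 := by
      have h1 : (1 : ℝ) ≤ |(fa m₀ r h k s₁ t₁ : ℝ)| := by
        have := Int.one_le_abs hne
        exact_mod_cast this
      refine h1.trans ((H₀.bound_a hZ hd hdZ hm0).trans ?_)
      rw [hQ, div_mul_eq_mul_div]
      gcongr
    choose! m hm s₁ t₁ s₂ t₂ r h k H hne using hS
    have hcard : S.card ≤ (Box d Q ρ₁ ρ₂).card := by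
      refine card_le_card_of_injOn
        (fun x => tup (m x) (r x) (h x) (k x) (s₁ x) (t₁ x) (s₂ x) (t₂ x)) ?_ ?_
      · intro x hx
        exact tup_mem_box (H x hx) hZ hd hdZ hρ2'.le hM (hm x hx)
      · intro x hx y hy hxy
        have e1 := untup_tup (H x hx)
        have e2 := untup_tup (H y hy)
        have hxy' : tup (m x) (r x) (h x) (k x) (s₁ x) (t₁ x) (s₂ x) (t₂ x) =
          tup (m y) (r y) (h y) (k y) (s₁ y) (t₁ y) (s₂ y) (t₂ y) := hxy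
        rw [hxy', e2] at e1
        exact e1.symm
    have hbox : ((Box d Q ρ₁ ρ₂).card : ℝ) ≤ (3 * (ρ₁ / d)) * ((3 * (ρ₂ / d)) *
        ((3 * (Q * ρ₁ ^ 3)) * ((3 * (Q * (ρ₁ ^ 2 * ρ₂))) * ((3 * (Q * (ρ₁ * ρ₂ ^ 2))) *
          (3 * (Q * ρ₂ ^ 3)))))) := by
      unfold Box
      simp only [card_product]
      push_cast
      have c1 := card_I' (ρ₁ / d) (by rw [le_div_iff₀ hd0]; linarith)
      have c2 := card_I' (ρ₂ / d) (by rw [le_div_iff₀ hd0]; linarith)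
      have c3 := card_I' (Q * ρ₁ ^ 3) hQa
      have c4 := card_I' (Q * (ρ₁ ^ 2 * ρ₂)) (hQa.trans (by
        rw [pow_succ ρ₁ 2]; gcongr))
      have c5 := card_I' (Q * (ρ₁ * ρ₂ ^ 2)) (hQa.trans (by
        have : ρ₁ ^ 3 = ρ₁ * ρ₁ ^ 2 := by ring
        rw [this]; gcongr))
      have c6 := card_I' (Q * ρ₂ ^ 3) (hQa.trans (by gcongr))
      gcongr
    have hcard' : (S.card : ℝ) ≤ ((Box d Q ρ₁ ρ₂).card : ℝ) := by exact_mod_cast hcard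
    refine hcard'.trans (hbox.trans ?_)
    have e1 : (3 * (ρ₁ / d)) * ((3 * (ρ₂ / d)) *
        ((3 * (Q * ρ₁ ^ 3)) * ((3 * (Q * (ρ₁ ^ 2 * ρ₂))) * ((3 * (Q * (ρ₁ * ρ₂ ^ 2))) *
          (3 * (Q * ρ₂ ^ 3)))))) = 729 * Q ^ 4 * (ρ₁ * ρ₂) ^ 7 / d ^ 2 := by
      field_simp
      ring
    rw [e1]
    have e2 : (ρ₁ * ρ₂) ^ 7 ≤ (16 * M) ^ 7 := by gcongr
    calc 729 * Q ^ 4 * (ρ₁ * ρ₂) ^ 7 / d ^ 2 ≤ 729 * Q ^ 4 * (16 * M) ^ 7 / d ^ 2 := by gcongr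
      _ = _ := by
        rw [hQ]
        field_simp

end Pool.Agent.T2H27.Szp
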