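import Mathlib
import Pool.Agent.T2H27.PartB

/-!
# Counting forms on a hyperplane: the modulus is fixed
-/

set_option autoImplicit false

namespace Pool.Agent.T2H27.Szp

open Finset

theorem abg_aux (Q d ρ₁ ρ₂ t₁ t₂ α β γ : ℝ) (hd : 1 ≤ d) (hQ : 0 ≤ Q) (h1 : 0 < ρ₁) (h2 : 0 < ρ₂)
    (ht2 : d * |t₂| ≤ ρ₂)
    (ha : |t₁ * α| ≤ 2 * Q * ρ₁ ^ 3) (hb : |t₁ * β + t₂ * α| ≤ 2 * Q * (ρ₁ ^ 2 * ρ₂))
    (hc : |t₁ * γ + t₂ * β| ≤ 2 * Q * (ρ₁ * ρ₂ ^ 2)) (hbig : ρ₁ ≤ 32 * d * |t₁|) :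
    |α| ≤ 70000 * Q * d * ρ₁ ^ 2 ∧ |β| ≤ 70000 * Q * d * (ρ₁ * ρ₂) ∧
      |γ| ≤ 70000 * Q * d * ρ₂ ^ 2 := by
  have hd0 : 0 < d := by linarith
  have hQd : 0 ≤ Q * d := by positivity
  rw [abs_mul] at ha
  have a1 : |α| ≤ 64 * (Q * d) * ρ₁ ^ 2 := by
    have h3 : |α| * ρ₁ ≤ |α| * (32 * d * |t₁|) := mul_le_mul_of_nonneg_left hbig (abs_nonneg _)
    have h4 : 32 * d * (|t₁| * |α|) ≤ 32 * d * (2 * Q * ρ₁ ^ 3) :=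
      mul_le_mul_of_nonneg_left ha (by positivity)
    have h5 : |α| * ρ₁ ≤ (64 * (Q * d) * ρ₁ ^ 2) * ρ₁ := by
      calc |α| * ρ₁ ≤ |α| * (32 * d * |t₁|) := h3
        _ = 32 * d * (|t₁| * |α|) := by ring
        _ ≤ 32 * d * (2 * Q * ρ₁ ^ 3) := h4
        _ = _ := by ring
    exact le_of_mul_le_mul_right h5 h1
  have a2 : |β| ≤ 2112 * (Q * d) * (ρ₁ * ρ₂) := by
    have h3 : |t₁ * β| ≤ 2 * Q * (ρ₁ ^ 2 * ρ₂) + |t₂| * |α| := by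
      have : t₁ * β = (t₁ * β + t₂ * α) - t₂ * α := by ring
      rw [this]
      refine (abs_sub _ _).trans ?_
      rw [abs_mul t₂ α]
      linarith
    rw [abs_mul] at h3
    have h4 : (d * |t₂|) * |α| ≤ ρ₂ * (64 * (Q * d) * ρ₁ ^ 2) := by gcongr
    have h5 : |β| * ρ₁ ≤ |β| * (32 * d * |t₁|) := mul_le_mul_of_nonneg_left hbig (abs_nonneg _)
    have h6 : 32 * d * (|t₁| * |β|) ≤ 32 * d * (2 * Q * (ρ₁ ^ 2 * ρ₂) + |t₂| * |α|) :=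
      mul_le_mul_of_nonneg_left h3 (by positivity)
    have h7 : |β| * ρ₁ ≤ (2112 * (Q * d) * (ρ₁ * ρ₂)) * ρ₁ := by
      calc |β| * ρ₁ ≤ |β| * (32 * d * |t₁|) := h5
        _ = 32 * d * (|t₁| * |β|) := by ring
        _ ≤ 32 * d * (2 * Q * (ρ₁ ^ 2 * ρ₂) + |t₂| * |α|) := h6
        _ = 64 * (Q * d) * (ρ₁ ^ 2 * ρ₂) + 32 * ((d * |t₂|) * |α|) := by ring
        _ ≤ 64 * (Q * d) * (ρ₁ ^ 2 * ρ₂) + 32 * (ρ₂ * (64 * (Q * d) * ρ₁ ^ 2)) := by linarith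
        _ = _ := by ring
    exact le_of_mul_le_mul_right h7 h1
  have a3 : |γ| ≤ 67648 * (Q * d) * ρ₂ ^ 2 := by
    have h3 : |t₁ * γ| ≤ 2 * Q * (ρ₁ * ρ₂ ^ 2) + |t₂| * |β| := by
      have : t₁ * γ = (t₁ * γ + t₂ * β) - t₂ * β := by ring
      rw [this]
      refine (abs_sub _ _).trans ?_
      rw [abs_mul t₂ β]
      linarith
    rw [abs_mul] at h3
    have h4 : (d * |t₂|) * |β| ≤ ρ₂ * (2112 * (Q * d) * (ρ₁ * ρ₂)) := by gcongr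
    have h5 : |γ| * ρ₁ ≤ |γ| * (32 * d * |t₁|) := mul_le_mul_of_nonneg_left hbig (abs_nonneg _)
    have h6 : 32 * d * (|t₁| * |γ|) ≤ 32 * d * (2 * Q * (ρ₁ * ρ₂ ^ 2) + |t₂| * |β|) :=
      mul_le_mul_of_nonneg_left h3 (by positivity)
    have h7 : |γ| * ρ₁ ≤ (67648 * (Q * d) * ρ₂ ^ 2) * ρ₁ := by
      calc |γ| * ρ₁ ≤ |γ| * (32 * d * |t₁|) := h5
        _ = 32 * d * (|t₁| * |γ|) := by ring
        _ ≤ 32 * d * (2 * Q * (ρ₁ * ρ₂ ^ 2) + |t₂| * |β|) := h6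
        _ = 64 * (Q * d) * (ρ₁ * ρ₂ ^ 2) + 32 * ((d * |t₂|) * |β|) := by ring
        _ ≤ 64 * (Q * d) * (ρ₁ * ρ₂ ^ 2) + 32 * (ρ₂ * (2112 * (Q * d) * (ρ₁ * ρ₂))) := by
            linarith
        _ = _ := by ring
    exact le_of_mul_le_mul_right h7 h1
  have p1 : 0 ≤ (Q * d) * ρ₁ ^ 2 := by positivity
  have p2 : 0 ≤ (Q * d) * (ρ₁ * ρ₂) := by positivity
  have p3 : 0 ≤ (Q * d) * ρ₂ ^ 2 := by positivity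
  refine ⟨?_, ?_, ?_⟩
  · refine a1.trans ?_
    nlinarith
  · refine a2.trans ?_
    nlinarith
  · refine a3.trans ?_
    nlinarith

/-- two forms with the same `(t₁, t₂)` differ by a multiple of the linear form -/
theorem quot (m q r h k s₁ s₂ t₁ t₂ r' h' k' s₁' s₂' : ℤ) (hm : q ∣ m) (hh : q ∣ h) (hk : q ∣ k)
    (hh' : q ∣ h') (hk' : q ∣ k') (det : s₁ * t₂ - s₂ * t₁ = 1) (det' : s₁' * t₂ - s₂' * t₁ = 1) :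
    ∃ α β γ : ℤ,
      fa m r h k s₁ t₁ - fa m r' h' k' s₁' t₁ = t₁ * α ∧
      3 * (fb m r h k s₁ t₁ s₂ t₂ - fb m r' h' k' s₁' t₁ s₂' t₂) = t₁ * β + t₂ * α ∧
      3 * (fb m r h k s₂ t₂ s₁ t₁ - fb m r' h' k' s₂' t₂ s₁' t₁) = t₁ * γ + t₂ * β ∧
      fa m r h k s₂ t₂ - fa m r' h' k' s₂' t₂ = t₂ * γ ∧
      q ∣ (β + 6 * r' * s₁' * s₂') ^ 2 - 4 * (α + 3 * r' * s₁' ^ 2) * (γ + 3 * r' * s₂' ^ 2) := by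
  obtain ⟨κ, e1, e2⟩ : ∃ κ : ℤ, s₁ = s₁' + κ * t₁ ∧ s₂ = s₂' + κ * t₂ := by
    refine ⟨s₁' * s₂ - s₁ * s₂', ?_, ?_⟩
    · linear_combination (-s₁) * det' + s₁' * det
    · linear_combination (-s₂) * det' + s₂' * det
  subst e1 e2
  refine ⟨m * κ * (3 * s₁' ^ 2 + 3 * κ * s₁' * t₁ + κ ^ 2 * t₁ ^ 2) +
      (3 * r * (s₁' + κ * t₁) ^ 2 + 3 * h * (s₁' + κ * t₁) * t₁ + k * t₁ ^ 2) -
      (3 * r' * s₁' ^ 2 + 3 * h' * s₁' * t₁ + k' * t₁ ^ 2),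
    m * κ * (6 * s₁' * s₂' + 3 * κ * (s₁' * t₂ + s₂' * t₁) + 2 * κ ^ 2 * t₁ * t₂) +
      (6 * r * (s₁' + κ * t₁) * (s₂' + κ * t₂) +
        3 * h * ((s₁' + κ * t₁) * t₂ + (s₂' + κ * t₂) * t₁) + 2 * k * t₁ * t₂) -
      (6 * r' * s₁' * s₂' + 3 * h' * (s₁' * t₂ + s₂' * t₁) + 2 * k' * t₁ * t₂),
    m * κ * (3 * s₂' ^ 2 + 3 * κ * s₂' * t₂ + κ ^ 2 * t₂ ^ 2) +
      (3 * r * (s₂' + κ * t₂) ^ 2 + 3 * h * (s₂' + κ * t₂) * t₂ + k * t₂ ^ 2) -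
      (3 * r' * s₂' ^ 2 + 3 * h' * s₂' * t₂ + k' * t₂ ^ 2), ?_, ?_, ?_, ?_, ?_⟩
  · unfold fa; ring
  · unfold fb; ring
  · unfold fb; ring
  · unfold fa; ring
  · obtain ⟨m', rfl⟩ := hm
    obtain ⟨h₁, rfl⟩ := hh
    obtain ⟨k₁, rfl⟩ := hk
    obtain ⟨h₂, rfl⟩ := hh'
    obtain ⟨k₂, rfl⟩ := hk'
    set S₁ := s₁' + κ * t₁ with hS₁
    set S₂ := s₂' + κ * t₂ with hS₂
    obtain ⟨x, hx⟩ : ∃ x : ℤ, x = m' * κ * (3 * s₁' ^ 2 + 3 * κ * s₁' * t₁ + κ ^ 2 * t₁ ^ 2) +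
      (3 * h₁ * S₁ * t₁ + k₁ * t₁ ^ 2) - (3 * h₂ * s₁' * t₁ + k₂ * t₁ ^ 2) := ⟨_, rfl⟩
    obtain ⟨y, hy⟩ : ∃ y : ℤ, y = m' * κ * (6 * s₁' * s₂' + 3 * κ * (s₁' * t₂ + s₂' * t₁) +
      2 * κ ^ 2 * t₁ * t₂) + (3 * h₁ * (S₁ * t₂ + S₂ * t₁) + 2 * k₁ * t₁ * t₂) -
      (3 * h₂ * (s₁' * t₂ + s₂' * t₁) + 2 * k₂ * t₁ * t₂) := ⟨_, rfl⟩
    obtain ⟨z, hz⟩ : ∃ z : ℤ, z = m' * κ * (3 * s₂' ^ 2 + 3 * κ * s₂' * t₂ + κ ^ 2 * t₂ ^ 2) +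
      (3 * h₁ * S₂ * t₂ + k₁ * t₂ ^ 2) - (3 * h₂ * s₂' * t₂ + k₂ * t₂ ^ 2) := ⟨_, rfl⟩
    have ex : q * m' * κ * (3 * s₁' ^ 2 + 3 * κ * s₁' * t₁ + κ ^ 2 * t₁ ^ 2) +
      (3 * r * S₁ ^ 2 + 3 * (q * h₁) * S₁ * t₁ + q * k₁ * t₁ ^ 2) -
      (3 * r' * s₁' ^ 2 + 3 * (q * h₂) * s₁' * t₁ + q * k₂ * t₁ ^ 2) + 3 * r' * s₁' ^ 2 =
      3 * r * S₁ ^ 2 + q * x := by
      rw [hx]; ring
    have ey : q * m' * κ * (6 * s₁' * s₂' + 3 * κ * (s₁' * t₂ + s₂' * t₁) +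
      2 * κ ^ 2 * t₁ * t₂) + (6 * r * S₁ * S₂ + 3 * (q * h₁) * (S₁ * t₂ + S₂ * t₁) +
        2 * (q * k₁) * t₁ * t₂) -
      (6 * r' * s₁' * s₂' + 3 * (q * h₂) * (s₁' * t₂ + s₂' * t₁) + 2 * (q * k₂) * t₁ * t₂) +
      6 * r' * s₁' * s₂' = 6 * r * S₁ * S₂ + q * y := by
      rw [hy]; ring
    have ez : q * m' * κ * (3 * s₂' ^ 2 + 3 * κ * s₂' * t₂ + κ ^ 2 * t₂ ^ 2) +
      (3 * r * S₂ ^ 2 + 3 * (q * h₁) * S₂ * t₂ + q * k₁ * t₂ ^ 2) -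
      (3 * r' * s₂' ^ 2 + 3 * (q * h₂) * s₂' * t₂ + q * k₂ * t₂ ^ 2) + 3 * r' * s₂' ^ 2 =
      3 * r * S₂ ^ 2 + q * z := by
      rw [hz]; ring
    rw [ex, ey, ez]
    exact ⟨y * (12 * r * S₁ * S₂ + q * y) - 4 * (3 * r * S₁ ^ 2 * z + 3 * r * S₂ ^ 2 * x +
      q * x * z), by ring⟩

/-- the number of forms with a given linear form -/
theorem fiber (Z d ρ₁ ρ₂ : ℝ) (m q : ℕ) (t₁ t₂ : ℤ) (hZ : 1 ≤ Z) (hd : 1 ≤ d)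
    (hdZ : d ^ 2 ≤ 6 * Z) (hm : 0 < m) (hq : Odd q) (hsq : Squarefree q) (hqm : q ∣ m)
    (hρ0 : 0 ≤ ρ₁) (hρ2 : 0 < ρ₂) (hρm : ρ₁ * ρ₂ ≤ 16 * m) (W : ℝ)
    (hW : W = 70000 * (90000 * (d * Z) / m ^ 2) * d) (F : Finset (ℤ × ℤ × ℤ × ℤ))
    (hF : ∀ x ∈ F, ∃ A B s₁ s₂ r h k : ℤ, Bas Z d m q A B ρ₁ ρ₂ s₁ t₁ s₂ t₂ r h k ∧
      x = (fa m r h k s₁ t₁, fb m r h k s₁ t₁ s₂ t₂, fb m r h k s₂ t₂ s₁ t₁,
        fa m r h k s₂ t₂)) :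
    (F.card : ℝ) ≤ (2 * (W * ρ₁ ^ 2) + 1) *
      (4 * (W * (ρ₁ * ρ₂)) * (W * ρ₂ ^ 2) / q + 2 * (W * (ρ₁ * ρ₂)) + 2 * (W * ρ₂ ^ 2) + 1) := by
  classical
  have hd0 : 0 < d := by linarith
  have hm' : (0 : ℝ) < m := by exact_mod_cast hm
  have hq0 : 0 < q := Nat.pos_of_ne_zero (fun h => by simp [h] at hq)
  have hq0' : (0 : ℝ) < q := by exact_mod_cast hq0
  have hW0 : 0 ≤ W := by rw [hW]; positivity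
  rcases F.eq_empty_or_nonempty with rfl | ⟨x₀, hx₀⟩
  · simp only [card_empty, Nat.cast_zero]
    positivity
  · obtain ⟨A₀, B₀, s₁', s₂', r', h', k', H₀, hx₀e⟩ := hF x₀ hx₀
    have hρ1 := H₀.rho1 hd
    have hρ1' : 0 < ρ₁ := by linarith
    have hbig := H₀.big hd
    have hcase : ρ₁ ≤ 32 * d * |(t₁ : ℝ)| ∨ ρ₂ ≤ 32 * d * |(t₂ : ℝ)| := by
      by_contra hcon
      push Not at hcon
      obtain ⟨c1, c2⟩ := hcon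
      have h1 : ρ₂ * (32 * d * |(t₁ : ℝ)|) < ρ₂ * ρ₁ := mul_lt_mul_of_pos_left c1 hρ2
      have h2 : ρ₁ * (32 * d * |(t₂ : ℝ)|) < ρ₁ * ρ₂ := mul_lt_mul_of_pos_left c2 hρ1'
      nlinarith
    set Q : ℝ := 90000 * (d * Z) / m ^ 2 with hQ
    have hQ0 : 0 ≤ Q := by positivity
    have hQ3 : ∀ y : ℝ, 3 * (30000 * (d * Z) * y / m ^ 2) = Q * y := by
      intro y
      rw [hQ]
      field_simp
      ring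
    -- bounds for the quotient
    have key : ∀ x ∈ F, ∃ v : ℤ × ℤ × ℤ,
        (x.1 - x₀.1 = t₁ * v.1 ∧ 3 * (x.2.1 - x₀.2.1) = t₁ * v.2.1 + t₂ * v.1 ∧
          3 * (x.2.2.1 - x₀.2.2.1) = t₁ * v.2.2 + t₂ * v.2.1 ∧
          x.2.2.2 - x₀.2.2.2 = t₂ * v.2.2) ∧
        (|(v.1 : ℝ)| ≤ W * ρ₁ ^ 2 ∧ |(v.2.1 : ℝ)| ≤ W * (ρ₁ * ρ₂) ∧
          |(v.2.2 : ℝ)| ≤ W * ρ₂ ^ 2 ∧
          (q : ℤ) ∣ (v.2.1 + 6 * r' * s₁' * s₂') ^ 2 -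
            4 * (v.1 + 3 * r' * s₁' ^ 2) * (v.2.2 + 3 * r' * s₂' ^ 2)) := by
      intro x hx
      obtain ⟨A, B, s₁, s₂, r, h, k, H, hxe⟩ := hF x hx
      obtain ⟨α, β, γ, e1, e2, e3, e4, e5⟩ := quot m q r h k s₁ s₂ t₁ t₂ r' h' k' s₁' s₂'
        (by exact_mod_cast hqm) H.hqh H.hqk H₀.hqh H₀.hqk H.det H₀.det
      refine ⟨(α, β, γ), ?_, ?_⟩
      · rw [hxe, hx₀e]
        exact ⟨e1, e2, e3, e4⟩
      · have f1 : (fa m r h k s₁ t₁ : ℝ) - fa m r' h' k' s₁' t₁ = t₁ * α := by exact_mod_cast e1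
        have f2 : 3 * ((fb m r h k s₁ t₁ s₂ t₂ : ℝ) - fb m r' h' k' s₁' t₁ s₂' t₂) =
          t₁ * β + t₂ * α := by exact_mod_cast e2
        have f3 : 3 * ((fb m r h k s₂ t₂ s₁ t₁ : ℝ) - fb m r' h' k' s₂' t₂ s₁' t₁) =
          t₁ * γ + t₂ * β := by exact_mod_cast e3
        have f4 : (fa m r h k s₂ t₂ : ℝ) - fa m r' h' k' s₂' t₂ = t₂ * γ := by exact_mod_cast e4
        have g1 : |(t₁ : ℝ) * α| ≤ 2 * Q * ρ₁ ^ 3 := by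
          rw [← f1]
          refine (abs_sub _ _).trans ?_
          have b1 := H.bound_a hZ hd hdZ hm
          have b2 := H₀.bound_a hZ hd hdZ hm
          have b3 := hQ3 (ρ₁ ^ 3)
          have b4 : 0 ≤ 30000 * (d * Z) * ρ₁ ^ 3 / (m : ℝ) ^ 2 := by positivity
          linarith
        have g2 : |(t₁ : ℝ) * β + t₂ * α| ≤ 2 * Q * (ρ₁ ^ 2 * ρ₂) := by
          rw [← f2, abs_mul, abs_of_pos (by norm_num : (0 : ℝ) < 3)]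
          have b0 := abs_sub (fb m r h k s₁ t₁ s₂ t₂ : ℝ) (fb m r' h' k' s₁' t₁ s₂' t₂ : ℝ)
          have b1 := H.bound_b hZ hd hdZ hm hρ2.le
          have b2 := H₀.bound_b hZ hd hdZ hm hρ2.le
          have b3 := hQ3 (ρ₁ ^ 2 * ρ₂)
          linarith
        have g3 : |(t₁ : ℝ) * γ + t₂ * β| ≤ 2 * Q * (ρ₁ * ρ₂ ^ 2) := by
          rw [← f3, abs_mul, abs_of_pos (by norm_num : (0 : ℝ) < 3)]
          have b0 := abs_sub (fb m r h k s₂ t₂ s₁ t₁ : ℝ) (fb m r' h' k' s₂' t₂ s₁' t₁ : ℝ)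
          have b1 := H.bound_c hZ hd hdZ hm hρ2.le
          have b2 := H₀.bound_c hZ hd hdZ hm hρ2.le
          have b3 := hQ3 (ρ₁ * ρ₂ ^ 2)
          linarith
        have g4 : |(t₂ : ℝ) * γ| ≤ 2 * Q * ρ₂ ^ 3 := by
          rw [← f4]
          refine (abs_sub _ _).trans ?_
          have b1 := H.bound_d hZ hd hdZ hm hρ2.le
          have b2 := H₀.bound_d hZ hd hdZ hm hρ2.le
          have b3 := hQ3 (ρ₂ ^ 3)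
          have b4 : 0 ≤ 30000 * (d * Z) * ρ₂ ^ 3 / (m : ℝ) ^ 2 := by positivity
          linarith
        obtain ⟨-, -, -, -, -, ht1, -, ht2⟩ := H.bd
        have goal : |(α : ℝ)| ≤ 70000 * Q * d * ρ₁ ^ 2 ∧ |(β : ℝ)| ≤ 70000 * Q * d * (ρ₁ * ρ₂) ∧
            |(γ : ℝ)| ≤ 70000 * Q * d * ρ₂ ^ 2 := by
          rcases hcase with hc | hc
          · exact abg_aux Q d ρ₁ ρ₂ t₁ t₂ α β γ hd hQ0 hρ1' hρ2 ht2 g1 g2 g3 hc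
          · obtain ⟨y1, y2, y3⟩ := abg_aux Q d ρ₂ ρ₁ t₂ t₁ γ β α hd hQ0 hρ2 hρ1' ht1 g4
              (by
                have : (t₂ : ℝ) * β + t₁ * γ = t₁ * γ + t₂ * β := by ring
                rw [this]
                refine g3.trans (le_of_eq ?_)
                ring)
              (by
                have : (t₂ : ℝ) * α + t₁ * β = t₁ * β + t₂ * α := by ring
                rw [this]
                refine g2.trans (le_of_eq ?_)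
                ring) hc
            refine ⟨y3, ?_, y1⟩
            rw [mul_comm ρ₁ ρ₂]
            exact y2
        refine ⟨?_, ?_, ?_, e5⟩
        · rw [hW]; exact goal.1
        · rw [hW]; exact goal.2.1
        · rw [hW]; exact goal.2.2
    choose! v hv1 hv2 using key
    have ht1 : t₁ ≠ 0 := H₀.ht
    have hinj : Set.InjOn v (F : Set (ℤ × ℤ × ℤ × ℤ)) := by
      intro x hx y hy hxy
      obtain ⟨a1, a2, a3, a4⟩ := hv1 x hx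
      obtain ⟨b1, b2, b3, b4⟩ := hv1 y hy
      rw [hxy] at a1 a2 a3 a4
      refine Prod.ext ?_ (Prod.ext ?_ (Prod.ext ?_ ?_))
      · linarith
      · show x.2.1 = y.2.1
        linarith
      · show x.2.2.1 = y.2.2.1
        linarith
      · show x.2.2.2 = y.2.2.2
        linarith
    rw [← card_image_of_injOn hinj]
    refine card_quad q hq hsq (3 * r' * s₁' ^ 2) (6 * r' * s₁' * s₂') (3 * r' * s₂' ^ 2)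
      (W * ρ₁ ^ 2) (W * (ρ₁ * ρ₂)) (W * ρ₂ ^ 2) (by positivity) (by positivity) (by positivity)
      (F.image v) ?_
    intro w hw
    obtain ⟨x, hx, rfl⟩ := mem_image.1 hw
    exact hv2 x hx

/-- the numerical inequality behind `countC` -/
theorem num_aux (Z d ρ₁ ρ₂ m q W : ℝ) (hZ : 1 ≤ Z) (hd : 1 ≤ d) (hm : 0 < m)
    (hmd : m ≤ d ^ 2 * Z) (hq : 1 ≤ q) (hρ1 : 0 < ρ₁) (hρ : ρ₁ ≤ ρ₂) (hρm : ρ₁ * ρ₂ ≤ 16 * m)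
    (hW : W = 6300000000 * (d ^ 2 * Z) / m ^ 2) :
    18 * (ρ₁ ^ 2 / d ^ 2) * ((2 * (W * ρ₁ ^ 2) + 1) *
      (4 * (W * (ρ₁ * ρ₂)) * (W * ρ₂ ^ 2) / q + 2 * (W * (ρ₁ * ρ₂)) + 2 * (W * ρ₂ ^ 2) + 1)) ≤
      10 ^ 38 * (d ^ 4 * Z ^ 3 / (m ^ 2 * q) + d ^ 2 * Z ^ 2 / m) := by
  have hd0 : 0 < d := by linarith
  have hZ0 : 0 < Z := by linarith
  have hρ2 : 0 < ρ₂ := by linarith
  have hq0 : 0 < q := by linarith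
  have hW0 : 0 < W := by rw [hW]; positivity
  set P : ℝ := ρ₁ * ρ₂ with hP
  have hP0 : 0 < P := by positivity
  have hPs : ρ₁ ^ 2 ≤ P := by rw [hP, sq]; exact mul_le_mul_of_nonneg_left hρ hρ1.le
  -- expand
  have E : ρ₁ ^ 2 * ((2 * (W * ρ₁ ^ 2) + 1) *
      (4 * (W * P) * (W * ρ₂ ^ 2) / q + 2 * (W * P) + 2 * (W * ρ₂ ^ 2) + 1)) ≤
      8 * W ^ 3 * P ^ 4 / q + 12 * W ^ 2 * P ^ 3 + 6 * W * P ^ 2 + P := by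
    have e0 : ρ₁ ^ 2 * ρ₂ ^ 2 = P ^ 2 := by rw [hP]; ring
    have e1 : ρ₁ ^ 2 * ((2 * (W * ρ₁ ^ 2) + 1) *
      (4 * (W * P) * (W * ρ₂ ^ 2) / q + 2 * (W * P) + 2 * (W * ρ₂ ^ 2) + 1)) =
      8 * W ^ 3 * P / q * (ρ₁ ^ 2 * (ρ₁ ^ 2 * ρ₂ ^ 2)) +
      4 * W ^ 2 * P * (ρ₁ ^ 2 * ρ₁ ^ 2) + 4 * W ^ 2 * (ρ₁ ^ 2 * (ρ₁ ^ 2 * ρ₂ ^ 2)) +
      2 * W * (ρ₁ ^ 2 * ρ₁ ^ 2) + 4 * W ^ 2 * P / q * (ρ₁ ^ 2 * ρ₂ ^ 2) +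
      2 * W * P * ρ₁ ^ 2 + 2 * W * (ρ₁ ^ 2 * ρ₂ ^ 2) + ρ₁ ^ 2 := by
      field_simp
      ring
    rw [e1, e0]
    have f1 : ρ₁ ^ 2 * P ^ 2 ≤ P ^ 3 := by
      calc ρ₁ ^ 2 * P ^ 2 ≤ P * P ^ 2 := by gcongr
        _ = P ^ 3 := by ring
    have f2 : ρ₁ ^ 2 * ρ₁ ^ 2 ≤ P ^ 2 := by
      calc ρ₁ ^ 2 * ρ₁ ^ 2 ≤ P * P := by gcongr
        _ = P ^ 2 := by ring
    have g1 : 8 * W ^ 3 * P / q * (ρ₁ ^ 2 * P ^ 2) ≤ 8 * W ^ 3 * P / q * P ^ 3 := by gcongr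
    have g2 : 4 * W ^ 2 * P * (ρ₁ ^ 2 * ρ₁ ^ 2) ≤ 4 * W ^ 2 * P * P ^ 2 := by gcongr
    have g3 : 4 * W ^ 2 * (ρ₁ ^ 2 * P ^ 2) ≤ 4 * W ^ 2 * P ^ 3 := by gcongr
    have g4 : 2 * W * (ρ₁ ^ 2 * ρ₁ ^ 2) ≤ 2 * W * P ^ 2 := by gcongr
    have g5 : 4 * W ^ 2 * P / q * P ^ 2 ≤ 4 * W ^ 2 * P * P ^ 2 := by
      have : 4 * W ^ 2 * P / q ≤ 4 * W ^ 2 * P := div_le_self (by positivity) hq
      gcongr
    have g6 : 2 * W * P * ρ₁ ^ 2 ≤ 2 * W * P * P := by gcongr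
    have h1 : 8 * W ^ 3 * P / q * P ^ 3 = 8 * W ^ 3 * P ^ 4 / q := by ring
    have h2 : 4 * W ^ 2 * P * P ^ 2 = 4 * W ^ 2 * P ^ 3 := by ring
    have h3 : 2 * W * P * P = 2 * W * P ^ 2 := by ring
    linarith
  have F1 : 8 * W ^ 3 * P ^ 4 / q / d ^ 2 ≤
      8 * 6300000000 ^ 3 * 16 ^ 4 * (d ^ 4 * Z ^ 3 / (m ^ 2 * q)) := by
    calc 8 * W ^ 3 * P ^ 4 / q / d ^ 2 ≤ 8 * W ^ 3 * (16 * m) ^ 4 / q / d ^ 2 := by gcongr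
      _ = _ := by
        rw [hW]
        field_simp
  have F2 : 12 * W ^ 2 * P ^ 3 / d ^ 2 ≤
      12 * 6300000000 ^ 2 * 16 ^ 3 * (d ^ 2 * Z ^ 2 / m) := by
    calc 12 * W ^ 2 * P ^ 3 / d ^ 2 ≤ 12 * W ^ 2 * (16 * m) ^ 3 / d ^ 2 := by gcongr
      _ = _ := by
        rw [hW]
        field_simp
  have hZm : Z ≤ d ^ 2 * Z ^ 2 / m := by
    rw [le_div_iff₀ hm]
    calc Z * m ≤ Z * (d ^ 2 * Z) := by gcongr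
      _ = _ := by ring
  have F3 : 6 * W * P ^ 2 / d ^ 2 ≤ 6 * 6300000000 * 16 ^ 2 * (d ^ 2 * Z ^ 2 / m) := by
    calc 6 * W * P ^ 2 / d ^ 2 ≤ 6 * W * (16 * m) ^ 2 / d ^ 2 := by gcongr
      _ = 6 * 6300000000 * 16 ^ 2 * Z := by
        rw [hW]
        field_simp
      _ ≤ _ := by gcongr
  have F4 : P / d ^ 2 ≤ 16 * (d ^ 2 * Z ^ 2 / m) := by
    calc P / d ^ 2 ≤ 16 * m / d ^ 2 := by gcongr
      _ ≤ 16 * Z := by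
        rw [div_le_iff₀ (by positivity)]
        nlinarith
      _ ≤ _ := by gcongr
  have hfin : 18 * (ρ₁ ^ 2 / d ^ 2) * ((2 * (W * ρ₁ ^ 2) + 1) *
      (4 * (W * P) * (W * ρ₂ ^ 2) / q + 2 * (W * P) + 2 * (W * ρ₂ ^ 2) + 1)) ≤
      18 * (8 * W ^ 3 * P ^ 4 / q / d ^ 2 + 12 * W ^ 2 * P ^ 3 / d ^ 2 + 6 * W * P ^ 2 / d ^ 2 +
        P / d ^ 2) := by
    calc 18 * (ρ₁ ^ 2 / d ^ 2) * ((2 * (W * ρ₁ ^ 2) + 1) *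
      (4 * (W * P) * (W * ρ₂ ^ 2) / q + 2 * (W * P) + 2 * (W * ρ₂ ^ 2) + 1)) =
      18 * (ρ₁ ^ 2 * ((2 * (W * ρ₁ ^ 2) + 1) *
      (4 * (W * P) * (W * ρ₂ ^ 2) / q + 2 * (W * P) + 2 * (W * ρ₂ ^ 2) + 1))) / d ^ 2 := by ring
      _ ≤ 18 * (8 * W ^ 3 * P ^ 4 / q + 12 * W ^ 2 * P ^ 3 + 6 * W * P ^ 2 + P) / d ^ 2 := by
        gcongr
      _ = _ := by ring
  refine hfin.trans ?_
  have X1 : 0 ≤ d ^ 4 * Z ^ 3 / (m ^ 2 * q) := by positivity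
  have X2 : 0 ≤ d ^ 2 * Z ^ 2 / m := by positivity
  have N : 18 * (8 * W ^ 3 * P ^ 4 / q / d ^ 2 + 12 * W ^ 2 * P ^ 3 / d ^ 2 +
      6 * W * P ^ 2 / d ^ 2 + P / d ^ 2) ≤
      18 * (8 * 6300000000 ^ 3 * 16 ^ 4 * (d ^ 4 * Z ^ 3 / (m ^ 2 * q)) +
      12 * 6300000000 ^ 2 * 16 ^ 3 * (d ^ 2 * Z ^ 2 / m) +
      6 * 6300000000 * 16 ^ 2 * (d ^ 2 * Z ^ 2 / m) + 16 * (d ^ 2 * Z ^ 2 / m)) := by
    linarith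
  refine N.trans ?_
  nlinarith

end Pool.Agent.T2H27.Szp
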