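import Mathlib
import Pool.Agent.T2H27.PartC

/-!
# Counting pairs with a fixed modulus
-/

set_option autoImplicit false

namespace Pool.Agent.T2H27.Szp

open Finset

/-- the tuples which come from a basis -/
noncomputable def TT (Z d : ℝ) (m q : ℕ) (ρ₁ ρ₂ : ℝ) : Finset (ℤ × ℤ × ℤ × ℤ × ℤ × ℤ) := by
  classical
  exact (Box d (30000 * (d * Z) / m ^ 2) ρ₁ ρ₂).filter (fun x =>
    ∃ A B s₁ s₂ r h k : ℤ, Bas Z d m q A B ρ₁ ρ₂ s₁ x.1 s₂ x.2.1 r h k ∧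
      x.2.2 = (fa m r h k s₁ x.1, fb m r h k s₁ x.1 s₂ x.2.1, fb m r h k s₂ x.2.1 s₁ x.1,
        fa m r h k s₂ x.2.1))

theorem card_TT (Z d ρ₁ ρ₂ : ℝ) (m q : ℕ) (hZ : 1 ≤ Z) (hd : 1 ≤ d)
    (hdZ : d ^ 2 ≤ 6 * Z) (hm : 0 < m) (hq : Odd q) (hsq : Squarefree q) (hqm : q ∣ m)
    (hρ0 : d ≤ ρ₁) (hρ : ρ₁ ≤ ρ₂) (hρm : ρ₁ * ρ₂ ≤ 16 * m) (W : ℝ)
    (hW : W = 6300000000 * (d ^ 2 * Z) / m ^ 2) :
    ((TT Z d m q ρ₁ ρ₂).card : ℝ) ≤ 9 * (ρ₁ * ρ₂ / d ^ 2) * ((2 * (W * ρ₁ ^ 2) + 1) *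
      (4 * (W * (ρ₁ * ρ₂)) * (W * ρ₂ ^ 2) / q + 2 * (W * (ρ₁ * ρ₂)) + 2 * (W * ρ₂ ^ 2) + 1)) := by
  classical
  have hd0 : 0 < d := by linarith
  have hρ1 : 0 < ρ₁ := by linarith
  have hρ2 : 0 < ρ₂ := by linarith
  have hm' : (0 : ℝ) < m := by exact_mod_cast hm
  have hq0 : 0 < q := Nat.pos_of_ne_zero (fun h => by simp [h] at hq)
  have hq0' : (0 : ℝ) < q := by exact_mod_cast hq0
  have hW0 : 0 ≤ W := by rw [hW]; positivity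
  set Fb : ℝ := (2 * (W * ρ₁ ^ 2) + 1) *
      (4 * (W * (ρ₁ * ρ₂)) * (W * ρ₂ ^ 2) / q + 2 * (W * (ρ₁ * ρ₂)) + 2 * (W * ρ₂ ^ 2) + 1)
    with hFb
  have hFb0 : 0 ≤ Fb := by positivity
  have hW' : W = 70000 * (90000 * (d * Z) / m ^ 2) * d := by
    rw [hW]; field_simp; ring
  set f : ℤ × ℤ × ℤ × ℤ × ℤ × ℤ → ℤ × ℤ := fun x => (x.1, x.2.1) with hf
  have hmaps : ∀ x ∈ TT Z d m q ρ₁ ρ₂, f x ∈ I (ρ₁ / d) ×ˢ I (ρ₂ / d) := by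
    intro x hx
    unfold TT at hx
    have h1 := (mem_filter.1 hx).1
    unfold Box at h1
    simp only [mem_product] at h1
    exact mem_product.2 ⟨h1.1, h1.2.1⟩
  have hfib : ∀ b ∈ I (ρ₁ / d) ×ˢ I (ρ₂ / d),
      (((TT Z d m q ρ₁ ρ₂).filter (fun x => f x = b)).card : ℝ) ≤ Fb := by
    rintro ⟨t₁, t₂⟩ -
    have e1 : ((TT Z d m q ρ₁ ρ₂).filter (fun x => f x = (t₁, t₂))).card =
        (((TT Z d m q ρ₁ ρ₂).filter (fun x => f x = (t₁, t₂))).image (fun x => x.2.2)).card := by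
      rw [card_image_of_injOn]
      intro x hx y hy hxy
      have h1 := (mem_filter.1 (mem_coe.1 hx)).2
      have h2 := (mem_filter.1 (mem_coe.1 hy)).2
      have h3 : (x.1, x.2.1) = (y.1, y.2.1) := h1.trans h2.symm
      have h4 : x.1 = y.1 := (Prod.mk.inj h3).1
      have h5 : x.2.1 = y.2.1 := (Prod.mk.inj h3).2
      exact Prod.ext h4 (Prod.ext h5 hxy)
    rw [e1]
    refine fiber Z d ρ₁ ρ₂ m q t₁ t₂ hZ hd hdZ hm hq hsq hqm hρ1.le hρ2 hρm W hW' _ ?_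
    intro y hy
    obtain ⟨x, hx, rfl⟩ := mem_image.1 hy
    obtain ⟨hx1, hx2⟩ := mem_filter.1 hx
    unfold TT at hx1
    obtain ⟨-, A, B, s₁, s₂, r, h, k, H, he⟩ := mem_filter.1 hx1
    have hx2' : (x.1, x.2.1) = (t₁, t₂) := hx2
    have h4 : x.1 = t₁ := (Prod.mk.inj hx2').1
    have h5 : x.2.1 = t₂ := (Prod.mk.inj hx2').2
    rw [h4, h5] at H he
    exact ⟨A, B, s₁, s₂, r, h, k, H, he⟩
  have hsum : ((TT Z d m q ρ₁ ρ₂).card : ℝ) = ∑ b ∈ I (ρ₁ / d) ×ˢ I (ρ₂ / d),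
      (((TT Z d m q ρ₁ ρ₂).filter (fun x => f x = b)).card : ℝ) := by
    rw [← Nat.cast_sum]
    congr 1
    exact card_eq_sum_card_fiberwise hmaps
  rw [hsum]
  have hI : (((I (ρ₁ / d) ×ˢ I (ρ₂ / d)).card : ℕ) : ℝ) ≤ 9 * (ρ₁ * ρ₂ / d ^ 2) := by
    rw [card_product]
    push_cast
    have c1 := card_I' (ρ₁ / d) (by rw [le_div_iff₀ hd0]; linarith)
    have c2 := card_I' (ρ₂ / d) (by rw [le_div_iff₀ hd0]; linarith)
    calc ((I (ρ₁ / d)).card : ℝ) * (I (ρ₂ / d)).card ≤ (3 * (ρ₁ / d)) * (3 * (ρ₂ / d)) := by gcongr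
      _ = _ := by field_simp; ring
  calc ∑ b ∈ I (ρ₁ / d) ×ˢ I (ρ₂ / d),
      (((TT Z d m q ρ₁ ρ₂).filter (fun x => f x = b)).card : ℝ)
      ≤ ∑ b ∈ I (ρ₁ / d) ×ˢ I (ρ₂ / d), Fb := sum_le_sum hfib
    _ = (((I (ρ₁ / d) ×ˢ I (ρ₂ / d)).card : ℕ) : ℝ) * Fb := by rw [sum_const, nsmul_eq_mul]
    _ ≤ _ := mul_le_mul_of_nonneg_right hI hFb0

/-- **The main estimate for a fixed modulus.** -/
theorem countC (Z d : ℝ) (m q : ℕ) (hZ : 1 ≤ Z) (hd : 1 ≤ d)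
    (hdZ : d ^ 2 ≤ 6 * Z) (hm : 0 < m) (hmd : (m : ℝ) ≤ d ^ 2 * Z) (hq : Odd q)
    (hsq : Squarefree q) (hqm : q ∣ m) (i j : ℕ) (hij : i ≤ j) (hijm : (2 : ℝ) ^ (i + j) ≤ 2 * m)
    (S : Finset (ℤ × ℤ))
    (hS : ∀ x ∈ S, ∃ s₁ t₁ s₂ t₂ r h k : ℤ,
      Bas Z d m q x.1 x.2 (2 ^ (i + 1)) (2 ^ (j + 1)) s₁ t₁ s₂ t₂ r h k) :
    (S.card : ℝ) ≤ 10 ^ 38 * (d ^ 4 * Z ^ 3 / (m ^ 2 * q) + d ^ 2 * Z ^ 2 / m) := by
  classical
  have hd0 : 0 < d := by linarith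
  have hm' : (0 : ℝ) < m := by exact_mod_cast hm
  have hq0 : 0 < q := Nat.pos_of_ne_zero (fun h => by simp [h] at hq)
  have hq0' : (0 : ℝ) < q := by exact_mod_cast hq0
  have hq1' : (1 : ℝ) ≤ q := by exact_mod_cast hq0
  rcases S.eq_empty_or_nonempty with rfl | ⟨x₀, hx₀⟩
  · simp only [card_empty, Nat.cast_zero]
    positivity
  · have hρd : d ≤ 2 ^ (i + 1) := by
      obtain ⟨s₁, t₁, s₂, t₂, r, h, k, H⟩ := hS x₀ hx₀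
      exact H.rho1 hd
    set ρ₁ : ℝ := 2 ^ (i + 1) with hρ₁
    set ρ₂ : ℝ := 2 ^ (j + 2) with hρ₂
    have hρ1 : 0 < ρ₁ := by positivity
    have hρ12 : ρ₁ ≤ ρ₂ := by
      rw [hρ₁, hρ₂]
      exact pow_le_pow_right₀ (by norm_num) (by omega)
    have hρm : ρ₁ * ρ₂ ≤ 16 * m := by
      have : ρ₁ * ρ₂ = 8 * 2 ^ (i + j) := by
        rw [hρ₁, hρ₂, pow_add, pow_add, pow_add]
        ring
      rw [this]
      linarith
    choose! s₁ t₁ s₂ t₂ r h k H using hS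
    set W : ℝ := 6300000000 * (d ^ 2 * Z) / m ^ 2 with hW
    have hTT := card_TT Z d ρ₁ ρ₂ m q hZ hd hdZ hm hq hsq hqm hρd hρ12 hρm W hW
    -- the shifted bases
    have hsh : ∀ x ∈ S, ∀ κ ∈ range (2 ^ (j - i)), Bas Z d m q x.1 x.2 ρ₁ ρ₂ (s₁ x) (t₁ x)
        (s₂ x + (κ : ℕ) * s₁ x) (t₂ x + (κ : ℕ) * t₁ x) (r x) (h x) (k x) := by
      intro x hx κ hκ
      refine ((H x hx).shift hd κ).mono hd le_rfl ?_
      have h1 : (κ : ℝ) ≤ 2 ^ (j - i) := by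
        have := (mem_range.1 hκ).le
        exact_mod_cast this
      have h2 : (2 : ℝ) ^ (j - i) * ρ₁ = 2 ^ (j + 1) := by
        rw [hρ₁, ← pow_add]
        congr 1
        omega
      have h3 : (κ : ℝ) * ρ₁ ≤ 2 ^ (j - i) * ρ₁ := mul_le_mul_of_nonneg_right h1 hρ1.le
      have h4 : ρ₂ = 2 * 2 ^ (j + 1) := by
        rw [hρ₂]; ring
      rw [h4]
      linarith
    have hcard : (S ×ˢ range (2 ^ (j - i))).card ≤ (TT Z d m q ρ₁ ρ₂).card := by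
      refine card_le_card_of_injOn
        (fun y => tup m (r y.1) (h y.1) (k y.1) (s₁ y.1) (t₁ y.1)
          (s₂ y.1 + (y.2 : ℕ) * s₁ y.1) (t₂ y.1 + (y.2 : ℕ) * t₁ y.1)) ?_ ?_
      · rintro ⟨x, κ⟩ hy
        obtain ⟨hx, hκ⟩ := mem_product.1 (mem_coe.1 hy)
        have HH := hsh x hx κ hκ
        unfold TT
        rw [mem_coe, mem_filter]
        refine ⟨tup_mem_box HH hZ hd hdZ (by positivity) hm' le_rfl, x.1, x.2, s₁ x,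
          s₂ x + (κ : ℕ) * s₁ x, r x, h x, k x, HH, rfl⟩
      · rintro ⟨x, κ⟩ hy ⟨x', κ'⟩ hy' hxy
        obtain ⟨hx, hκ⟩ := mem_product.1 (mem_coe.1 hy)
        obtain ⟨hx', hκ'⟩ := mem_product.1 (mem_coe.1 hy')
        have e1 := untup_tup (hsh x hx κ hκ)
        have e2 := untup_tup (hsh x' hx' κ' hκ')
        simp only at hxy
        rw [hxy, e2] at e1
        have hxx : x' = x := Prod.ext (congrArg Prod.fst e1) (congrArg Prod.snd e1)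
        subst hxx
        have e3 : t₂ x' + (κ : ℕ) * t₁ x' = t₂ x' + (κ' : ℕ) * t₁ x' :=
          congrArg (fun z => z.2.1) hxy
        have ht : t₁ x' ≠ 0 := (H x' hx).ht
        have e4 : ((κ : ℕ) : ℤ) = (κ' : ℕ) := by
          have : ((κ : ℕ) : ℤ) * t₁ x' = (κ' : ℕ) * t₁ x' := by linarith
          exact mul_right_cancel₀ ht this
        have e5 : κ = κ' := by exact_mod_cast e4
        rw [e5]
    rw [card_product, card_range] at hcard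
    have hcard' : (S.card : ℝ) * 2 ^ (j - i) ≤ ((TT Z d m q ρ₁ ρ₂).card : ℝ) := by
      exact_mod_cast hcard
    have hnum := num_aux Z d ρ₁ ρ₂ m q W hZ hd hm' hmd hq1' hρ1 hρ12 hρm hW
    refine le_trans ?_ hnum
    set Fb : ℝ := (2 * (W * ρ₁ ^ 2) + 1) *
      (4 * (W * (ρ₁ * ρ₂)) * (W * ρ₂ ^ 2) / q + 2 * (W * (ρ₁ * ρ₂)) + 2 * (W * ρ₂ ^ 2) + 1)
    have h2 : (2 : ℝ) ^ (j - i) * (2 * ρ₁) = ρ₂ := by
      rw [hρ₁, hρ₂, ← pow_succ', ← pow_add]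
      congr 1
      omega
    have h3 : (S.card : ℝ) * 2 ^ (j - i) ≤ 9 * (ρ₁ * ρ₂ / d ^ 2) * Fb := hcard'.trans hTT
    have h4 : 0 < (2 : ℝ) ^ (j - i) := by positivity
    have h5 : 18 * (ρ₁ ^ 2 / d ^ 2) * Fb * 2 ^ (j - i) = 9 * (ρ₁ * ρ₂ / d ^ 2) * Fb := by
      rw [← h2]
      ring
    rw [← h5] at h3
    exact le_of_mul_le_mul_right h3 h4

end Pool.Agent.T2H27.Szp
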