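import Mathlib
import Pool.Agent.T2H27.PartD
import Pool.Agent.H328R2.ABC.RadSum
import Pool.Agent.H328R2.ABC.Roots

/-!
# The powerful part of a number and the double root
-/

set_option autoImplicit false

namespace Pool.Agent.T2H27.Szp

open Finset Pool.Agent.H328R2.ABC

/-- `P` is powerful -/
def Pwf (P : ℕ) : Prop := ∀ p : ℕ, p.Prime → p ∣ P → p ^ 2 ∣ P

theorem rad_mul_cop {m n : ℕ} (h : Nat.Coprime m n) : rad (m * n) = rad m * rad n :=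
  RadSumAux.rad_mul_cop h

theorem rad_pos (n : ℕ) : 0 < rad n :=
  Finset.prod_pos fun _ hp => (Nat.prime_of_mem_primeFactors hp).pos

theorem rad_dvd (n : ℕ) : rad n ∣ n := Nat.prod_primeFactors_dvd n

theorem rad_squarefree {n : ℕ} (h : Squarefree n) : rad n = n :=
  Nat.prod_primeFactors_of_squarefree h

theorem rad_dvd_of {n m : ℕ} (hm : ∀ p : ℕ, p.Prime → p ∣ n → p ∣ m) : rad n ∣ m := by
  unfold rad
  refine Finset.prod_primes_dvd m (fun p hp => (Nat.prime_of_mem_primeFactors hp).prime) ?_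
  intro p hp
  exact hm p (Nat.prime_of_mem_primeFactors hp) (Nat.dvd_of_mem_primeFactors hp)

theorem powerful_split (n : ℕ) (hn : n ≠ 0) :
    ∃ P N : ℕ, n = P * N ∧ Nat.Coprime P N ∧ Squarefree N ∧ Pwf P := by
  revert hn
  induction n using Nat.recOnPosPrimePosCoprime with
  | zero => exact fun h => absurd rfl h
  | one => exact fun _ => ⟨1, 1, rfl, Nat.coprime_one_left 1, squarefree_one, fun p hp h =>
      absurd (Nat.dvd_one.1 h) hp.one_lt.ne'⟩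
  | prime_pow p k hp hk =>
    intro _
    rcases Nat.lt_or_ge 1 k with h1 | h1
    · refine ⟨p ^ k, 1, by ring, Nat.coprime_one_right _, squarefree_one, ?_⟩
      intro q hq hqp
      have : q = p := (Nat.prime_dvd_prime_iff_eq hq hp).1 (hq.dvd_of_dvd_pow hqp)
      subst this
      exact pow_dvd_pow _ h1
    · have : k = 1 := by omega
      subst this
      refine ⟨1, p ^ 1, by ring, Nat.coprime_one_left _, ?_, fun q hq h =>
        absurd (Nat.dvd_one.1 h) hq.one_lt.ne'⟩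
      rw [pow_one]
      exact hp.prime.squarefree
  | coprime a b ha hb hab iha ihb =>
    intro _
    obtain ⟨P, N, e1, c1, s1, p1⟩ := iha (by omega)
    obtain ⟨Q, M, e2, c2, s2, p2⟩ := ihb (by omega)
    have hPQ : Nat.Coprime (P * N) (Q * M) := by rw [← e1, ← e2]; exact hab
    have h1 : Nat.Coprime P M := (hPQ.coprime_dvd_left (dvd_mul_right P N)).coprime_dvd_right
      (dvd_mul_left M Q)
    have h2 : Nat.Coprime Q N := ((hPQ.coprime_dvd_left (dvd_mul_left N P)).coprime_dvd_right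
      (dvd_mul_right Q M)).symm
    have h3 : Nat.Coprime N M := (hPQ.coprime_dvd_left (dvd_mul_left N P)).coprime_dvd_right
      (dvd_mul_left M Q)
    refine ⟨P * Q, N * M, by rw [e1, e2]; ring, ?_, ?_, ?_⟩
    · exact Nat.Coprime.mul_left (Nat.Coprime.mul_right c1 h1) (Nat.Coprime.mul_right h2 c2)
    · exact (Nat.squarefree_mul h3).2 ⟨s1, s2⟩
    · intro p hp hpd
      rcases hp.dvd_mul.1 hpd with h | h
      · exact Dvd.dvd.mul_right (p1 p hp h) _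
      · exact Dvd.dvd.mul_left (p2 p hp h) _

/-- the modulus of a powerful number -/
theorem powerful_mq (P : ℕ) (hP : 0 < P) (h : Pwf P) :
    ∃ m q : ℕ, Odd q ∧ Squarefree q ∧ q ∣ m ∧ m ^ 2 * q ∣ P ∧ P ≤ 2 * (m ^ 2 * q) ∧
      rad P ∣ m ∧ 0 < m := by
  obtain ⟨a, b, hab, ha⟩ := Nat.sq_mul_squarefree P
  have hb0 : 0 < b := by
    rcases Nat.eq_zero_or_pos b with h0 | h0
    · rw [h0] at hab; simp at hab; omega
    · exact h0
  have ha0 : 0 < a := Nat.pos_of_ne_zero (fun h0 => by rw [h0] at hab; simp at hab; omega)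
  have key : ∀ p : ℕ, p.Prime → p ∣ P → p ∣ b := by
    intro p hp hpP
    by_contra hpb
    have h2 : p ^ 2 ∣ b ^ 2 * a := by rw [hab]; exact h p hp hpP
    have h3 : Nat.Coprime (p ^ 2) (b ^ 2) :=
      Nat.Coprime.pow 2 2 ((Nat.Prime.coprime_iff_not_dvd hp).2 hpb)
    have h4 : p ^ 2 ∣ a := h3.dvd_of_dvd_mul_left h2
    have h5 : p * p ∣ a := by rw [← sq]; exact h4
    have := ha p h5
    exact hp.one_lt.ne' (Nat.isUnit_iff.1 this)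
  have hdvd : a ∣ b := by
    have h1 : rad a ∣ b := rad_dvd_of (fun p hp hpa => key p hp (by
      rw [← hab]; exact Dvd.dvd.mul_left hpa _))
    rwa [rad_squarefree ha] at h1
  rcases Nat.even_or_odd a with he | ho
  · obtain ⟨c, hc⟩ := he.two_dvd
    have hcs : Squarefree c := ha.squarefree_of_dvd ⟨2, by rw [hc]; ring⟩
    have hco : Odd c := by
      rw [← Nat.not_even_iff_odd]
      intro hce
      obtain ⟨e, he'⟩ := hce.two_dvd
      have h5 : 2 * 2 ∣ a := ⟨e, by rw [hc, he']; ring⟩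
      have := ha 2 h5
      exact absurd (Nat.isUnit_iff.1 this) (by norm_num)
    refine ⟨b, c, hco, hcs, dvd_trans ⟨2, by rw [hc]; ring⟩ hdvd, ⟨2, by rw [← hab, hc]; ring⟩,
      le_of_eq (by rw [← hab, hc]; ring), rad_dvd_of key, hb0⟩
  · refine ⟨b, a, ho, ha, hdvd, ⟨1, by rw [← hab]; ring⟩, ?_, rad_dvd_of key, hb0⟩
    rw [← hab]
    have : 0 ≤ b ^ 2 * a := Nat.zero_le _
    omega

/-- the double root -/
theorem root_data (A B : ℤ) (P m q : ℕ) (hA : IsCoprime A P) (hP : (P : ℤ) ∣ A ^ 3 - B ^ 2)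
    (hmq : m ^ 2 * q ∣ P) : ∃ r h k : ℤ, A = r ^ 2 - m * h ∧
      2 * B = m ^ 2 * k + 2 * r ^ 3 - 3 * m * r * h ∧ (q : ℤ) ∣ h ∧ (q : ℤ) ∣ k := by
  obtain ⟨u, v, huv⟩ := hA
  set r : ℤ := u * B with hr
  have h1 : (P : ℤ) ∣ r * A - B := ⟨-v * B, by rw [hr]; linear_combination B * huv⟩
  have h2 : (P : ℤ) ∣ A ^ 2 * (r ^ 2 - A) := by
    have e : A ^ 2 * (r ^ 2 - A) = (r * A - B) * (r * A + B) - (A ^ 3 - B ^ 2) := by ring
    rw [e]
    exact dvd_sub (Dvd.dvd.mul_right h1 _) hP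
  have hcop : IsCoprime (P : ℤ) (A ^ 2) := (IsCoprime.pow_left (m := 2) ⟨u, v, huv⟩).symm
  obtain ⟨x, hx⟩ : (P : ℤ) ∣ r ^ 2 - A := hcop.dvd_of_dvd_mul_left h2
  obtain ⟨y, hy⟩ : (P : ℤ) ∣ r ^ 3 - B := by
    have e : r ^ 3 - B = r * (r ^ 2 - A) + (r * A - B) := by ring
    rw [e]
    exact dvd_add (Dvd.dvd.mul_left ⟨x, hx⟩ _) h1
  obtain ⟨w, hw⟩ := hmq
  have hw' : (P : ℤ) = m ^ 2 * q * w := by exact_mod_cast hw
  refine ⟨r, m * q * w * x, q * w * (3 * r * x - 2 * y), ?_, ?_, ?_, ?_⟩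
  · have : A = r ^ 2 - P * x := by linarith
    rw [this, hw']; ring
  · have e1 : B = r ^ 3 - P * y := by linarith
    rw [e1, hw']; ring
  · exact ⟨m * w * x, by ring⟩
  · exact ⟨w * (3 * r * x - 2 * y), by ring⟩

/-- a real number close to the double root -/
theorem exists_e (A B : ℤ) (Z d : ℝ) (hZ : 1 ≤ Z) (hd : 1 ≤ d) (hdZ : d ^ 2 ≤ 6 * Z)
    (hA : |(A : ℝ)| ≤ Z ^ 2) (hB : |(B : ℝ)| ≤ Z ^ 3)
    (hsh : Z ^ 2 / 4 < |(A : ℝ)| ∨ Z ^ 3 / 8 < |(B : ℝ)|)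
    (hD : |(A : ℝ) ^ 3 - (B : ℝ) ^ 2| ≤ d ^ 4 * Z ^ 4) :
    ∃ e : ℝ, |e| ≤ 4096 * Z ∧ |e ^ 2 - A| ≤ 4096 * d ^ 2 * Z ∧
      |e ^ 3 - 3 * A * e + 2 * B| ≤ 4096 * d ^ 4 * Z := by
  have hZ0 : 0 < Z := by linarith
  by_cases hc : Z ^ 2 / 16 ≤ |(A : ℝ)|
  · have hA0 : 0 < |(A : ℝ)| := lt_of_lt_of_le (by positivity) hc
    have hA0' : (A : ℝ) ≠ 0 := abs_pos.1 hA0
    have e1 : |(B : ℝ) / A| ≤ 16 * Z := by
      rw [abs_div, div_le_iff₀ hA0]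
      calc |(B : ℝ)| ≤ Z ^ 3 := hB
        _ = 16 * Z * (Z ^ 2 / 16) := by ring
        _ ≤ _ := by gcongr
    have e2 : ((B : ℝ) / A) ^ 2 - A = -((A : ℝ) ^ 3 - B ^ 2) / A ^ 2 := by
      field_simp
      ring
    have e3 : |((B : ℝ) / A) ^ 2 - A| ≤ 256 * d ^ 4 := by
      rw [e2, abs_div, abs_neg, abs_pow, div_le_iff₀ (by positivity)]
      calc |(A : ℝ) ^ 3 - (B : ℝ) ^ 2| ≤ d ^ 4 * Z ^ 4 := hD
        _ = 256 * d ^ 4 * (Z ^ 2 / 16) ^ 2 := by ring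
        _ ≤ 256 * d ^ 4 * |(A : ℝ)| ^ 2 := by gcongr
    refine ⟨(B : ℝ) / A, by linarith, ?_, ?_⟩
    · refine e3.trans ?_
      calc 256 * d ^ 4 = 256 * d ^ 2 * d ^ 2 := by ring
        _ ≤ 256 * d ^ 2 * (6 * Z) := by gcongr
        _ ≤ _ := by nlinarith [mul_pos (pow_pos (show (0 : ℝ) < d by linarith) 2) hZ0]
    · have e4 : ((B : ℝ) / A) ^ 3 - 3 * A * ((B : ℝ) / A) + 2 * B =
        ((B : ℝ) / A) * (((B : ℝ) / A) ^ 2 - A) := by
        field_simp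
        ring
      rw [e4, abs_mul]
      calc |(B : ℝ) / A| * |((B : ℝ) / A) ^ 2 - A| ≤ (16 * Z) * (256 * d ^ 4) := by gcongr
        _ = _ := by ring
  · push Not at hc
    have hB8 : Z ^ 3 / 8 < |(B : ℝ)| := by
      rcases hsh with h | h
      · nlinarith
      · exact h
    have h1 : |(A : ℝ) ^ 3| ≤ (Z ^ 2 / 16) ^ 3 := by
      rw [abs_pow]; gcongr
    have h2 : (Z ^ 3 / 8) ^ 2 ≤ (B : ℝ) ^ 2 := by
      rw [← sq_abs (B : ℝ)]; gcongr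
    have h3 : (B : ℝ) ^ 2 - |(A : ℝ) ^ 3| ≤ |(A : ℝ) ^ 3 - (B : ℝ) ^ 2| := by
      have := abs_sub_abs_le_abs_sub ((B : ℝ) ^ 2) ((A : ℝ) ^ 3)
      rw [abs_of_nonneg (sq_nonneg (B : ℝ)), abs_sub_comm] at this
      exact this
    have h4 : 63 / 4096 * Z ^ 6 ≤ d ^ 4 * Z ^ 4 := by
      have e : (Z ^ 3 / 8) ^ 2 - (Z ^ 2 / 16) ^ 3 = 63 / 4096 * Z ^ 6 := by ring
      linarith
    have h5 : 63 / 4096 * Z ^ 2 ≤ d ^ 4 := by
      have h6 : 63 / 4096 * Z ^ 2 * Z ^ 4 ≤ d ^ 4 * Z ^ 4 := by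
        have : 63 / 4096 * Z ^ 2 * Z ^ 4 = 63 / 4096 * Z ^ 6 := by ring
        linarith
      exact le_of_mul_le_mul_right h6 (by positivity)
    have h6 : Z / 9 ≤ d ^ 2 := by
      by_contra hcon
      push Not at hcon
      have : (d ^ 2) ^ 2 < (Z / 9) ^ 2 := by gcongr
      have e : (d ^ 2) ^ 2 = d ^ 4 := by ring
      rw [e] at this
      nlinarith [sq_nonneg Z, pow_pos hZ0 2]
    refine ⟨0, by simp; positivity, ?_, ?_⟩
    · have : |(0 : ℝ) ^ 2 - A| = |(A : ℝ)| := by simp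
      rw [this]
      calc |(A : ℝ)| ≤ Z ^ 2 / 16 := hc.le
        _ = 9 / 16 * (Z / 9) * Z := by ring
        _ ≤ 9 / 16 * d ^ 2 * Z := by gcongr
        _ ≤ _ := by gcongr; norm_num
    · have : |(0 : ℝ) ^ 3 - 3 * A * 0 + 2 * B| = 2 * |(B : ℝ)| := by
        simp [abs_mul]
      rw [this]
      calc 2 * |(B : ℝ)| ≤ 2 * Z ^ 3 := by gcongr
        _ ≤ 4096 * (63 / 4096 * Z ^ 2) * Z := by nlinarith [pow_pos hZ0 3]
        _ ≤ 4096 * d ^ 4 * Z := by gcongr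

/-- existence of the dyadic basis -/
theorem exists_Bas (A B : ℤ) (Z d : ℝ) (m q : ℕ) (hd : 1 ≤ d) (hm : 2 * d ^ 2 < m)
    (hdata : ∃ r h k : ℤ, A = r ^ 2 - m * h ∧
      2 * B = m ^ 2 * k + 2 * r ^ 3 - 3 * m * r * h ∧ (q : ℤ) ∣ h ∧ (q : ℤ) ∣ k)
    (he : ∃ e : ℝ, |e| ≤ 4096 * Z ∧ |e ^ 2 - A| ≤ 4096 * d ^ 2 * Z ∧
      |e ^ 3 - 3 * A * e + 2 * B| ≤ 4096 * d ^ 4 * Z) (L : ℕ) (hL : 2 * (m : ℝ) < 2 ^ L) :
    ∃ i j : ℕ, i ≤ j ∧ j < L ∧ (2 : ℝ) ^ (i + j) ≤ 2 * m ∧ ∃ s₁ t₁ s₂ t₂ r h k : ℤ,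
      Bas Z d m q A B (2 ^ (i + 1)) (2 ^ (j + 1)) s₁ t₁ s₂ t₂ r h k := by
  obtain ⟨r, h, k, hA, hB, hqh, hqk⟩ := hdata
  obtain ⟨e, he1, he2, he3⟩ := he
  have hd0 : 0 < d := by linarith
  have hm0 : (0 : ℝ) < m := by nlinarith
  obtain ⟨s₁, t₁, s₂, t₂, hdet, R₁, R₂, hR1, hR12, hR3, hR4, c1, c2, c3, c4⟩ :=
    exists_reduced ((m : ℝ) / d) ((r - e) / d) d (by positivity) hd0
  have hac : (m : ℝ) / d * d = m := by field_simp
  rw [hac] at hR3 hR4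
  have f1 : |(m : ℝ) * s₁ + (r - e) * t₁| ≤ d * R₁ := by
    have e1 : (m : ℝ) * s₁ + (r - e) * t₁ = d * ((m : ℝ) / d * s₁ + (r - e) / d * t₁) := by
      field_simp
    rw [e1, abs_mul, abs_of_pos hd0]
    gcongr
  have f3 : |(m : ℝ) * s₂ + (r - e) * t₂| ≤ d * R₂ := by
    have e1 : (m : ℝ) * s₂ + (r - e) * t₂ = d * ((m : ℝ) / d * s₂ + (r - e) / d * t₂) := by
      field_simp
    rw [e1, abs_mul, abs_of_pos hd0]
    gcongr
  rw [abs_mul, abs_of_pos hd0] at c2 c4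
  have ht1 : t₁ ≠ 0 := by
    intro h0
    rw [h0, mul_zero, sub_zero] at hdet
    have hs : |(s₁ : ℝ)| = 1 := by
      have : s₁ ∣ 1 := ⟨t₂, hdet.symm⟩
      have h1 : |s₁| = 1 := Int.isUnit_iff_abs_eq.1 (isUnit_of_dvd_one this)
      exact_mod_cast h1
    rw [h0, Int.cast_zero, mul_zero, add_zero, abs_mul, Nat.abs_cast, hs, mul_one] at f1
    have h2 : (m : ℝ) ^ 2 ≤ d ^ 2 * (2 * m) := by
      calc (m : ℝ) ^ 2 ≤ (d * R₁) ^ 2 := by gcongr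
        _ = d ^ 2 * (R₁ * R₁) := by ring
        _ ≤ d ^ 2 * (R₁ * R₂) := by gcongr
        _ ≤ _ := by gcongr
    nlinarith
  have hR1' : 1 ≤ R₁ := by
    have : (1 : ℝ) ≤ |(t₁ : ℝ)| := by
      have := Int.one_le_abs ht1
      exact_mod_cast this
    nlinarith
  obtain ⟨i, hi1, hi2⟩ := exists_nat_pow_near hR1' (one_lt_two)
  obtain ⟨j, hj1, hj2⟩ := exists_nat_pow_near (hR1'.trans hR12) (one_lt_two)
  have hij : i ≤ j := by
    have h1 : (2 : ℝ) ^ i < 2 ^ (j + 1) := lt_of_le_of_lt hi1 (lt_of_le_of_lt hR12 hj2)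
    have := (pow_lt_pow_iff_right₀ (one_lt_two)).1 h1
    omega
  refine ⟨i, j, hij, ?_, ?_, s₁, t₁, s₂, t₂, r, h, k, hA, hB, hqh, hqk, hdet, ht1, e, he1, he2,
    he3, f1.trans (by gcongr), c2.trans hi2.le, f3.trans (by gcongr), c4.trans hj2.le⟩
  · have h1 : (2 : ℝ) ^ j < 2 ^ L := by
      calc (2 : ℝ) ^ j ≤ R₂ := hj1
        _ ≤ R₁ * R₂ := by nlinarith
        _ ≤ 2 * m := hR4
        _ < _ := hL
    exact (pow_lt_pow_iff_right₀ (one_lt_two)).1 h1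
  · rw [pow_add]
    calc (2 : ℝ) ^ i * 2 ^ j ≤ R₁ * R₂ := by gcongr
      _ ≤ _ := hR4

end Pool.Agent.T2H27.Szp
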