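import Mathlib
import Pool.Agent.T2H27.Arith

/-!
# Small radical of the powerful part: counting `B` modulo `P`
-/

set_option autoImplicit false

namespace Pool.Agent.T2H27.Szp

open Finset Pool.Agent.H328R2.ABC

/-- two values of `B` of the same sign are close -/
theorem close (A B B' : ℤ) (Z D : ℝ) (hZ : 1 ≤ Z) (hA : |(A : ℝ)| ≤ Z ^ 2)
    (hB : |(B : ℝ)| ≤ Z ^ 3) (hB' : |(B' : ℝ)| ≤ Z ^ 3)
    (hsh : Z ^ 2 / 4 < |(A : ℝ)| ∨ Z ^ 3 / 8 < |(B : ℝ)|)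
    (hsh' : Z ^ 2 / 4 < |(A : ℝ)| ∨ Z ^ 3 / 8 < |(B' : ℝ)|)
    (hD : |(A : ℝ) ^ 3 - (B : ℝ) ^ 2| ≤ D) (hD' : |(A : ℝ) ^ 3 - (B' : ℝ) ^ 2| ≤ D)
    (hs : |(B : ℝ) + B'| = |(B : ℝ)| + |(B' : ℝ)|) (hs' : |(B : ℝ) - B'| ≤ Z ^ 3) :
    |(B : ℝ) - B'| ≤ 128 * D / Z ^ 3 := by
  have hZ0 : 0 < Z := by linarith
  have hZ3 : 0 < Z ^ 3 := by positivity
  rw [le_div_iff₀ hZ3]
  by_cases hc : Z ^ 6 / 128 ≤ D
  · calc |(B : ℝ) - B'| * Z ^ 3 ≤ Z ^ 3 * Z ^ 3 := by gcongr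
      _ = 128 * (Z ^ 6 / 128) := by ring
      _ ≤ _ := by gcongr
  · push Not at hc
    have key : ∀ b : ℝ, (Z ^ 2 / 4 < |(A : ℝ)| ∨ Z ^ 3 / 8 < |b|) → |(A : ℝ) ^ 3 - b ^ 2| ≤ D →
        Z ^ 3 / 64 ≤ |b| := by
      intro b h1 h2
      by_contra hcon
      push Not at hcon
      have h3 : Z ^ 2 / 4 < |(A : ℝ)| := by
        rcases h1 with h | h
        · exact h
        · exfalso
          linarith
      have h4 : (Z ^ 2 / 4) ^ 3 ≤ |(A : ℝ) ^ 3| := by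
        rw [abs_pow]; gcongr
      have h5 : b ^ 2 ≤ (Z ^ 3 / 64) ^ 2 := by
        rw [← sq_abs b]; gcongr
      have h6 : |(A : ℝ) ^ 3| - b ^ 2 ≤ |(A : ℝ) ^ 3 - b ^ 2| := by
        have := abs_sub_abs_le_abs_sub ((A : ℝ) ^ 3) (b ^ 2)
        rw [abs_of_nonneg (sq_nonneg b)] at this
        exact this
      have e1 : (Z ^ 2 / 4) ^ 3 = Z ^ 6 / 64 := by ring
      have e2 : (Z ^ 3 / 64) ^ 2 = Z ^ 6 / 4096 := by ring
      have h7 : 0 < Z ^ 6 := by positivity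
      rw [e1] at h4
      rw [e2] at h5
      linarith
    have k1 := key B hsh hD
    have k2 := key B' hsh' hD'
    have h1 : |(B : ℝ) - B'| * |(B : ℝ) + B'| ≤ 2 * D := by
      rw [← abs_mul]
      have : ((B : ℝ) - B') * (B + B') = ((A : ℝ) ^ 3 - B' ^ 2) - (A ^ 3 - B ^ 2) := by ring
      rw [this]
      refine (abs_sub _ _).trans ?_
      linarith
    have h2 : Z ^ 3 / 32 ≤ |(B : ℝ) + B'| := by
      rw [hs]; linarith
    have h3 : |(B : ℝ) - B'| * (Z ^ 3 / 32) ≤ |(B : ℝ) - B'| * |(B : ℝ) + B'| := by gcongr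
    have h0 : 0 ≤ D := (abs_nonneg _).trans hD
    nlinarith

/-- the `B`'s of one sign with the same `A` -/
theorem countA_fib (ε : ℝ) (hε : 0 < ε) : ∃ C : ℝ, 0 < C ∧ ∀ (Z D : ℝ) (P : ℕ) (A : ℤ),
    1 ≤ Z → 0 ≤ D → 0 < P → IsCoprime A P → ∀ T : Finset ℤ,
    (∀ B ∈ T, |(B : ℝ)| ≤ Z ^ 3 ∧ (P : ℤ) ∣ A ^ 3 - B ^ 2) →
    (∀ B ∈ T, ∀ B' ∈ T, |(B : ℝ) - B'| ≤ 128 * D / Z ^ 3) →
    (T.card : ℝ) ≤ C * (P : ℝ) ^ ε * (128 * D / Z ^ 3 / P + 1) := by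
  classical
  obtain ⟨C, hC, hroots⟩ := roots 2 (by norm_num) ε hε
  refine ⟨C, hC, ?_⟩
  intro Z D P A hZ hD hP hAP T hT hT'
  have hZ0 : 0 < Z := by linarith
  haveI : NeZero P := ⟨hP.ne'⟩
  have hu : IsUnit ((A : ZMod P) ^ 3) := by
    apply IsUnit.pow
    obtain ⟨u, v, huv⟩ := hAP
    have h1 := congrArg (Int.cast : ℤ → ZMod P) huv
    push_cast at h1
    rw [ZMod.natCast_self, mul_zero, add_zero] at h1
    exact IsUnit.of_mul_eq_one (u : ZMod P) (by rw [mul_comm]; exact h1)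
  have hR := hroots P hP ((A : ZMod P) ^ 3) hu
  set g : ℤ → ZMod P := fun B => (B : ZMod P) with hg
  have himg : ((T.image g).card : ℝ) ≤ C * (P : ℝ) ^ ε := by
    refine le_trans ?_ hR
    have hsub : ((T.image g : Finset (ZMod P)) : Set (ZMod P)) ⊆
        {t : ZMod P | t ^ 2 = (A : ZMod P) ^ 3} := by
      intro t ht
      rw [coe_image] at ht
      obtain ⟨B, hB, rfl⟩ := ht
      have h1 := (hT B hB).2
      have h2 : ((A ^ 3 - B ^ 2 : ℤ) : ZMod P) = 0 := (ZMod.intCast_zmod_eq_zero_iff_dvd _ P).2 h1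
      push_cast at h2
      show (B : ZMod P) ^ 2 = (A : ZMod P) ^ 3
      exact (sub_eq_zero.1 h2).symm
    have := Set.ncard_le_ncard hsub (Set.toFinite _)
    rw [Set.ncard_coe_finset] at this
    exact_mod_cast this
  have hfib : ∀ t ∈ T.image g, (((T.filter (fun B => g B = t)).card : ℕ) : ℝ) ≤
      128 * D / Z ^ 3 / P + 1 := by
    intro t _
    refine card_mod_le P hP (128 * D / Z ^ 3) (by positivity) _ ?_
    intro x hx y hy
    obtain ⟨hx1, hx2⟩ := mem_filter.1 hx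
    obtain ⟨hy1, hy2⟩ := mem_filter.1 hy
    refine ⟨?_, hT' x hx1 y hy1⟩
    have h3 : ((x - y : ℤ) : ZMod P) = 0 := by
      push_cast
      rw [show (x : ZMod P) = t from hx2, show (y : ZMod P) = t from hy2, sub_self]
    exact (ZMod.intCast_zmod_eq_zero_iff_dvd _ P).1 h3
  have hsum : (T.card : ℝ) = ∑ t ∈ T.image g, ((T.filter (fun B => g B = t)).card : ℝ) := by
    rw [← Nat.cast_sum]
    congr 1
    exact card_eq_sum_card_image _ _
  rw [hsum]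
  calc ∑ t ∈ T.image g, ((T.filter (fun B => g B = t)).card : ℝ)
      ≤ ∑ t ∈ T.image g, (128 * D / Z ^ 3 / P + 1) := sum_le_sum hfib
    _ = ((T.image g).card : ℝ) * (128 * D / Z ^ 3 / P + 1) := by rw [sum_const, nsmul_eq_mul]
    _ ≤ _ := mul_le_mul_of_nonneg_right himg (by positivity)

/-- **Counting the pairs with a given modulus `P`.** -/
theorem countA (ε : ℝ) (hε : 0 < ε) : ∃ C : ℝ, 0 < C ∧ ∀ (Z D : ℝ) (P : ℕ),
    1 ≤ Z → 0 ≤ D → 0 < P → ∀ S : Finset (ℤ × ℤ),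
    (∀ x ∈ S, |(x.1 : ℝ)| ≤ Z ^ 2 ∧ |(x.2 : ℝ)| ≤ Z ^ 3 ∧
      (Z ^ 2 / 4 < |(x.1 : ℝ)| ∨ Z ^ 3 / 8 < |(x.2 : ℝ)|) ∧
      |(x.1 : ℝ) ^ 3 - (x.2 : ℝ) ^ 2| ≤ D ∧ IsCoprime x.1 P ∧ (P : ℤ) ∣ x.1 ^ 3 - x.2 ^ 2) →
    (S.card : ℝ) ≤ C * (P : ℝ) ^ ε * (D / (Z * P) + Z ^ 2) := by
  classical
  obtain ⟨C, hC, hfib⟩ := countA_fib ε hε
  refine ⟨768 * C, by positivity, ?_⟩
  intro Z D P hZ hD hP S hS
  have hZ0 : 0 < Z := by linarith
  have hP' : (0 : ℝ) < P := by exact_mod_cast hP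
  set F : ℝ := C * (P : ℝ) ^ ε * (128 * D / Z ^ 3 / P + 1) with hF
  have hF0 : 0 ≤ F := by positivity
  -- fibre over A
  have h1 : ∀ A ∈ S.image (fun x => x.1), ((S.filter (fun x => x.1 = A)).card : ℝ) ≤ 2 * F := by
    intro A hA
    obtain ⟨x₀, hx₀, hx₀A⟩ := mem_image.1 hA
    have hAP : IsCoprime A P := by
      have := (hS x₀ hx₀).2.2.2.2.1
      rwa [hx₀A] at this
    set T := (S.filter (fun x => x.1 = A)).image (fun x => x.2) with hT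
    have hcT : (S.filter (fun x => x.1 = A)).card = T.card := by
      rw [hT, card_image_of_injOn]
      intro x hx y hy hxy
      have h1 := (mem_filter.1 (mem_coe.1 hx)).2
      have h2 := (mem_filter.1 (mem_coe.1 hy)).2
      exact Prod.ext (h1.trans h2.symm) hxy
    rw [hcT]
    have hTp : ∀ B ∈ T, |(A : ℝ)| ≤ Z ^ 2 ∧ |(B : ℝ)| ≤ Z ^ 3 ∧
      (Z ^ 2 / 4 < |(A : ℝ)| ∨ Z ^ 3 / 8 < |(B : ℝ)|) ∧
      |(A : ℝ) ^ 3 - (B : ℝ) ^ 2| ≤ D ∧ (P : ℤ) ∣ A ^ 3 - B ^ 2 := by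
      intro B hB
      obtain ⟨x, hx, rfl⟩ := mem_image.1 hB
      obtain ⟨hx1, hx2⟩ := mem_filter.1 hx
      obtain ⟨a1, a2, a3, a4, a5, a6⟩ := hS x hx1
      rw [hx2] at a1 a3 a4 a6
      exact ⟨a1, a2, a3, a4, a6⟩
    have hsplit : T.card = (T.filter (fun B => 0 ≤ B)).card + (T.filter (fun B => ¬ 0 ≤ B)).card :=
      (card_filter_add_card_filter_not _).symm
    have hp : (((T.filter (fun B => 0 ≤ B)).card : ℕ) : ℝ) ≤ F := by
      refine hfib Z D P A hZ hD hP hAP _ ?_ ?_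
      · intro B hB
        obtain ⟨a1, a2, a3, a4, a5⟩ := hTp B (mem_filter.1 hB).1
        exact ⟨a2, a5⟩
      · intro B hB B' hB'
        obtain ⟨hB1, hB2⟩ := mem_filter.1 hB
        obtain ⟨hB1', hB2'⟩ := mem_filter.1 hB'
        obtain ⟨a1, a2, a3, a4, a5⟩ := hTp B hB1
        obtain ⟨b1, b2, b3, b4, b5⟩ := hTp B' hB1'
        have p1 : (0 : ℝ) ≤ B := by exact_mod_cast hB2
        have p2 : (0 : ℝ) ≤ B' := by exact_mod_cast hB2'
        refine close A B B' Z D hZ a1 a2 b2 a3 b3 a4 b4 ?_ ?_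
        · rw [abs_of_nonneg p1, abs_of_nonneg p2, abs_of_nonneg (by linarith)]
        · rw [abs_of_nonneg p1] at a2
          rw [abs_of_nonneg p2] at b2
          rw [abs_le]
          constructor <;> linarith
    have hn : (((T.filter (fun B => ¬ 0 ≤ B)).card : ℕ) : ℝ) ≤ F := by
      refine hfib Z D P A hZ hD hP hAP _ ?_ ?_
      · intro B hB
        obtain ⟨a1, a2, a3, a4, a5⟩ := hTp B (mem_filter.1 hB).1
        exact ⟨a2, a5⟩
      · intro B hB B' hB'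
        obtain ⟨hB1, hB2⟩ := mem_filter.1 hB
        obtain ⟨hB1', hB2'⟩ := mem_filter.1 hB'
        obtain ⟨a1, a2, a3, a4, a5⟩ := hTp B hB1
        obtain ⟨b1, b2, b3, b4, b5⟩ := hTp B' hB1'
        have p1 : (B : ℝ) ≤ 0 := by exact_mod_cast (not_le.1 hB2).le
        have p2 : (B' : ℝ) ≤ 0 := by exact_mod_cast (not_le.1 hB2').le
        refine close A B B' Z D hZ a1 a2 b2 a3 b3 a4 b4 ?_ ?_
        · rw [abs_of_nonpos p1, abs_of_nonpos p2, abs_of_nonpos (by linarith)]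
          ring
        · rw [abs_of_nonpos p1] at a2
          rw [abs_of_nonpos p2] at b2
          rw [abs_le]
          constructor <;> linarith
    rw [hsplit]
    push_cast
    linarith
  have h5 : ((S.image (fun x => x.1)).card : ℝ) ≤ 3 * Z ^ 2 := by
    have : ((S.image (fun x => x.1)).card : ℝ) ≤ 2 * Z ^ 2 + 1 := by
      refine card_abs_le (Z ^ 2) (by positivity) _ ?_
      intro x hx
      obtain ⟨y, hy, rfl⟩ := mem_image.1 hx
      exact (hS y hy).1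
    nlinarith
  have h4 : (S.card : ℝ) = ∑ b ∈ S.image (fun x => x.1),
      ((S.filter (fun x => x.1 = b)).card : ℝ) := by
    rw [← Nat.cast_sum]
    congr 1
    exact card_eq_sum_card_image _ _
  rw [h4]
  calc ∑ b ∈ S.image (fun x => x.1), ((S.filter (fun x => x.1 = b)).card : ℝ)
      ≤ ∑ b ∈ S.image (fun x => x.1), 2 * F := sum_le_sum h1
    _ = ((S.image (fun x => x.1)).card : ℝ) * (2 * F) := by rw [sum_const, nsmul_eq_mul]
    _ ≤ (3 * Z ^ 2) * (2 * F) := mul_le_mul_of_nonneg_right h5 (by positivity)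
    _ = 6 * C * (P : ℝ) ^ ε * (128 * (D / (Z * P)) + Z ^ 2) := by
        rw [hF]
        field_simp
        norm_num
    _ ≤ 6 * C * (P : ℝ) ^ ε * (128 * (D / (Z * P)) + 128 * Z ^ 2) := by
        gcongr
        nlinarith [sq_nonneg Z]
    _ = _ := by ring

end Pool.Agent.T2H27.Szp
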