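import Mathlib
import Pool.Agent.T2H27.PartA

/-!
# The number of pairs `(A, B)` with a large powerful part
-/

set_option autoImplicit false

namespace Pool.Agent.T2H27.Szp

open Finset Pool.Agent.H328R2.ABC

theorem card_le_cover {α κ : Type*} (S : Finset α) (K : Finset κ) (Q : κ → α → Prop) (b : κ → ℝ)
    (h : ∀ x ∈ S, ∃ i ∈ K, Q i x)
    (hb : ∀ i ∈ K, ∀ T : Finset α, T ⊆ S → (∀ x ∈ T, Q i x) → (T.card : ℝ) ≤ b i) :
    (S.card : ℝ) ≤ ∑ i ∈ K, b i := by
  classical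
  have h1 : S ⊆ K.biUnion (fun i => S.filter (Q i)) := by
    intro x hx
    obtain ⟨i, hi, hQ⟩ := h x hx
    exact mem_biUnion.2 ⟨i, hi, mem_filter.2 ⟨hx, hQ⟩⟩
  calc (S.card : ℝ) ≤ ((K.biUnion (fun i => S.filter (Q i))).card : ℝ) := by
        exact_mod_cast card_le_card h1
    _ ≤ ((∑ i ∈ K, (S.filter (Q i)).card : ℕ) : ℝ) := by exact_mod_cast card_biUnion_le
    _ = ∑ i ∈ K, ((S.filter (Q i)).card : ℝ) := by push_cast; rfl
    _ ≤ _ := sum_le_sum (fun i hi => hb i hi _ (filter_subset _ _)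
        (fun x hx => (mem_filter.1 hx).2))

/-- `x³ - 3Ax + 2B` has few possible `(A, B)` if it has an integer root -/
theorem card_red (Z : ℝ) (hZ : 1 ≤ Z) (S : Finset (ℤ × ℤ))
    (hS : ∀ x ∈ S, |(x.1 : ℝ)| ≤ Z ^ 2 ∧ |(x.2 : ℝ)| ≤ Z ^ 3 ∧
      ∃ y : ℤ, y ^ 3 - 3 * x.1 * y + 2 * x.2 = 0) :
    (S.card : ℝ) ≤ 18 * Z ^ 3 := by
  classical
  have hZ0 : 0 < Z := by linarith
  choose! y hy using fun x hx => (hS x hx).2.2
  have h1 : S.card ≤ (I (Z ^ 2) ×ˢ I (2 * Z)).card := by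
    refine card_le_card_of_injOn (fun x => (x.1, y x)) ?_ ?_
    · intro x hx
      obtain ⟨h1, h2, -⟩ := hS x hx
      have h3 := hy x hx
      have h3' : ((y x : ℝ)) ^ 3 - 3 * x.1 * (y x) + 2 * x.2 = 0 := by exact_mod_cast h3
      rw [mem_coe, mem_product]
      refine ⟨mem_I.2 h1, mem_I.2 ?_⟩
      by_contra hcon
      push Not at hcon
      have e1 : (y x : ℝ) ^ 3 = 3 * x.1 * (y x) - 2 * x.2 := by linarith
      have e2 : |(y x : ℝ)| ^ 3 ≤ 3 * Z ^ 2 * |(y x : ℝ)| + 2 * Z ^ 3 := by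
        rw [← abs_pow, e1]
        refine (abs_sub _ _).trans ?_
        rw [abs_mul, abs_mul, abs_mul]
        have : |(3 : ℝ)| = 3 := by norm_num
        rw [this, abs_two]
        gcongr
      have e3 : (2 * Z) ^ 2 * |(y x : ℝ)| < |(y x : ℝ)| ^ 2 * |(y x : ℝ)| := by
        have h5 : (2 * Z) ^ 2 < |(y x : ℝ)| ^ 2 := by
          have : 0 ≤ 2 * Z := by linarith
          exact pow_lt_pow_left₀ hcon this (by norm_num)
        have h6 : 0 < |(y x : ℝ)| := by linarith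
        exact mul_lt_mul_of_pos_right h5 h6
      have e4 : Z ^ 2 * (2 * Z) < Z ^ 2 * |(y x : ℝ)| :=
        mul_lt_mul_of_pos_left hcon (by positivity)
      nlinarith
    · intro x hx x' hx' hxx
      have h3 := hy x hx
      have h3' := hy x' hx'
      have e1 : (x.1, y x) = (x'.1, y x') := hxx
      have e2 : x.1 = x'.1 := (Prod.mk.inj e1).1
      have e3 : y x = y x' := (Prod.mk.inj e1).2
      rw [e2, e3] at h3
      refine Prod.ext e2 ?_
      linarith
  rw [card_product] at h1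
  calc (S.card : ℝ) ≤ ((I (Z ^ 2)).card : ℝ) * ((I (2 * Z)).card : ℝ) := by exact_mod_cast h1
    _ ≤ (3 * Z ^ 2) * (3 * (2 * Z)) := by
        gcongr
        · exact card_I' _ (one_le_pow₀ hZ)
        · exact card_I' _ (by linarith)
    _ = _ := by ring

/-- if the first coefficient vanishes then the cubic has an integer root -/
theorem root_of_fa {A B : ℤ} {m : ℕ} {r h k s t : ℤ} (hA : A = r ^ 2 - m * h)
    (hB : 2 * B = m ^ 2 * k + 2 * r ^ 3 - 3 * m * r * h) (ht : t ≠ 0)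
    (hfa : fa m r h k s t = 0) : ∃ y : ℤ, y ^ 3 - 3 * A * y + 2 * B = 0 := by
  have e1 : (m * s + r * t) ^ 3 - 3 * A * (m * s + r * t) * t ^ 2 + 2 * B * t ^ 3 = 0 := by
    have : (m * s + r * t) ^ 3 - 3 * A * (m * s + r * t) * t ^ 2 + 2 * B * t ^ 3 =
      m ^ 2 * fa m r h k s t := by
      rw [hB, hA]; unfold fa; ring
    rw [this, hfa, mul_zero]
  have htq : (t : ℚ) ≠ 0 := by exact_mod_cast ht
  set w : ℚ := ((m * s + r * t : ℤ) : ℚ) / t with hw
  have e2 : w ^ 3 + 0 * w ^ 2 + ((-3 * A : ℤ) : ℚ) * w + ((2 * B : ℤ) : ℚ) = 0 := by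
    have e3 : (((m * s + r * t) ^ 3 - 3 * A * (m * s + r * t) * t ^ 2 + 2 * B * t ^ 3 : ℤ) : ℚ) =
      0 := by exact_mod_cast e1
    rw [hw]
    push_cast at e3 ⊢
    field_simp
    linear_combination e3
  -- rational root theorem
  have hint : ∃ z : ℤ, (z : ℚ) = w := by
    have hmon : (Polynomial.X ^ 3 + Polynomial.C (-3 * A) * Polynomial.X +
      Polynomial.C (2 * B) : Polynomial ℤ).Monic := by
      monicity!
    have hroot : Polynomial.aeval w (Polynomial.X ^ 3 + Polynomial.C (-3 * A) * Polynomial.X +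
      Polynomial.C (2 * B) : Polynomial ℤ) = 0 := by
      simp only [map_add, map_mul, map_pow, Polynomial.aeval_X, Polynomial.aeval_C]
      simp only [algebraMap_int_eq, eq_intCast]
      push_cast at e2 ⊢
      linear_combination e2
    obtain ⟨z, hz⟩ := isInteger_of_is_root_of_monic hmon hroot
    exact ⟨z, hz⟩
  obtain ⟨z, hz⟩ := hint
  refine ⟨z, ?_⟩
  rw [← hz] at e2
  have : ((z ^ 3 - 3 * A * z + 2 * B : ℤ) : ℚ) = 0 := by
    push_cast at e2 ⊢
    linear_combination e2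
  exact_mod_cast this

end Pool.Agent.T2H27.Szp
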