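import Mathlib
import Pool.Agent.T2H27.Pairs

/-!
# The number of pairs `(A, B)` with a large powerful part: the total count
-/

set_option autoImplicit false

namespace Pool.Agent.T2H27.Szp

open Finset Pool.Agent.H328R2.ABC

/-- the conditions on `(A, B)`: the size is exactly of order `Z`, the discriminant is at most
`d⁴ Z⁴`, `P` is a powerful divisor of the discriminant, prime to `A`, with `P ≥ Λ rad P` -/
def Cond (Z d Λ : ℝ) (P : ℕ) (x : ℤ × ℤ) : Prop :=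
  (|(x.1 : ℝ)| ≤ Z ^ 2 ∧ |(x.2 : ℝ)| ≤ Z ^ 3 ∧
    (Z ^ 2 / 4 < |(x.1 : ℝ)| ∨ Z ^ 3 / 8 < |(x.2 : ℝ)|) ∧
    |(x.1 : ℝ) ^ 3 - (x.2 : ℝ) ^ 2| ≤ d ^ 4 * Z ^ 4) ∧
    (0 < P ∧ (P : ℝ) ≤ Z ^ 6 ∧ Pwf P ∧ IsCoprime x.1 P ∧ (P : ℤ) ∣ x.1 ^ 3 - x.2 ^ 2 ∧
      Λ * rad P ≤ P)

theorem natpow_rpow (n : ℕ) (ε : ℝ) :
    (((2 ^ n) ^ 6 : ℕ) : ℝ) ^ (ε / 12) * (((2 ^ n) ^ 6 : ℕ) : ℝ) ^ (ε / 12) =
      ((2 : ℝ) ^ n) ^ ε := by
  push_cast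
  rw [← Real.rpow_add (by positivity), ← Real.rpow_natCast ((2 : ℝ) ^ n) 6,
    ← Real.rpow_mul (by positivity)]
  congr 1
  push_cast
  ring

theorem totA (ε : ℝ) (hε : 0 < ε) : ∃ C : ℝ, 0 < C ∧ ∀ (n : ℕ) (d Λ : ℝ), 1 ≤ d →
    0 < Λ → ∀ S : Finset (ℤ × ℤ),
    (∀ x ∈ S, ∃ P : ℕ, Cond (2 ^ n) d Λ P x ∧ (rad P : ℝ) ≤ 12 * 2 ^ n) →
    (S.card : ℝ) ≤ C * ((2 : ℝ) ^ n) ^ ε * (d ^ 4 * (2 ^ n) ^ 3 / Λ + (2 ^ n) ^ 3) := by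
  classical
  obtain ⟨C₁, hC₁, hA⟩ := countA (ε / 12) (by positivity)
  obtain ⟨C₂, hC₂, hR⟩ := sum_inv_rad (ε / 12) (by positivity)
  refine ⟨C₁ * C₂ * 12, by positivity, ?_⟩
  intro n d Λ hd hΛ S hS
  set Z : ℝ := 2 ^ n with hZdef
  have hZ : 1 ≤ Z := one_le_pow₀ (by norm_num)
  have hZ0 : 0 < Z := by linarith
  set N : ℕ := (2 ^ n) ^ 6 with hN
  have hNZ : (N : ℝ) = Z ^ 6 := by rw [hN, hZdef]; push_cast; ring
  have hN1 : 1 ≤ N := Nat.one_le_pow _ _ (by positivity)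
  set D : ℝ := d ^ 4 * Z ^ 4 with hD
  have hD0 : 0 ≤ D := by positivity
  set K : Finset ℕ := (Icc 1 N).filter (fun P => Λ * rad P ≤ P ∧ (rad P : ℝ) ≤ 12 * Z) with hK
  have h1 := card_le_cover S K (fun P x => Cond Z d Λ P x)
    (fun P => C₁ * (P : ℝ) ^ (ε / 12) * (D / (Z * P) + Z ^ 2)) ?_ ?_
  · refine h1.trans ?_
    set G : ℝ := C₁ * (N : ℝ) ^ (ε / 12) * (12 * (d ^ 4 * Z ^ 3 / Λ + Z ^ 3)) with hG
    have hG0 : 0 ≤ G := by positivity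
    calc ∑ P ∈ K, C₁ * (P : ℝ) ^ (ε / 12) * (D / (Z * P) + Z ^ 2)
        ≤ ∑ P ∈ K, G * (1 / (rad P : ℝ)) := by
          refine sum_le_sum (fun P hP => ?_)
          obtain ⟨hP1, hP2, hP3⟩ := mem_filter.1 hP
          rw [mem_Icc] at hP1
          have hP0 : (0 : ℝ) < P := by exact_mod_cast hP1.1
          have hPN : (P : ℝ) ≤ N := by exact_mod_cast hP1.2
          have hr0 : (0 : ℝ) < rad P := by exact_mod_cast rad_pos P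
          have e1 : D / (Z * P) ≤ d ^ 4 * Z ^ 3 / Λ * (1 / (rad P : ℝ)) := by
            have : D / (Z * P) = d ^ 4 * Z ^ 3 / P := by
              rw [hD]; field_simp
            rw [this, div_mul_div_comm, mul_one]
            gcongr
          have e2 : Z ^ 2 ≤ 12 * Z ^ 3 * (1 / (rad P : ℝ)) := by
            rw [mul_one_div, le_div_iff₀ hr0]
            calc Z ^ 2 * rad P ≤ Z ^ 2 * (12 * Z) := by gcongr
              _ = _ := by ring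
          have e3 : (P : ℝ) ^ (ε / 12) ≤ (N : ℝ) ^ (ε / 12) :=
            Real.rpow_le_rpow hP0.le hPN (by positivity)
          have e4 : 0 ≤ d ^ 4 * Z ^ 3 / Λ * (1 / (rad P : ℝ)) := by positivity
          calc C₁ * (P : ℝ) ^ (ε / 12) * (D / (Z * P) + Z ^ 2)
              ≤ C₁ * (N : ℝ) ^ (ε / 12) * (12 * (d ^ 4 * Z ^ 3 / Λ * (1 / (rad P : ℝ))) +
                12 * Z ^ 3 * (1 / (rad P : ℝ))) := by
                gcongr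
                linarith
            _ = _ := by rw [hG]; ring
      _ ≤ ∑ P ∈ Icc 1 N, G * (1 / (rad P : ℝ)) := by
          refine sum_le_sum_of_subset_of_nonneg (filter_subset _ _) (fun P _ _ => by positivity)
      _ = G * ∑ P ∈ Icc 1 N, (1 / (rad P : ℝ)) := by rw [mul_sum]
      _ ≤ G * (C₂ * (N : ℝ) ^ (ε / 12)) := mul_le_mul_of_nonneg_left (hR N hN1) hG0
      _ = C₁ * C₂ * 12 * ((N : ℝ) ^ (ε / 12) * (N : ℝ) ^ (ε / 12)) *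
          (d ^ 4 * Z ^ 3 / Λ + Z ^ 3) := by rw [hG]; ring
      _ = _ := by rw [hN, natpow_rpow]
  · intro x hx
    obtain ⟨P, hP, hPr⟩ := hS x hx
    refine ⟨P, ?_, hP⟩
    obtain ⟨-, a1, a2, a3, a4, a5, a6⟩ := hP
    rw [hK, mem_filter, mem_Icc]
    refine ⟨⟨a1, ?_⟩, a6, hPr⟩
    rw [← hNZ] at a2
    exact_mod_cast a2
  · intro P hP T _ hT
    obtain ⟨hP1, hP2, hP3⟩ := mem_filter.1 hP
    rw [mem_Icc] at hP1
    refine hA Z D P hZ hD0 hP1.1 T ?_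
    intro x hx
    obtain ⟨⟨a1, a2, a3, a4⟩, -, -, -, a5, a6, -⟩ := hT x hx
    exact ⟨a1, a2, a3, a4, a5, a6⟩

/-- the choice of the modulus -/
theorem exists_mq : ∃ mf qf : ℕ → ℕ, ∀ P : ℕ, 0 < P → Pwf P →
    Odd (qf P) ∧ Squarefree (qf P) ∧ qf P ∣ mf P ∧ mf P ^ 2 * qf P ∣ P ∧
      P ≤ 2 * (mf P ^ 2 * qf P) ∧ rad P ∣ mf P ∧ 0 < mf P := by
  classical
  have : ∀ P : ℕ, ∃ m q : ℕ, 0 < P → Pwf P → Odd q ∧ Squarefree q ∧ q ∣ m ∧ m ^ 2 * q ∣ P ∧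
      P ≤ 2 * (m ^ 2 * q) ∧ rad P ∣ m ∧ 0 < m := by
    intro P
    by_cases h : 0 < P ∧ Pwf P
    · obtain ⟨m, q, hmq⟩ := powerful_mq P h.1 h.2
      exact ⟨m, q, fun _ _ => hmq⟩
    · exact ⟨0, 0, fun h1 h2 => absurd ⟨h1, h2⟩ h⟩
  choose mf qf h using this
  exact ⟨mf, qf, h⟩

/-- there is a dyadic basis -/
theorem Cond.bas {n : ℕ} {d Λ : ℝ} {P m q : ℕ} {x : ℤ × ℤ} (h : Cond (2 ^ n) d Λ P x)
    (hd : 1 ≤ d) (hdZ : d ^ 2 ≤ 6 * 2 ^ n) (hr : 12 * (2 : ℝ) ^ n < rad P)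
    (hmq : m ^ 2 * q ∣ P) (hrm : rad P ∣ m) (hm : 0 < m) (hq : 0 < q) :
    ∃ i ∈ range (6 * n + 2), ∃ j ∈ range (6 * n + 2), i ≤ j ∧ (2 : ℝ) ^ (i + j) ≤ 2 * m ∧
      ∃ s₁ t₁ s₂ t₂ r h k : ℤ,
        Bas (2 ^ n) d m q x.1 x.2 (2 ^ (i + 1)) (2 ^ (j + 1)) s₁ t₁ s₂ t₂ r h k := by
  obtain ⟨⟨a1, a2, a3, a4⟩, b1, b2, b3, b4, b5, b6⟩ := h
  have hZ : (1 : ℝ) ≤ 2 ^ n := one_le_pow₀ (by norm_num)
  have hrm' : (rad P : ℝ) ≤ m := by exact_mod_cast Nat.le_of_dvd hm hrm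
  have hmP : m ≤ P := by
    refine Nat.le_of_dvd b1 (dvd_trans ?_ hmq)
    exact Dvd.dvd.mul_right (dvd_pow_self m (by norm_num)) q
  have hmP' : (m : ℝ) ≤ P := by exact_mod_cast hmP
  have hL : 2 * (m : ℝ) < 2 ^ (6 * n + 2) := by
    have e : (2 : ℝ) ^ (6 * n + 2) = 4 * (2 ^ n) ^ 6 := by
      rw [pow_add, mul_comm 6 n, pow_mul]; ring
    rw [e]
    have : (0 : ℝ) < (2 ^ n) ^ 6 := by positivity
    linarith
  obtain ⟨i, j, hij, hj, hijm, hB⟩ := exists_Bas x.1 x.2 (2 ^ n) d m q hd (by linarith)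
    (root_data x.1 x.2 P m q b4 b5 hmq) (exists_e x.1 x.2 (2 ^ n) d hZ hd hdZ a1 a2 a3 a4)
    (6 * n + 2) hL
  exact ⟨i, mem_range.2 (lt_of_le_of_lt hij hj), j, mem_range.2 hj, hij, hijm, hB⟩

theorem totC (ε : ℝ) (hε : 0 < ε) : ∃ C : ℝ, 0 < C ∧ ∀ (n : ℕ) (d Λ : ℝ), 1 ≤ d →
    d ^ 2 ≤ 6 * 2 ^ n → 0 < Λ → ∀ S : Finset (ℤ × ℤ),
    (∀ x ∈ S, ∃ P m q : ℕ, Cond (2 ^ n) d Λ P x ∧ 12 * (2 : ℝ) ^ n < rad P ∧
      (Odd q ∧ Squarefree q ∧ q ∣ m ∧ m ^ 2 * q ∣ P ∧ P ≤ 2 * (m ^ 2 * q) ∧ rad P ∣ m ∧ 0 < m) ∧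
      (m : ℝ) ≤ d ^ 2 * 2 ^ n ∧ (m, q) = (fun P => (Classical.choose exists_mq P,
        Classical.choose (Classical.choose_spec exists_mq) P)) P) →
    (S.card : ℝ) ≤ C * (6 * n + 2) ^ 2 * ((2 : ℝ) ^ n) ^ ε *
      (d ^ 4 * (2 ^ n) ^ 3 / Λ + (2 ^ n) ^ 3) := by
  classical
  obtain ⟨C₂, hC₂, hR⟩ := sum_inv_rad (ε / 12) (by positivity)
  refine ⟨10 ^ 39 * C₂, by positivity, ?_⟩
  intro n d Λ hd hdZ hΛ S hS
  set Z : ℝ := 2 ^ n with hZdef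
  have hZ : 1 ≤ Z := one_le_pow₀ (by norm_num)
  have hZ0 : 0 < Z := by linarith
  have hd0 : 0 < d := by linarith
  set N : ℕ := (2 ^ n) ^ 6 with hN
  have hNZ : (N : ℝ) = Z ^ 6 := by rw [hN, hZdef]; push_cast; ring
  have hN1 : 1 ≤ N := Nat.one_le_pow _ _ (by positivity)
  set mf := Classical.choose exists_mq with hmf
  set qf := Classical.choose (Classical.choose_spec exists_mq) with hqf
  set K : Finset ℕ := (Icc 1 N).filter (fun P => Λ * rad P ≤ P) with hK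
  set L : ℕ := 6 * n + 2 with hL
  have h1 := card_le_cover S K (fun P x => Cond Z d Λ P x ∧ 12 * Z < rad P ∧
      (Odd (qf P) ∧ Squarefree (qf P) ∧ qf P ∣ mf P ∧ mf P ^ 2 * qf P ∣ P ∧
        P ≤ 2 * (mf P ^ 2 * qf P) ∧ rad P ∣ mf P ∧ 0 < mf P) ∧
      (mf P : ℝ) ≤ d ^ 2 * Z)
    (fun P => (L : ℝ) ^ 2 * (10 ^ 39 * (d ^ 4 * Z ^ 3 / Λ + Z ^ 3) * (1 / (rad P : ℝ)))) ?_ ?_
  · refine h1.trans ?_
    calc ∑ P ∈ K, (L : ℝ) ^ 2 * (10 ^ 39 * (d ^ 4 * Z ^ 3 / Λ + Z ^ 3) * (1 / (rad P : ℝ)))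
        ≤ ∑ P ∈ Icc 1 N, (L : ℝ) ^ 2 *
            (10 ^ 39 * (d ^ 4 * Z ^ 3 / Λ + Z ^ 3) * (1 / (rad P : ℝ))) := by
          refine sum_le_sum_of_subset_of_nonneg (filter_subset _ _) (fun P _ _ => by positivity)
      _ = (L : ℝ) ^ 2 * (10 ^ 39 * (d ^ 4 * Z ^ 3 / Λ + Z ^ 3)) *
          ∑ P ∈ Icc 1 N, (1 / (rad P : ℝ)) := by
          rw [mul_sum]
          refine sum_congr rfl (fun P _ => by ring)
      _ ≤ (L : ℝ) ^ 2 * (10 ^ 39 * (d ^ 4 * Z ^ 3 / Λ + Z ^ 3)) *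
          (C₂ * (N : ℝ) ^ (ε / 12)) := mul_le_mul_of_nonneg_left (hR N hN1) (by positivity)
      _ ≤ (L : ℝ) ^ 2 * (10 ^ 39 * (d ^ 4 * Z ^ 3 / Λ + Z ^ 3)) *
          (C₂ * ((N : ℝ) ^ (ε / 12) * (N : ℝ) ^ (ε / 12))) := by
          have h5 : 1 ≤ (N : ℝ) ^ (ε / 12) :=
            Real.one_le_rpow (by exact_mod_cast hN1) (by positivity)
          gcongr
          nlinarith
      _ = _ := by
          rw [hN, natpow_rpow, hL]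
          push_cast
          ring
  · intro x hx
    obtain ⟨P, m, q, hP, hPr, hmq, hmd, he⟩ := hS x hx
    have e1 : m = mf P := (Prod.mk.inj he).1
    have e2 : q = qf P := (Prod.mk.inj he).2
    subst e1 e2
    refine ⟨P, ?_, hP, hPr, hmq, hmd⟩
    obtain ⟨-, a1, a2, a3, a4, a5, a6⟩ := hP
    rw [hK, mem_filter, mem_Icc]
    refine ⟨⟨a1, ?_⟩, a6⟩
    rw [← hNZ] at a2
    exact_mod_cast a2
  · intro P hP T _ hT
    obtain ⟨hP1, hP2⟩ := mem_filter.1 hP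
    rw [mem_Icc] at hP1
    rcases T.eq_empty_or_nonempty with rfl | ⟨x₀, hx₀⟩
    · simp only [card_empty, Nat.cast_zero]
      positivity
    obtain ⟨-, hPr, ⟨q1, q2, q3, q4, q5, q6, q7⟩, hmd⟩ := hT x₀ hx₀
    set m := mf P
    set q := qf P
    have hq0 : 0 < q := Nat.pos_of_ne_zero (fun h => by rw [h] at q1; simp at q1)
    have hm' : (0 : ℝ) < m := by exact_mod_cast q7
    have hq' : (0 : ℝ) < q := by exact_mod_cast hq0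
    have hP0 : (0 : ℝ) < P := by exact_mod_cast hP1.1
    have hr0 : (0 : ℝ) < rad P := by exact_mod_cast rad_pos P
    have h2 := card_le_cover T (range L ×ˢ range L) (fun ij x => ij.1 ≤ ij.2 ∧
      (2 : ℝ) ^ (ij.1 + ij.2) ≤ 2 * m ∧ ∃ s₁ t₁ s₂ t₂ r h k : ℤ,
        Bas Z d m q x.1 x.2 (2 ^ (ij.1 + 1)) (2 ^ (ij.2 + 1)) s₁ t₁ s₂ t₂ r h k)
      (fun _ => 10 ^ 38 * (d ^ 4 * Z ^ 3 / (m ^ 2 * q) + d ^ 2 * Z ^ 2 / m)) ?_ ?_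
    · refine h2.trans ?_
      rw [sum_const, card_product, card_range, nsmul_eq_mul]
      push_cast
      have e1 : d ^ 4 * Z ^ 3 / ((m : ℝ) ^ 2 * q) ≤ 2 * (d ^ 4 * Z ^ 3 / Λ * (1 / (rad P : ℝ))) := by
        have f1 : (P : ℝ) ≤ 2 * ((m : ℝ) ^ 2 * q) := by exact_mod_cast q5
        have f2 : Λ * rad P ≤ 2 * ((m : ℝ) ^ 2 * q) := hP2.trans f1
        rw [div_mul_div_comm, mul_one, mul_div_assoc', div_le_div_iff₀ (by positivity)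
          (by positivity)]
        have f3 : 0 ≤ d ^ 4 * Z ^ 3 := by positivity
        calc d ^ 4 * Z ^ 3 * (Λ * rad P) ≤ d ^ 4 * Z ^ 3 * (2 * ((m : ℝ) ^ 2 * q)) := by gcongr
          _ = _ := by ring
      have e2 : d ^ 2 * Z ^ 2 / (m : ℝ) ≤ 6 * (Z ^ 3 * (1 / (rad P : ℝ))) := by
        have f1 : (rad P : ℝ) ≤ m := by exact_mod_cast Nat.le_of_dvd q7 q6
        calc d ^ 2 * Z ^ 2 / (m : ℝ) ≤ (6 * Z) * Z ^ 2 / rad P := by gcongr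
          _ = _ := by ring
      have e3 : 0 ≤ d ^ 4 * Z ^ 3 / Λ * (1 / (rad P : ℝ)) := by positivity
      have e4 : 0 ≤ Z ^ 3 * (1 / (rad P : ℝ)) := by positivity
      have e5 : 10 ^ 38 * (d ^ 4 * Z ^ 3 / ((m : ℝ) ^ 2 * q) + d ^ 2 * Z ^ 2 / m) ≤
          10 ^ 39 * (d ^ 4 * Z ^ 3 / Λ + Z ^ 3) * (1 / (rad P : ℝ)) := by
        have : 10 ^ 39 * (d ^ 4 * Z ^ 3 / Λ + Z ^ 3) * (1 / (rad P : ℝ)) =
          10 ^ 38 * (10 * (d ^ 4 * Z ^ 3 / Λ * (1 / (rad P : ℝ))) +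
            10 * (Z ^ 3 * (1 / (rad P : ℝ)))) := by ring
        rw [this]
        gcongr
        · linarith
        · linarith
      calc (L : ℝ) * L * (10 ^ 38 * (d ^ 4 * Z ^ 3 / ((m : ℝ) ^ 2 * q) + d ^ 2 * Z ^ 2 / m))
          = (L : ℝ) ^ 2 * (10 ^ 38 * (d ^ 4 * Z ^ 3 / ((m : ℝ) ^ 2 * q) + d ^ 2 * Z ^ 2 / m)) := by
            ring
        _ ≤ _ := by gcongr
    · intro x hx
      obtain ⟨hc, hPr', ⟨q1, q2, q3, q4, q5, q6, q7⟩, hmd⟩ := hT x hx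
      obtain ⟨i, hi, j, hj, hij, hijm, hB⟩ := hc.bas hd hdZ hPr' q4 q6 q7 hq0
      exact ⟨(i, j), mem_product.2 ⟨hi, hj⟩, hij, hijm, hB⟩
    · rintro ⟨i, j⟩ hij T' _ hT'
      rcases T'.eq_empty_or_nonempty with rfl | ⟨y₀, hy₀⟩
      · simp only [card_empty, Nat.cast_zero]
        positivity
      obtain ⟨c1, c2, -⟩ := hT' y₀ hy₀
      exact countC Z d m q hZ hd hdZ q7 hmd q1 q2 q3 i j c1 c2 T'
        (fun x hx => (hT' x hx).2.2)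

theorem totB (n : ℕ) (d Λ : ℝ) (hd : 1 ≤ d) (hdZ : d ^ 2 ≤ 6 * 2 ^ n)
    (S : Finset (ℤ × ℤ))
    (hS : ∀ x ∈ S, ∃ P m : ℕ, Cond (2 ^ n) d Λ P x ∧ 12 * (2 : ℝ) ^ n < rad P ∧
      (m ^ 2 ∣ P ∧ rad P ∣ m ∧ 0 < m) ∧ d ^ 2 * 2 ^ n < (m : ℝ)) :
    (S.card : ℝ) ≤ 18 * (2 ^ n) ^ 3 +
      (6 * n + 2) ^ 3 * (2 * (729 * 30000 ^ 4 * 16 ^ 7) * (2 ^ n) ^ 3) := by
  classical
  set Z : ℝ := 2 ^ n with hZdef
  have hZ : 1 ≤ Z := one_le_pow₀ (by norm_num)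
  have hZ0 : 0 < Z := by linarith
  have hd0 : 0 < d := by linarith
  set L : ℕ := 6 * n + 2 with hL
  set S₁ := S.filter (fun x => ∃ y : ℤ, y ^ 3 - 3 * x.1 * y + 2 * x.2 = 0) with hS₁
  set S₂ := S.filter (fun x => ¬ ∃ y : ℤ, y ^ 3 - 3 * x.1 * y + 2 * x.2 = 0) with hS₂
  have hsplit : S.card = S₁.card + S₂.card := (card_filter_add_card_filter_not _).symm
  have h1 : (S₁.card : ℝ) ≤ 18 * Z ^ 3 := by
    refine card_red Z hZ S₁ ?_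
    intro x hx
    obtain ⟨hx1, hx2⟩ := mem_filter.1 hx
    obtain ⟨P, m, ⟨⟨a1, a2, -, -⟩, -⟩, -⟩ := hS x hx1
    exact ⟨a1, a2, hx2⟩
  have h2 : (S₂.card : ℝ) ≤ (6 * n + 2) ^ 3 * (2 * (729 * 30000 ^ 4 * 16 ^ 7) * Z ^ 3) := by
    have h3 := card_le_cover S₂ (range L ×ˢ range L ×ˢ range L) (fun ijk x => ijk.1 ≤ ijk.2.1 ∧
      ∃ m : ℕ, (2 : ℝ) ^ ijk.2.2 ≤ m ∧ (m : ℝ) < 2 ^ (ijk.2.2 + 1) ∧ d ^ 2 * Z < m ∧
      (2 : ℝ) ^ (ijk.1 + ijk.2.1) ≤ 2 * m ∧ ∃ s₁ t₁ s₂ t₂ r h k : ℤ,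
        Bas Z d m 1 x.1 x.2 (2 ^ (ijk.1 + 1)) (2 ^ (ijk.2.1 + 1)) s₁ t₁ s₂ t₂ r h k ∧
        fa m r h k s₁ t₁ ≠ 0)
      (fun _ => 2 * (729 * 30000 ^ 4 * 16 ^ 7) * Z ^ 3) ?_ ?_
    · refine h3.trans ?_
      rw [sum_const, card_product, card_product, card_range, nsmul_eq_mul]
      push_cast
      rw [hL]
      push_cast
      apply le_of_eq
      ring
    · intro x hx
      obtain ⟨hx1, hx2⟩ := mem_filter.1 hx
      obtain ⟨P, m, hc, hPr, ⟨hmP, hrm, hm0⟩, hmd⟩ := hS x hx1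
      obtain ⟨i, hi, j, hj, hij, hijm, s₁, t₁, s₂, t₂, r, h, k, hB⟩ :=
        hc.bas (q := 1) hd hdZ hPr (by rw [mul_one]; exact hmP) hrm hm0 one_pos
      have hm1 : (1 : ℝ) ≤ m := by exact_mod_cast hm0
      obtain ⟨k', hk1, hk2⟩ := exists_nat_pow_near hm1 (one_lt_two)
      have hmle : (m : ℝ) ≤ Z ^ 6 := by
        have h4 : m ≤ P := by
          refine Nat.le_of_dvd hc.2.1 (dvd_trans (dvd_pow_self m (by norm_num)) hmP)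
        have h5 : (m : ℝ) ≤ P := by exact_mod_cast h4
        exact h5.trans hc.2.2.1
      have hk'L : k' ∈ range L := by
        rw [mem_range]
        have h6 : (2 : ℝ) ^ k' < 2 ^ L := by
          have e : (2 : ℝ) ^ L = 4 * Z ^ 6 := by
            rw [hL, hZdef, pow_add, mul_comm 6 n, pow_mul]; ring
          rw [e]
          have : 0 < Z ^ 6 := by positivity
          linarith
        exact (pow_lt_pow_iff_right₀ (one_lt_two)).1 h6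
      refine ⟨(i, j, k'), mem_product.2 ⟨hi, mem_product.2 ⟨hj, hk'L⟩⟩, hij, m, hk1, hk2, hmd,
        hijm, s₁, t₁, s₂, t₂, r, h, k, hB, ?_⟩
      intro hfa
      exact hx2 (root_of_fa hB.hA hB.hB hB.ht hfa)
    · rintro ⟨i, j, k'⟩ _ T _ hT
      rcases T.eq_empty_or_nonempty with rfl | ⟨y₀, hy₀⟩
      · simp only [card_empty, Nat.cast_zero]
        positivity
      obtain ⟨c1, m, c2, c3, c4, c5, -⟩ := hT y₀ hy₀
      simp only at c1 c2 c3 c5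
      have hcB := countB Z d (2 ^ k') (2 ^ (i + 1)) (2 ^ (j + 1)) hZ hd hdZ (by positivity)
        (pow_le_pow_right₀ (by norm_num) (by omega)) ?_ T ?_
      · refine hcB.trans ?_
        have h5 : d ^ 2 * Z < 2 * 2 ^ k' := by
          calc d ^ 2 * Z < m := c4
            _ < 2 ^ (k' + 1) := c3
            _ = _ := by ring
        have h6 : d ^ 2 * Z ^ 4 / (2 : ℝ) ^ k' ≤ 2 * Z ^ 3 := by
          rw [div_le_iff₀ (by positivity)]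
          calc d ^ 2 * Z ^ 4 = (d ^ 2 * Z) * Z ^ 3 := by ring
            _ ≤ (2 * 2 ^ k') * Z ^ 3 := by gcongr
            _ = _ := by ring
        calc 729 * 30000 ^ 4 * 16 ^ 7 * (d ^ 2 * Z ^ 4 / (2 : ℝ) ^ k')
            ≤ 729 * 30000 ^ 4 * 16 ^ 7 * (2 * Z ^ 3) := by gcongr
          _ = _ := by ring
      · have e : (2 : ℝ) ^ (i + 1) * 2 ^ (j + 1) = 4 * 2 ^ (i + j) := by
          rw [pow_add, pow_add, pow_add]; ring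
        rw [e]
        have : (2 : ℝ) ^ (k' + 1) = 2 * 2 ^ k' := by ring
        linarith
      · intro x hx
        obtain ⟨-, m', f2, f3, f4, f5, s₁, t₁, s₂, t₂, r, h, k, hB, hne⟩ := hT x hx
        exact ⟨m', f2, s₁, t₁, s₂, t₂, r, h, k, hB, hne⟩
  rw [hsplit]
  push_cast
  linarith

end Pool.Agent.T2H27.Szp
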