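import Mathlib
import Pool.Agent.T2H27.Tot

/-!
# The number of pairs `(A, B)` with a large powerful part: assembly
-/

set_option autoImplicit false

namespace Pool.Agent.T2H27.Szp

open Finset Pool.Agent.H328R2.ABC

/-- powers of `n` are smaller than powers of `2 ^ n` -/
theorem poly_le (ε : ℝ) (hε : 0 < ε) : ∃ C : ℝ, 1 ≤ C ∧ ∀ n : ℕ,
    ((6 * n + 2 : ℕ) : ℝ) ^ 3 ≤ C * ((2 : ℝ) ^ n) ^ ε := by
  set c : ℝ := ε / 3 * Real.log 2 with hc
  have hlog : 0 < Real.log 2 := Real.log_pos (by norm_num)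
  have hc0 : 0 < c := by positivity
  set K : ℝ := max 2 (6 / c) with hK
  have hK2 : 2 ≤ K := le_max_left _ _
  have hK6 : 6 / c ≤ K := le_max_right _ _
  refine ⟨K ^ 3, one_le_pow₀ (by linarith), fun n => ?_⟩
  have h1 : ((2 : ℝ) ^ n) ^ ε = (Real.exp (n * c)) ^ 3 := by
    rw [← Real.exp_nat_mul, ← Real.rpow_natCast, ← Real.rpow_mul (by norm_num),
      Real.rpow_def_of_pos (by norm_num)]
    congr 1
    rw [hc]
    push_cast
    ring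
  rw [h1, ← mul_pow]
  have h2 : (n : ℝ) * c + 1 ≤ Real.exp (n * c) := Real.add_one_le_exp _
  have h3 : ((6 * n + 2 : ℕ) : ℝ) ≤ K * Real.exp (n * c) := by
    push_cast
    have h4 : 6 ≤ K * c := by
      rw [div_le_iff₀ hc0] at hK6
      exact hK6
    have h5 : K * ((n : ℝ) * c + 1) ≤ K * Real.exp (n * c) :=
      mul_le_mul_of_nonneg_left h2 (by linarith)
    have h6 : 6 * (n : ℝ) ≤ K * c * n := mul_le_mul_of_nonneg_right h4 (Nat.cast_nonneg _)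
    nlinarith
  exact pow_le_pow_left₀ (by positivity) h3 3

/-- **The number of pairs.** -/
theorem main_pairs (ε : ℝ) (hε : 0 < ε) : ∃ C : ℝ, 0 < C ∧ ∀ (n : ℕ) (d Λ : ℝ), 1 ≤ d →
    d ^ 2 ≤ 6 * 2 ^ n → 0 < Λ → ∀ S : Finset (ℤ × ℤ),
    (∀ x ∈ S, ∃ P : ℕ, Cond (2 ^ n) d Λ P x) →
    (S.card : ℝ) ≤ C * ((2 : ℝ) ^ n) ^ ε * (d ^ 4 * (2 ^ n) ^ 3 / Λ + (2 ^ n) ^ 3) := by
  classical
  obtain ⟨CA, hCA, hA⟩ := totA ε hε
  obtain ⟨CC, hCC, hC⟩ := totC (ε / 2) (by positivity)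
  obtain ⟨K, hK, hpoly⟩ := poly_le (ε / 2) (by positivity)
  set B₀ : ℝ := 2 * (729 * 30000 ^ 4 * 16 ^ 7) with hB₀
  refine ⟨CA + CC * K + (18 + K * B₀), by positivity, ?_⟩
  intro n d Λ hd hdZ hΛ S hS
  set Z : ℝ := 2 ^ n with hZdef
  have hZ : 1 ≤ Z := one_le_pow₀ (by norm_num)
  have hZ0 : 0 < Z := by linarith
  set mf := Classical.choose exists_mq with hmf
  set qf := Classical.choose (Classical.choose_spec exists_mq) with hqf
  have hmq := Classical.choose_spec (Classical.choose_spec exists_mq)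
  choose! P hP using hS
  set SA := S.filter (fun x => (rad (P x) : ℝ) ≤ 12 * Z) with hSA
  set SR := S.filter (fun x => ¬ (rad (P x) : ℝ) ≤ 12 * Z) with hSR
  set SC := SR.filter (fun x => (mf (P x) : ℝ) ≤ d ^ 2 * Z) with hSC
  set SB := SR.filter (fun x => ¬ (mf (P x) : ℝ) ≤ d ^ 2 * Z) with hSB
  have hs1 : S.card = SA.card + SR.card := (card_filter_add_card_filter_not _).symm
  have hs2 : SR.card = SC.card + SB.card := (card_filter_add_card_filter_not _).symm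
  have h1 : (SA.card : ℝ) ≤ CA * Z ^ ε * (d ^ 4 * Z ^ 3 / Λ + Z ^ 3) := by
    refine hA n d Λ hd hΛ SA ?_
    intro x hx
    obtain ⟨hx1, hx2⟩ := mem_filter.1 hx
    exact ⟨P x, hP x hx1, hx2⟩
  have h2 : (SC.card : ℝ) ≤ CC * (6 * n + 2) ^ 2 * Z ^ (ε / 2) *
      (d ^ 4 * Z ^ 3 / Λ + Z ^ 3) := by
    refine hC n d Λ hd hdZ hΛ SC ?_
    intro x hx
    obtain ⟨hx1, hx2⟩ := mem_filter.1 hx
    obtain ⟨hx3, hx4⟩ := mem_filter.1 hx1
    have hPx := hP x hx3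
    push Not at hx4
    refine ⟨P x, mf (P x), qf (P x), hPx, hx4, hmq (P x) hPx.2.1 hPx.2.2.2.1, hx2, rfl⟩
  have h3 : (SB.card : ℝ) ≤ 18 * Z ^ 3 + (6 * n + 2) ^ 3 * (B₀ * Z ^ 3) := by
    refine totB n d Λ hd hdZ SB ?_
    intro x hx
    obtain ⟨hx1, hx2⟩ := mem_filter.1 hx
    obtain ⟨hx3, hx4⟩ := mem_filter.1 hx1
    have hPx := hP x hx3
    push Not at hx4 hx2
    obtain ⟨q1, q2, q3, q4, q5, q6, q7⟩ := hmq (P x) hPx.2.1 hPx.2.2.2.1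
    exact ⟨P x, mf (P x), hPx, hx4, ⟨dvd_trans (dvd_mul_right _ _) q4, q6, q7⟩, hx2⟩
  have hp := hpoly n
  push_cast at hp
  have hZε : 1 ≤ Z ^ (ε / 2) := Real.one_le_rpow hZ (by positivity)
  have hZ2 : Z ^ (ε / 2) * Z ^ (ε / 2) = Z ^ ε := by
    rw [← Real.rpow_add hZ0]
    congr 1
    ring
  have hZε' : Z ^ (ε / 2) ≤ Z ^ ε := by
    rw [← hZ2]; nlinarith
  have hZε1 : 1 ≤ Z ^ ε := hZε.trans hZε'
  set G : ℝ := d ^ 4 * Z ^ 3 / Λ + Z ^ 3 with hG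
  have hG3 : Z ^ 3 ≤ G := by
    have : 0 ≤ d ^ 4 * Z ^ 3 / Λ := by positivity
    rw [hG]; linarith
  have hG0 : 0 ≤ G := le_trans (by positivity) hG3
  have hn : (1 : ℝ) ≤ 6 * n + 2 := by
    have : (0 : ℝ) ≤ n := Nat.cast_nonneg _
    linarith
  have h2' : (SC.card : ℝ) ≤ CC * K * Z ^ ε * G := by
    refine h2.trans ?_
    have e1 : ((6 : ℝ) * n + 2) ^ 2 ≤ K * Z ^ (ε / 2) := by
      refine le_trans ?_ hp
      exact pow_le_pow_right₀ hn (by norm_num)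
    calc CC * (6 * n + 2) ^ 2 * Z ^ (ε / 2) * G ≤ CC * (K * Z ^ (ε / 2)) * Z ^ (ε / 2) * G := by
          gcongr
      _ = CC * K * (Z ^ (ε / 2) * Z ^ (ε / 2)) * G := by ring
      _ = _ := by rw [hZ2]
  have h3' : (SB.card : ℝ) ≤ (18 + K * B₀) * Z ^ ε * G := by
    refine h3.trans ?_
    have e2 : ((6 : ℝ) * n + 2) ^ 3 ≤ K * Z ^ ε :=
      hp.trans (mul_le_mul_of_nonneg_left hZε' (by linarith))
    have hB0 : 0 ≤ B₀ := by rw [hB₀]; norm_num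
    calc 18 * Z ^ 3 + (6 * n + 2) ^ 3 * (B₀ * Z ^ 3)
        ≤ 18 * G + (K * Z ^ ε) * (B₀ * G) := by gcongr
      _ ≤ 18 * (Z ^ ε * G) + (K * Z ^ ε) * (B₀ * G) := by
          have : G ≤ Z ^ ε * G := by nlinarith
          linarith
      _ = _ := by ring
  rw [hs1, hs2]
  push_cast
  calc (SA.card : ℝ) + (SC.card + SB.card) ≤ CA * Z ^ ε * G + (CC * K * Z ^ ε * G +
      (18 + K * B₀) * Z ^ ε * G) := by gcongr
    _ = _ := by ring

end Pool.Agent.T2H27.Szp
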