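import Mathlib
import Pool.Agent.T2H27.MainP

/-!
# From semistable curves to pairs
-/

set_option autoImplicit false

namespace Pool.Agent.T2H27.Szp

open Finset Pool.Agent.H328R2.ABC

/-- the conditions attached to a semistable curve -/
theorem exists_cond (W : WeierstrassCurve ℤ) (hΔ : W.Δ ≠ 0) (hc : IsCoprime W.c₄ W.Δ) (n₀ : ℕ)
    (h4 : |(W.c₄ : ℝ)| ≤ ((2 : ℝ) ^ n₀) ^ 2) (h6 : |(W.c₆ : ℝ)| ≤ ((2 : ℝ) ^ n₀) ^ 3) :
    ∃ n ∈ range (n₀ + 1), ∃ l ∈ range (n + 3), ((2 : ℝ) ^ l) ^ 2 ≤ 6 * 2 ^ n ∧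
      (l = 0 ∨ ((2 : ℝ) ^ l) ^ 4 * (2 ^ n) ^ 4 < 27648 * |(W.Δ : ℝ)|) ∧
      ∃ P : ℕ, W.Δ.natAbs * rad P = rad W.Δ.natAbs * P ∧
        ∀ Λ : ℝ, Λ * rad P ≤ P → Cond (2 ^ n) (2 ^ l) Λ P (W.c₄, W.c₆) := by
  classical
  have hrel : 1728 * W.Δ = W.c₄ ^ 3 - W.c₆ ^ 2 := W.c_relation
  have hrelR : 1728 * (W.Δ : ℝ) = (W.c₄ : ℝ) ^ 3 - (W.c₆ : ℝ) ^ 2 := by exact_mod_cast hrel
  have hΔR : (W.Δ : ℝ) ≠ 0 := by exact_mod_cast hΔ
  -- the height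
  have hex : ∃ n : ℕ, |(W.c₄ : ℝ)| ≤ ((2 : ℝ) ^ n) ^ 2 ∧ |(W.c₆ : ℝ)| ≤ ((2 : ℝ) ^ n) ^ 3 :=
    ⟨n₀, h4, h6⟩
  set n := Nat.find hex with hn
  obtain ⟨hn4, hn6⟩ := Nat.find_spec hex
  rw [← hn] at hn4 hn6
  have hnle : n ≤ n₀ := Nat.find_min' hex ⟨h4, h6⟩
  set Z : ℝ := 2 ^ n with hZdef
  have hZ : 1 ≤ Z := one_le_pow₀ (by norm_num)
  have hZ0 : 0 < Z := by linarith
  have hsh : Z ^ 2 / 4 < |(W.c₄ : ℝ)| ∨ Z ^ 3 / 8 < |(W.c₆ : ℝ)| := by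
    rcases Nat.eq_zero_or_pos n with h0 | h0
    · have hZ1 : Z = 1 := by rw [hZdef, h0, pow_zero]
      by_cases h4z : W.c₄ = 0
      · right
        have h6z : W.c₆ ≠ 0 := by
          intro h6z
          rw [h4z, h6z] at hrel
          apply hΔ
          have : 1728 * W.Δ = 0 := by rw [hrel]; norm_num
          omega
        have : (1 : ℝ) ≤ |(W.c₆ : ℝ)| := by exact_mod_cast Int.one_le_abs h6z
        rw [hZ1]; linarith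
      · left
        have : (1 : ℝ) ≤ |(W.c₄ : ℝ)| := by exact_mod_cast Int.one_le_abs h4z
        rw [hZ1]; linarith
    · have hmin := Nat.find_min hex (m := n - 1) (by omega)
      by_contra hcon
      push Not at hcon
      apply hmin
      have hZ2 : Z = 2 * 2 ^ (n - 1) := by
        rw [hZdef, ← pow_succ']
        congr 1
        omega
      constructor
      · have := hcon.1
        rw [hZ2] at this
        linarith [show (2 * (2 : ℝ) ^ (n - 1)) ^ 2 / 4 = (2 ^ (n - 1)) ^ 2 by ring]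
      · have := hcon.2
        rw [hZ2] at this
        linarith [show (2 * (2 : ℝ) ^ (n - 1)) ^ 3 / 8 = (2 ^ (n - 1)) ^ 3 by ring]
  -- the discriminant
  have hDle : |(W.c₄ : ℝ) ^ 3 - (W.c₆ : ℝ) ^ 2| ≤ 2 * Z ^ 6 := by
    refine (abs_sub _ _).trans ?_
    rw [abs_pow, abs_pow]
    have e1 : |(W.c₄ : ℝ)| ^ 3 ≤ (Z ^ 2) ^ 3 := by gcongr
    have e2 : |(W.c₆ : ℝ)| ^ 2 ≤ (Z ^ 3) ^ 2 := by gcongr
    have e3 : (Z ^ 2) ^ 3 = Z ^ 6 := by ring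
    have e4 : (Z ^ 3) ^ 2 = Z ^ 6 := by ring
    linarith
  have hexl : ∃ l : ℕ, |(W.c₄ : ℝ) ^ 3 - (W.c₆ : ℝ) ^ 2| ≤ ((2 : ℝ) ^ l) ^ 4 * Z ^ 4 := by
    refine ⟨n + 1, hDle.trans ?_⟩
    have e : ((2 : ℝ) ^ (n + 1)) ^ 4 = 16 * Z ^ 4 := by
      rw [hZdef, pow_succ]; ring
    rw [e]
    have h1 : Z ^ 6 ≤ Z ^ 8 := pow_le_pow_right₀ hZ (by norm_num)
    nlinarith [pow_pos hZ0 6]
  set l := Nat.find hexl with hl
  have hlspec := Nat.find_spec hexl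
  rw [← hl] at hlspec
  have hl2 : l = 0 ∨ ((2 : ℝ) ^ l) ^ 4 * Z ^ 4 < 16 * |(W.c₄ : ℝ) ^ 3 - (W.c₆ : ℝ) ^ 2| := by
    rcases Nat.eq_zero_or_pos l with h0 | h0
    · exact Or.inl h0
    · right
      have hmin := Nat.find_min hexl (m := l - 1) (by omega)
      push Not at hmin
      have e : (2 : ℝ) ^ l = 2 * 2 ^ (l - 1) := by
        rw [← pow_succ']
        congr 1
        omega
      rw [e]
      nlinarith
  have hlZ : ((2 : ℝ) ^ l) ^ 2 ≤ 6 * Z := by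
    rcases hl2 with h0 | h0
    · rw [h0]
      norm_num
      linarith
    · have h1 : ((2 : ℝ) ^ l) ^ 4 * Z ^ 4 < 36 * Z ^ 2 * Z ^ 4 := by
        calc ((2 : ℝ) ^ l) ^ 4 * Z ^ 4 < 16 * |(W.c₄ : ℝ) ^ 3 - (W.c₆ : ℝ) ^ 2| := h0
          _ ≤ 16 * (2 * Z ^ 6) := by gcongr
          _ ≤ 36 * Z ^ 2 * Z ^ 4 := by nlinarith [pow_pos hZ0 6]
      have h2 : ((2 : ℝ) ^ l) ^ 4 < 36 * Z ^ 2 := lt_of_mul_lt_mul_right h1 (by positivity)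
      have h3 : (((2 : ℝ) ^ l) ^ 2) ^ 2 ≤ (6 * Z) ^ 2 := by
        have e1 : (((2 : ℝ) ^ l) ^ 2) ^ 2 = ((2 : ℝ) ^ l) ^ 4 := by ring
        have e2 : (6 * Z) ^ 2 = 36 * Z ^ 2 := by ring
        rw [e1, e2]; exact h2.le
      exact le_of_sq_le_sq h3 (by positivity)
  have hln : l < n + 3 := by
    have h1 : (2 : ℝ) ^ (2 * l) < 2 ^ (n + 3) := by
      calc (2 : ℝ) ^ (2 * l) = ((2 : ℝ) ^ l) ^ 2 := by rw [mul_comm, pow_mul]
        _ ≤ 6 * Z := hlZ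
        _ < 8 * Z := by linarith
        _ = 2 ^ (n + 3) := by rw [hZdef, pow_add]; ring
    have := (pow_lt_pow_iff_right₀ (one_lt_two)).1 h1
    omega
  -- the powerful part
  have hΔn : W.Δ.natAbs ≠ 0 := Int.natAbs_ne_zero.2 hΔ
  obtain ⟨P, N, e1, c1, s1, p1⟩ := powerful_split W.Δ.natAbs hΔn
  have hP0 : 0 < P := Nat.pos_of_ne_zero (fun h => hΔn (by rw [e1, h, zero_mul]))
  have hN0 : 0 < N := Nat.pos_of_ne_zero (fun h => hΔn (by rw [e1, h, mul_zero]))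
  have hPdvd : (P : ℤ) ∣ W.Δ := Int.natCast_dvd.2 ⟨N, e1⟩
  refine ⟨n, mem_range.2 (by omega), l, mem_range.2 hln, hlZ, ?_, P, ?_, ?_⟩
  · rcases hl2 with h0 | h0
    · exact Or.inl h0
    · right
      rw [← hrelR, abs_mul, abs_of_pos (by norm_num : (0 : ℝ) < 1728)] at h0
      linarith
  · rw [e1, rad_mul_cop c1, rad_squarefree s1]
    ring
  · intro Λ hΛ
    refine ⟨⟨hn4, hn6, hsh, hlspec⟩, hP0, ?_, p1, ?_, ?_, hΛ⟩
    · have h1 : (P : ℝ) ≤ |(W.Δ : ℝ)| := by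
        have h2 : P ≤ W.Δ.natAbs := Nat.le_of_dvd (Nat.pos_of_ne_zero hΔn) ⟨N, e1⟩
        have h3 : ((W.Δ.natAbs : ℕ) : ℝ) = |(W.Δ : ℝ)| := by
          rw [Nat.cast_natAbs]; push_cast; rfl
        rw [← h3]
        exact_mod_cast h2
      have h4 : 1728 * |(W.Δ : ℝ)| ≤ 2 * Z ^ 6 := by
        have : 1728 * |(W.Δ : ℝ)| = |1728 * (W.Δ : ℝ)| := by
          rw [abs_mul, abs_of_pos (by norm_num : (0 : ℝ) < 1728)]
        rw [this, hrelR]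
        exact hDle
      have : 0 < Z ^ 6 := by positivity
      linarith
    · exact hc.of_isCoprime_of_dvd_right hPdvd
    · show (P : ℤ) ∣ W.c₄ ^ 3 - W.c₆ ^ 2
      rw [← hrel]
      exact Dvd.dvd.mul_left hPdvd _

end Pool.Agent.T2H27.Szp
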