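import Mathlib
import Pool.Agent.T2H27.Curve
import Pool.Agent.R417.LD.Gen

/-!
# The exceptional set of Szpiro's conjecture for all semistable curves
-/

set_option autoImplicit false

namespace Pool.Agent.T2H27.Szp

open Finset Filter Topology Pool.Agent.H328R2.ABC

/-- the semistable curves of height at most `X⁶` with `c₀ N ^ κ < |Δ|` -/
def Exc (κ c₀ X : ℝ) : Set (ℤ × ℤ) :=
  {q | ∃ W : WeierstrassCurve ℤ, W.Δ ≠ 0 ∧ IsCoprime W.c₄ W.Δ ∧ q = (W.c₄, W.c₆) ∧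
    |(W.c₄ : ℝ)| ^ 3 ≤ X ^ 6 ∧ (W.c₆ : ℝ) ^ 2 ≤ X ^ 6 ∧
    c₀ * (rad W.Δ.natAbs : ℝ) ^ κ < |(W.Δ : ℝ)|}

theorem size {a b X : ℝ} (hX : 0 ≤ X) (h4 : |a| ^ 3 ≤ X ^ 6) (h6 : b ^ 2 ≤ X ^ 6) :
    |a| ≤ X ^ 2 ∧ |b| ≤ X ^ 3 := by
  constructor
  · have e : X ^ 6 = (X ^ 2) ^ 3 := by ring
    rw [e] at h4
    exact le_of_pow_le_pow_left₀ (by norm_num) (by positivity) h4
  · have e : X ^ 6 = (X ^ 3) ^ 2 := by ring
    rw [e] at h6
    exact abs_le_of_sq_le_sq h6 (by positivity)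

theorem exc_finite (κ c₀ X : ℝ) (hX : 0 ≤ X) : (Exc κ c₀ X).Finite := by
  refine Set.Finite.subset (Finset.finite_toSet (I (X ^ 2) ×ˢ I (X ^ 3))) ?_
  rintro q ⟨W, -, -, rfl, h4, h6, -⟩
  obtain ⟨h1, h2⟩ := size hX h4 h6
  rw [mem_coe, mem_product]
  exact ⟨mem_I.2 h1, mem_I.2 h2⟩

theorem upper (κ c₀ ε : ℝ) (hκ : 1 ≤ κ) (hc₀ : 0 < c₀) (hε : 0 < ε) :
    ∃ C : ℝ, 0 < C ∧ ∀ X : ℝ, 1 ≤ X →
      ((Exc κ c₀ X).ncard : ℝ) ≤ C * X ^ (max (6 / κ - 1) 3 + ε) := by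
  classical
  have hκ0 : 0 < κ := by linarith
  obtain ⟨C₁, hC₁, hmain⟩ := main_pairs (ε / 3) (by positivity)
  obtain ⟨K₁, hK₁, hpoly⟩ := poly_le (ε / 3) (by positivity)
  set a : ℝ := 1 / κ with ha
  have ha0 : 0 < a := by positivity
  have ha1 : a ≤ 1 := by rw [ha, div_le_one hκ0]; exact hκ
  have ha1' : 0 ≤ 1 - a := by linarith
  set E : ℝ := max (6 / κ - 1) 3 with hE
  have hE3 : 3 ≤ E := le_max_right _ _
  have hE6 : 6 / κ - 1 ≤ E := le_max_left _ _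
  set G : ℝ := 27648 * 36 * (c₀ ^ a)⁻¹ + 2 with hG
  have hc₀a : 0 < c₀ ^ a := by positivity
  have hG0 : 2 ≤ G := by
    have : 0 ≤ 27648 * 36 * (c₀ ^ a)⁻¹ := by positivity
    rw [hG]; linarith
  -- the threshold
  set Λ : ℕ → ℕ → ℝ := fun n l => if l = 0 then 1 else
    c₀ ^ a * (((2 : ℝ) ^ l) ^ 4 * (2 ^ n) ^ 4 / 27648) ^ (1 - a) with hΛ
  have hΛ0 : ∀ n l, 0 < Λ n l := by
    intro n l
    simp only [hΛ]
    split_ifs
    · exact one_pos
    · positivity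
  set b : ℕ × ℕ → ℝ := fun nl => if ((2 : ℝ) ^ nl.2) ^ 2 ≤ 6 * 2 ^ nl.1 then
    C₁ * ((2 : ℝ) ^ nl.1) ^ (ε / 3) *
      (((2 : ℝ) ^ nl.2) ^ 4 * (2 ^ nl.1) ^ 3 / Λ nl.1 nl.2 + (2 ^ nl.1) ^ 3) else 0 with hb
  -- the bound for one pair (n, l)
  have hbound : ∀ nl : ℕ × ℕ, b nl ≤ C₁ * (G + 1) * ((2 : ℝ) ^ nl.1) ^ (E + ε / 3) := by
    rintro ⟨n, l⟩
    simp only [hb]
    set Z : ℝ := 2 ^ n with hZdef
    have hZ : 1 ≤ Z := one_le_pow₀ (by norm_num)
    have hZ0 : 0 < Z := by linarith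
    split_ifs with hlZ
    swap
    · positivity
    have h3 : Z ^ 3 ≤ Z ^ E := by
      rw [← Real.rpow_natCast]
      exact Real.rpow_le_rpow_of_exponent_le hZ (by push_cast; exact hE3)
    have hmainb : ((2 : ℝ) ^ l) ^ 4 * Z ^ 3 / Λ n l ≤ G * Z ^ E := by
      simp only [hΛ]
      split_ifs with hl0
      · rw [hl0]
        norm_num
        nlinarith [Real.rpow_pos_of_pos hZ0 E]
      · set D : ℝ := ((2 : ℝ) ^ l) ^ 4 * Z ^ 4 with hD
        have hD0 : 0 < D := by positivity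
        have hD36 : D ≤ 36 * Z ^ 6 := by
          have : D = (((2 : ℝ) ^ l) ^ 2) ^ 2 * Z ^ 4 := by rw [hD]; ring
          rw [this]
          calc (((2 : ℝ) ^ l) ^ 2) ^ 2 * Z ^ 4 ≤ (6 * Z) ^ 2 * Z ^ 4 := by gcongr
            _ = _ := by ring
        have e1 : ((2 : ℝ) ^ l) ^ 4 * Z ^ 3 = D / Z := by
          rw [hD]; field_simp
        have e2 : D / Z / (c₀ ^ a * (D / 27648) ^ (1 - a)) =
            (c₀ ^ a)⁻¹ * 27648 ^ (1 - a) * (D ^ a / Z) := by
          have hDa : D = D ^ a * D ^ (1 - a) := by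
            rw [← Real.rpow_add hD0]
            norm_num
          rw [Real.div_rpow hD0.le (by norm_num)]
          have h27 : (0 : ℝ) < 27648 ^ (1 - a) := by positivity
          have hD1 : 0 < D ^ (1 - a) := by positivity
          have hDa0 : 0 < D ^ a := by positivity
          have : D / Z / (c₀ ^ a * (D ^ (1 - a) / 27648 ^ (1 - a))) =
            (c₀ ^ a)⁻¹ * 27648 ^ (1 - a) * ((D / D ^ (1 - a)) / Z) := by
            field_simp
          rw [this]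
          congr 2
          rw [div_eq_iff hD1.ne']
          exact hDa
        rw [e1, e2]
        have e3 : (27648 : ℝ) ^ (1 - a) ≤ 27648 := by
          calc (27648 : ℝ) ^ (1 - a) ≤ 27648 ^ (1 : ℝ) :=
                Real.rpow_le_rpow_of_exponent_le (by norm_num) (by linarith)
            _ = _ := Real.rpow_one _
        have e4 : D ^ a ≤ 36 * Z ^ (6 / κ) := by
          calc D ^ a ≤ (36 * Z ^ 6) ^ a := Real.rpow_le_rpow hD0.le hD36 ha0.le
            _ = 36 ^ a * Z ^ (6 / κ) := by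
              rw [Real.mul_rpow (by norm_num) (by positivity), ← Real.rpow_natCast Z 6,
                ← Real.rpow_mul hZ0.le]
              congr 2
              rw [ha]
              push_cast
              ring
            _ ≤ 36 ^ (1 : ℝ) * Z ^ (6 / κ) := by
              gcongr
              norm_num
            _ = _ := by rw [Real.rpow_one]
        have e5 : D ^ a / Z ≤ 36 * Z ^ E := by
          rw [div_le_iff₀ hZ0]
          refine e4.trans ?_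
          have : Z ^ (6 / κ) = Z ^ (6 / κ - 1) * Z := by
            conv_lhs => rw [show 6 / κ = (6 / κ - 1) + 1 by ring]
            rw [Real.rpow_add hZ0, Real.rpow_one]
          rw [this]
          have h5 : Z ^ (6 / κ - 1) ≤ Z ^ E := Real.rpow_le_rpow_of_exponent_le hZ hE6
          calc 36 * (Z ^ (6 / κ - 1) * Z) ≤ 36 * (Z ^ E * Z) := by gcongr
            _ = _ := by ring
        have hZE : 0 < Z ^ E := by positivity
        calc (c₀ ^ a)⁻¹ * 27648 ^ (1 - a) * (D ^ a / Z)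
            ≤ (c₀ ^ a)⁻¹ * 27648 * (36 * Z ^ E) := by gcongr
          _ = (27648 * 36 * (c₀ ^ a)⁻¹) * Z ^ E := by ring
          _ ≤ G * Z ^ E := by
            rw [hG]
            nlinarith
    calc C₁ * Z ^ (ε / 3) * (((2 : ℝ) ^ l) ^ 4 * Z ^ 3 / Λ n l + Z ^ 3)
        ≤ C₁ * Z ^ (ε / 3) * (G * Z ^ E + Z ^ E) := by gcongr
      _ = C₁ * (G + 1) * (Z ^ E * Z ^ (ε / 3)) := by ring
      _ = _ := by rw [← Real.rpow_add hZ0]
  refine ⟨K₁ * (C₁ * (G + 1)) * (2 ^ (E + ε / 3) * 2 ^ (ε / 3)), by positivity, ?_⟩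
  intro X hX
  have hX0 : 0 < X := by linarith
  have hfin := exc_finite κ c₀ X hX0.le
  obtain ⟨n₁, hn1, hn2⟩ := exists_nat_pow_near hX (one_lt_two)
  set n₀ := n₁ + 1 with hn₀
  have hXn : X ≤ 2 ^ n₀ := hn2.le
  have hnX : (2 : ℝ) ^ n₀ ≤ 2 * X := by rw [hn₀, pow_succ]; linarith
  set S : Finset (ℤ × ℤ) := hfin.toFinset with hS
  have hcard : ((Exc κ c₀ X).ncard : ℝ) = S.card := by
    rw [Set.ncard_eq_toFinset_card _ hfin]
  rw [hcard]
  have hcov := card_le_cover S (range (n₀ + 1) ×ˢ range (n₀ + 3))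
    (fun nl x => ((2 : ℝ) ^ nl.2) ^ 2 ≤ 6 * 2 ^ nl.1 ∧
      ∃ P : ℕ, Cond (2 ^ nl.1) (2 ^ nl.2) (Λ nl.1 nl.2) P x) b ?_ ?_
  · refine hcov.trans ?_
    calc ∑ nl ∈ range (n₀ + 1) ×ˢ range (n₀ + 3), b nl
        ≤ ∑ nl ∈ range (n₀ + 1) ×ˢ range (n₀ + 3),
            C₁ * (G + 1) * ((2 : ℝ) ^ n₀) ^ (E + ε / 3) := by
          refine sum_le_sum (fun nl hnl => (hbound nl).trans ?_)
          have h1 := (mem_product.1 hnl).1
          rw [mem_range] at h1
          gcongr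
          · norm_num
          · omega
      _ = ((n₀ + 1 : ℕ) : ℝ) * ((n₀ + 3 : ℕ) : ℝ) *
            (C₁ * (G + 1) * ((2 : ℝ) ^ n₀) ^ (E + ε / 3)) := by
          rw [sum_const, card_product, card_range, card_range, nsmul_eq_mul]
          push_cast
          ring
      _ ≤ (K₁ * ((2 : ℝ) ^ n₀) ^ (ε / 3)) * (C₁ * (G + 1) * ((2 : ℝ) ^ n₀) ^ (E + ε / 3)) := by
          have h1 : ((n₀ + 1 : ℕ) : ℝ) * ((n₀ + 3 : ℕ) : ℝ) ≤ ((6 * n₀ + 2 : ℕ) : ℝ) ^ 3 := by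
            have : (n₀ + 1) * (n₀ + 3) ≤ (6 * n₀ + 2) ^ 3 := by
              have h2 : n₀ + 1 ≤ 6 * n₀ + 2 := by omega
              have h3 : n₀ + 3 ≤ (6 * n₀ + 2) ^ 2 := by nlinarith
              calc (n₀ + 1) * (n₀ + 3) ≤ (6 * n₀ + 2) * (6 * n₀ + 2) ^ 2 :=
                    Nat.mul_le_mul h2 h3
                _ = _ := by ring
            exact_mod_cast this
          have h2 := h1.trans (hpoly n₀)
          gcongr
      _ ≤ (K₁ * (2 * X) ^ (ε / 3)) * (C₁ * (G + 1) * (2 * X) ^ (E + ε / 3)) := by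
          gcongr
      _ = K₁ * (C₁ * (G + 1)) * (2 ^ (E + ε / 3) * 2 ^ (ε / 3)) *
          (X ^ (E + ε / 3) * X ^ (ε / 3)) := by
          rw [Real.mul_rpow (by norm_num) hX0.le, Real.mul_rpow (by norm_num) hX0.le]
          ring
      _ ≤ K₁ * (C₁ * (G + 1)) * (2 ^ (E + ε / 3) * 2 ^ (ε / 3)) * X ^ (E + ε) := by
          rw [← Real.rpow_add hX0]
          have h9 : X ^ (E + ε / 3 + ε / 3) ≤ X ^ (E + ε) :=
            Real.rpow_le_rpow_of_exponent_le hX (by linarith)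
          exact mul_le_mul_of_nonneg_left h9 (by positivity)
  · intro x hx
    rw [hS, Set.Finite.mem_toFinset] at hx
    obtain ⟨W, hΔ, hc, rfl, h4, h6, hbig⟩ := hx
    obtain ⟨s4, s6⟩ := size hX0.le h4 h6
    obtain ⟨n, hn, l, hl, hlZ, hl', P, hPN, hP⟩ := exists_cond W hΔ hc n₀
      (s4.trans (by gcongr)) (s6.trans (by gcongr))
    rw [mem_range] at hn hl
    refine ⟨(n, l), mem_product.2 ⟨mem_range.2 (by omega), mem_range.2 (by simp only; omega)⟩, hlZ,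
      P, hP _ ?_⟩
    -- the inequality between `P` and its radical
    have hΔR : (W.Δ : ℝ) ≠ 0 := by exact_mod_cast hΔ
    have hΔp : 0 < |(W.Δ : ℝ)| := abs_pos.2 hΔR
    have hPN' : |(W.Δ : ℝ)| * rad P = rad W.Δ.natAbs * P := by
      have h3 : ((W.Δ.natAbs : ℕ) : ℝ) = |(W.Δ : ℝ)| := by
        rw [Nat.cast_natAbs]; push_cast; rfl
      rw [← h3]
      exact_mod_cast hPN
    have hNpos : (0 : ℝ) < rad W.Δ.natAbs := by exact_mod_cast rad_pos _
    have hrP : (0 : ℝ) < rad P := by exact_mod_cast rad_pos P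
    set N : ℝ := (rad W.Δ.natAbs : ℝ) with hN
    have hkey : Λ n l * N ≤ |(W.Δ : ℝ)| := by
      simp only [hΛ]
      split_ifs with hl0
      · rw [one_mul]
        have h1 : rad W.Δ.natAbs ≤ W.Δ.natAbs :=
          Nat.le_of_dvd (Int.natAbs_pos.2 hΔ) (rad_dvd _)
        have h3 : ((W.Δ.natAbs : ℕ) : ℝ) = |(W.Δ : ℝ)| := by
          rw [Nat.cast_natAbs]; push_cast; rfl
        rw [← h3, hN]
        exact_mod_cast h1
      · have hD := hl'.resolve_left hl0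
        have h1 : N ^ κ < |(W.Δ : ℝ)| / c₀ := by
          rw [lt_div_iff₀ hc₀]
          linarith
        have h2 : N < (|(W.Δ : ℝ)| / c₀) ^ a := by
          have h3 : N = (N ^ κ) ^ a := by
            rw [← Real.rpow_mul hNpos.le, ha, mul_one_div_cancel hκ0.ne', Real.rpow_one]
          rw [h3]
          exact Real.rpow_lt_rpow (by positivity) h1 ha0
        have h4' : ((2 : ℝ) ^ l) ^ 4 * (2 ^ n) ^ 4 / 27648 ≤ |(W.Δ : ℝ)| := by
          rw [div_le_iff₀ (by norm_num)]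
          linarith
        have h5 : (((2 : ℝ) ^ l) ^ 4 * (2 ^ n) ^ 4 / 27648) ^ (1 - a) ≤
            |(W.Δ : ℝ)| ^ (1 - a) := Real.rpow_le_rpow (by positivity) h4' ha1'
        calc c₀ ^ a * (((2 : ℝ) ^ l) ^ 4 * (2 ^ n) ^ 4 / 27648) ^ (1 - a) * N
            ≤ c₀ ^ a * |(W.Δ : ℝ)| ^ (1 - a) * (|(W.Δ : ℝ)| / c₀) ^ a := by gcongr
          _ = |(W.Δ : ℝ)| ^ (1 - a) * |(W.Δ : ℝ)| ^ a := by
              rw [Real.div_rpow hΔp.le hc₀.le]
              field_simp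
          _ = |(W.Δ : ℝ)| := by
              rw [← Real.rpow_add hΔp]
              norm_num
    have h6' : Λ n l * N * rad P ≤ N * P := by
      rw [← hPN']
      exact mul_le_mul_of_nonneg_right hkey hrP.le
    have h7 : N * (Λ n l * rad P) ≤ N * P := by
      calc N * (Λ n l * rad P) = Λ n l * N * rad P := by ring
        _ ≤ _ := h6'
    exact le_of_mul_le_mul_left h7 hNpos
  · rintro ⟨n, l⟩ _ T _ hT
    rcases T.eq_empty_or_nonempty with rfl | ⟨y₀, hy₀⟩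
    · simp only [card_empty, Nat.cast_zero, hb]
      split_ifs
      · have := hΛ0 n l
        positivity
      · exact le_rfl
    · have hlZ := (hT y₀ hy₀).1
      simp only at hlZ
      simp only [hb]
      rw [if_pos hlZ]
      exact hmain n (2 ^ l) (Λ n l) (one_le_pow₀ (by norm_num)) hlZ (hΛ0 n l) T
        (fun x hx => (hT x hx).2)

end Pool.Agent.T2H27.Szp
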