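import Mathlib
import Pool.Agent.T2H27.Final

/-!
# The lower bound and the exact exponent
-/

set_option autoImplicit false

namespace Pool.Agent.T2H27.Szp

open Finset Filter Topology Pool.Agent.H328R2.ABC Pool.Agent.R417.LD

theorem ev_log (a b δ : ℝ) (hδ : 0 < δ) :
    ∀ᶠ X : ℝ in atTop, a + b * Real.log X ≤ X ^ δ := by
  have h1 : (fun X : ℝ => a) =o[atTop] fun X : ℝ => X ^ δ :=
    Asymptotics.isLittleO_const_left.2 (Or.inr (by
      have := tendsto_rpow_atTop hδ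
      exact tendsto_norm_atTop_atTop.comp this))
  have h2 : (fun X : ℝ => b * Real.log X) =o[atTop] fun X : ℝ => X ^ δ :=
    (isLittleO_log_rpow_atTop hδ).const_mul_left b
  have h3 := (h1.add h2).bound (c := 1) one_pos
  filter_upwards [h3, eventually_ge_atTop 0] with X hX hX0
  have h4 : a + b * Real.log X ≤ ‖a + b * Real.log X‖ := Real.le_norm_self _
  rw [one_mul, Real.norm_of_nonneg (Real.rpow_nonneg hX0 _)] at hX
  exact h4.trans hX

/-- as `Pool.Agent.R417.LD.low_gen` -/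
theorem low_gen (κ : ℝ) (h1 : 1 ≤ κ) (h2 : κ < 2) : ∃ X₀ : ℝ, 0 < X₀ ∧ ∀ X : ℝ, X₀ ≤ X →
    1 / 3000000 * X ^ (1 - κ / 6) ≤ ((Lg (fun _ => True) κ 20000000000 X).ncard : ℝ) := by
  have hδ : 0 < 1 - κ / 2 := by linarith
  have hδ2 : 0 < κ / 3 := by linarith
  have e1 := ev_log (768 * 60000) 0 _ hδ
  have e2 := ev_log (16 * (1 + Real.log 192) * 60000) (16 * (κ / 3) * 60000) _ hδ
  have e3 := ev_log (16 * (1 + Real.log 192)) (16 * (κ / 3)) _ hδ2
  have key : ∀ᶠ X : ℝ in atTop, 0 < X ∧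
      1 / 3000000 * X ^ (1 - κ / 6) ≤ ((Lg (fun _ => True) κ 20000000000 X).ncard : ℝ) := by
    filter_upwards [e1, e2, e3, eventually_ge_atTop 1] with X h1' h3 h4 hX
    have hX0 : 0 < X := by linarith
    refine ⟨hX0, ?_⟩
    have hV2 : (X ^ (κ / 6)) ^ 2 = X ^ (κ / 3) := by
      rw [← Real.rpow_natCast (X ^ (κ / 6)) 2, ← Real.rpow_mul hX0.le]
      congr 1
      push_cast
      ring
    have hV3 : (X ^ (κ / 6)) ^ 3 = X ^ (κ / 2) := by
      rw [← Real.rpow_natCast (X ^ (κ / 6)) 3, ← Real.rpow_mul hX0.le]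
      congr 1
      push_cast
      ring
    have hXe : X = X ^ (1 - κ / 2) * (X ^ (κ / 6)) ^ 3 := by
      rw [hV3, ← Real.rpow_add hX0]
      conv_lhs => rw [← Real.rpow_one X]
      congr 1
      ring
    have hlog : Real.log (192 * (X ^ (κ / 6)) ^ 2) = Real.log 192 + κ / 3 * Real.log X := by
      rw [hV2, Real.log_mul (by norm_num) (by positivity), Real.log_rpow hX0]
    have hm := low_core2 (V := X ^ (κ / 6)) (S := X ^ (1 - κ / 2)) (X := X) hXe (by linarith)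
      (Real.one_le_rpow hX (by positivity)) (by
        rw [hV3]
        exact Real.rpow_le_rpow_of_exponent_le hX (by linarith)) (by
        rw [hlog]
        linarith) (by
        rw [hlog, hV2]
        linarith) κ (by
        rw [← Real.rpow_natCast (X ^ (κ / 6)) 6, ← Real.rpow_mul hX0.le]
        congr 1
        push_cast
        ring)
    refine le_trans ?_ hm
    rw [hV2, ← Real.rpow_add hX0]
    have e : κ / 3 + (1 - κ / 2) = 1 - κ / 6 := by ring
    rw [e]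
    have : 0 ≤ X ^ (1 - κ / 6) := by positivity
    linarith
  obtain ⟨X₀, h⟩ := eventually_atTop.1 key
  exact ⟨max X₀ 1, by positivity, fun X hX => (h X ((le_max_left _ _).trans hX)).2⟩

/-- the lower bound with a slightly larger exponent -/
theorem lower (κ κ' c₀ : ℝ) (hκ : 1 ≤ κ) (hκκ : κ < κ') (hκ' : κ' < 2) (hc₀ : 0 < c₀) :
    ∃ c X₀ : ℝ, 0 < c ∧ 1 ≤ X₀ ∧ ∀ X : ℝ, X₀ ≤ X →
      c * X ^ (6 / κ' - 1) ≤ ((Exc κ c₀ X).ncard : ℝ) := by
  have hκ0 : 0 < κ := by linarith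
  have hκ'0 : 0 < κ' := by linarith
  obtain ⟨T₀, hT₀, hlow⟩ := low_gen κ' (by linarith) hκ'
  set B : ℝ := 20000000000 with hB
  have hB1 : 1 ≤ B := by rw [hB]; norm_num
  have hB0 : 0 < B := by linarith
  -- thresholds for T
  set T₁ : ℝ := max T₀ (max 1 ((2 * c₀ + 1) ^ (1 / (κ' - κ)))) with hT₁
  have hT11 : 1 ≤ T₁ := (le_max_left _ _).trans (le_max_right _ _)
  have hT10 : T₀ ≤ T₁ := le_max_left _ _
  have hT12 : (2 * c₀ + 1) ^ (1 / (κ' - κ)) ≤ T₁ := (le_max_right _ _).trans (le_max_right _ _)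
  -- T as a function of X
  set f : ℝ → ℝ := fun X => (X ^ 6 / B) ^ (1 / κ') with hf
  refine ⟨1 / 3000000 * (1 / B) ^ ((1 / κ') * (1 - κ' / 6)), max 1 ((B * T₁ ^ κ') ^ ((1 : ℝ) / 6)),
    by positivity, le_max_left _ _, ?_⟩
  intro X hX
  have hX1 : 1 ≤ X := (le_max_left _ _).trans hX
  have hX0 : 0 < X := by linarith
  have hX2 : B * T₁ ^ κ' ≤ X ^ 6 := by
    have h1 : (B * T₁ ^ κ') ^ ((1 : ℝ) / 6) ≤ X := (le_max_right _ _).trans hX
    have h2 : ((B * T₁ ^ κ') ^ ((1 : ℝ) / 6)) ^ 6 ≤ X ^ 6 := by gcongr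
    have h3 : ((B * T₁ ^ κ') ^ ((1 : ℝ) / 6)) ^ 6 = B * T₁ ^ κ' := by
      rw [← Real.rpow_natCast, ← Real.rpow_mul (by positivity)]
      norm_num
    rwa [h3] at h2
  set T : ℝ := f X with hT
  have hTκ : T ^ κ' = X ^ 6 / B := by
    rw [hT, hf]
    simp only
    rw [← Real.rpow_mul (by positivity), one_div_mul_cancel hκ'0.ne', Real.rpow_one]
  have hT1T : T₁ ≤ T := by
    have h1 : T₁ ^ κ' ≤ T ^ κ' := by
      rw [hTκ, le_div_iff₀ hB0]
      linarith
    exact (Real.rpow_le_rpow_iff (by linarith) (by rw [hT, hf]; positivity) hκ'0).1 h1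
  have hTpos : 0 < T := by linarith
  have hsub : Lg (fun _ => True) κ' 20000000000 T ⊆ Exc κ c₀ X := by
    rintro q ⟨W, hΔ, hc, -, rfl, hN, hD, h4, h6⟩
    refine ⟨W, hΔ, hc, rfl, ?_, ?_, ?_⟩
    · refine h4.trans (le_of_eq ?_)
      rw [hTκ, ← hB]; field_simp
    · refine h6.trans (le_of_eq ?_)
      rw [hTκ, ← hB]; field_simp
    · have hN' : (rad W.Δ.natAbs : ℝ) ≤ T := hN
      have hNpos : (0 : ℝ) < rad W.Δ.natAbs := by exact_mod_cast rad_pos _
      have h1 : c₀ * (rad W.Δ.natAbs : ℝ) ^ κ ≤ c₀ * T ^ κ := by gcongr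
      have h2 : 2 * c₀ + 1 ≤ T ^ (κ' - κ) := by
        have h3 : (2 * c₀ + 1) ^ (1 / (κ' - κ)) ≤ T := hT12.trans hT1T
        have h4 : 2 * c₀ + 1 = ((2 * c₀ + 1) ^ (1 / (κ' - κ))) ^ (κ' - κ) := by
          rw [← Real.rpow_mul (by positivity), one_div_mul_cancel (by linarith), Real.rpow_one]
        rw [h4]
        exact Real.rpow_le_rpow (by positivity) h3 (by linarith)
      have h3 : T ^ κ' = T ^ κ * T ^ (κ' - κ) := by
        rw [← Real.rpow_add hTpos]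
        congr 1
        ring
      have hTκ0 : 0 < T ^ κ := by positivity
      calc c₀ * (rad W.Δ.natAbs : ℝ) ^ κ ≤ c₀ * T ^ κ := h1
        _ < T ^ κ * T ^ (κ' - κ) := by nlinarith
        _ = T ^ κ' := h3.symm
        _ ≤ _ := hD
  have hcard : ((Lg (fun _ => True) κ' 20000000000 T).ncard : ℝ) ≤ ((Exc κ c₀ X).ncard : ℝ) := by
    exact_mod_cast Set.ncard_le_ncard hsub (exc_finite κ c₀ X hX0.le)
  refine le_trans ?_ ((hlow T (hT10.trans hT1T)).trans hcard)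
  have h5 : T ^ (1 - κ' / 6) = (1 / B) ^ ((1 / κ') * (1 - κ' / 6)) * X ^ (6 / κ' - 1) := by
    rw [hT, hf]
    simp only
    rw [← Real.rpow_mul (by positivity), div_eq_mul_one_div (X ^ 6) B,
      Real.mul_rpow (by positivity) (by positivity), mul_comm]
    congr 1
    rw [← Real.rpow_natCast X 6, ← Real.rpow_mul hX0.le]
    congr 1
    push_cast
    field_simp
  rw [h5]
  apply le_of_eq
  ring

/-- an exponent from upper and lower bounds -/
theorem tendsto_exp2 {f : ℝ → ℝ} {L : ℝ}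
    (h1 : ∀ ε : ℝ, 0 < ε → ∃ C : ℝ, 0 < C ∧ ∀ X : ℝ, 1 ≤ X → f X ≤ C * X ^ (L + ε))
    (h2 : ∀ ε : ℝ, 0 < ε → ∃ c X₀ : ℝ, 0 < c ∧ ∀ X : ℝ, X₀ ≤ X → c * X ^ (L - ε) ≤ f X) :
    Tendsto (fun X : ℝ => Real.log (f X) / Real.log X) atTop (𝓝 L) := by
  rw [Metric.tendsto_atTop]
  intro ε hε
  obtain ⟨C, hC, hup⟩ := h1 (ε / 3) (by positivity)
  obtain ⟨c, X₀, hc, hlo⟩ := h2 (ε / 3) (by positivity)
  have ht : Tendsto (fun X : ℝ => ε / 3 * Real.log X) atTop atTop :=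
    Real.tendsto_log_atTop.const_mul_atTop (by positivity)
  obtain ⟨X₁, hX₁⟩ := eventually_atTop.1 (ht.eventually (eventually_ge_atTop
    (max (Real.log C) (-Real.log c))))
  refine ⟨max (max X₀ X₁) 2, fun X hX => ?_⟩
  have hX0 : X₀ ≤ X := (le_max_left _ _).trans ((le_max_left _ _).trans hX)
  have hX1 : X₁ ≤ X := (le_max_right _ _).trans ((le_max_left _ _).trans hX)
  have hX2 : 2 ≤ X := (le_max_right _ _).trans hX
  have hXp : 0 < X := by linarith
  have hl : 0 < Real.log X := Real.log_pos (by linarith)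
  have hf0 : 0 < f X := lt_of_lt_of_le (by positivity) (hlo X hX0)
  have e1 : Real.log (f X) ≤ Real.log C + (L + ε / 3) * Real.log X := by
    rw [← Real.log_rpow hXp, ← Real.log_mul hC.ne' (by positivity)]
    exact Real.log_le_log hf0 (hup X (by linarith))
  have e2 : Real.log c + (L - ε / 3) * Real.log X ≤ Real.log (f X) := by
    rw [← Real.log_rpow hXp, ← Real.log_mul hc.ne' (by positivity)]
    exact Real.log_le_log (by positivity) (hlo X hX0)
  have e3 := hX₁ X hX1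
  have e4 := (le_max_left _ _).trans e3
  have e5 := (le_max_right _ _).trans e3
  rw [Real.dist_eq, abs_lt]
  have hεl : 0 < ε * Real.log X := by positivity
  constructor
  · rw [neg_lt_sub_iff_lt_add, ← sub_lt_iff_lt_add', lt_div_iff₀ hl]
    linarith
  · rw [sub_lt_iff_lt_add', div_lt_iff₀ hl]
    linarith

/-- **The exact exponent.** -/
theorem exact_exp (κ c₀ : ℝ) (hκ : 1 ≤ κ) (hκ2 : κ ≤ 3 / 2) (hc₀ : 0 < c₀) :
    Tendsto (fun X : ℝ => Real.log ((Exc κ c₀ X).ncard : ℝ) / Real.log X) atTop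
      (𝓝 (6 / κ - 1)) := by
  have hκ0 : 0 < κ := by linarith
  refine tendsto_exp2 ?_ ?_
  · intro ε hε
    obtain ⟨C, hC, h⟩ := upper κ c₀ ε hκ hc₀ hε
    refine ⟨C, hC, fun X hX => ?_⟩
    have h1 := h X hX
    have h3 : 3 ≤ 6 / κ - 1 := by
      have : 4 ≤ 6 / κ := by rw [le_div_iff₀ hκ0]; linarith
      linarith
    rwa [max_eq_left h3] at h1
  · intro ε hε
    -- choose κ' slightly larger than κ
    have hcont : Tendsto (fun y : ℝ => 6 / y - 1) (𝓝 κ) (𝓝 (6 / κ - 1)) := by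
      apply Tendsto.sub_const
      exact Tendsto.div tendsto_const_nhds tendsto_id hκ0.ne'
    have h1 : ∀ᶠ y in 𝓝 κ, 6 / κ - 1 - ε < 6 / y - 1 :=
      hcont.eventually (lt_mem_nhds (by linarith))
    have h2 : ∀ᶠ y in 𝓝[>] κ, 6 / κ - 1 - ε < 6 / y - 1 := h1.filter_mono nhdsWithin_le_nhds
    have h3 : ∀ᶠ y in 𝓝[>] κ, y < 2 :=
      (gt_mem_nhds (show κ < 2 by linarith)).filter_mono nhdsWithin_le_nhds
    obtain ⟨κ', h4, h5, h6⟩ := (h2.and (h3.and self_mem_nhdsWithin)).exists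
    obtain ⟨c, X₀, hc, hX₀, h⟩ := lower κ κ' c₀ hκ h6 h5 hc₀
    refine ⟨c, X₀, hc, fun X hX => le_trans ?_ (h X hX)⟩
    have hX1 : 1 ≤ X := hX₀.trans hX
    have : X ^ (6 / κ - 1 - ε) ≤ X ^ (6 / κ' - 1) :=
      Real.rpow_le_rpow_of_exponent_le hX1 h4.le
    exact mul_le_mul_of_nonneg_left this hc.le

end Pool.Agent.T2H27.Szp
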