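import Mathlib
import Pool.Agent.T2H27.Low

/-!
# All semistable curves ordered by conductor
-/

set_option autoImplicit false

namespace Pool.Agent.T2H27.Szp

open Finset Filter Topology Pool.Agent.H328R2.ABC Pool.Agent.R417.LD

/-- semistable curves with `N ≤ X`, `N ^ κ ≤ |Δ|`, height at most `X ^ A` -/
def Crv (κ A X : ℝ) : Set (ℤ × ℤ) :=
  {q | ∃ W : WeierstrassCurve ℤ, W.Δ ≠ 0 ∧ IsCoprime W.c₄ W.Δ ∧ q = (W.c₄, W.c₆) ∧
    (rad W.Δ.natAbs : ℝ) ≤ X ∧ (rad W.Δ.natAbs : ℝ) ^ κ ≤ |(W.Δ : ℝ)| ∧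
    |(W.c₄ : ℝ)| ^ 3 ≤ X ^ A ∧ (W.c₆ : ℝ) ^ 2 ≤ X ^ A}

theorem sizeA {a b X A : ℝ} (hX : 1 ≤ X) (h4 : |a| ^ 3 ≤ X ^ A) (h6 : b ^ 2 ≤ X ^ A) :
    |a| ≤ (X ^ (A / 6)) ^ 2 ∧ |b| ≤ (X ^ (A / 6)) ^ 3 := by
  have hX0 : 0 < X := by linarith
  have e : X ^ A = (X ^ (A / 6)) ^ 6 := by
    rw [← Real.rpow_natCast, ← Real.rpow_mul hX0.le]
    congr 1
    push_cast
    ring
  rw [e] at h4 h6
  exact size (by positivity) h4 h6

theorem crv_finite (κ A X : ℝ) (hX : 1 ≤ X) : (Crv κ A X).Finite := by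
  refine Set.Finite.subset (Finset.finite_toSet
    (I ((X ^ (A / 6)) ^ 2) ×ˢ I ((X ^ (A / 6)) ^ 3))) ?_
  rintro q ⟨W, -, -, rfl, -, -, h4, h6⟩
  obtain ⟨h1, h2⟩ := sizeA hX h4 h6
  rw [mem_coe, mem_product]
  exact ⟨mem_I.2 h1, mem_I.2 h2⟩

theorem upperC (κ A ε : ℝ) (hκ : 1 ≤ κ) (hA : 0 < A) (hε : 0 < ε) :
    ∃ C : ℝ, 0 < C ∧ ∀ X : ℝ, 1 ≤ X →
      ((Crv κ A X).ncard : ℝ) ≤ C * X ^ (max (1 - κ / 6) (A / 2) + ε) := by
  classical
  have hκ0 : 0 < κ := by linarith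
  -- small exponents
  set η : ℝ := min (ε / 4) (ε / (2 * A)) with hη
  have hη0 : 0 < η := lt_min (by positivity) (by positivity)
  have hη1 : η ≤ ε / 4 := min_le_left _ _
  have hη2 : η * A ≤ ε / 2 := by
    have : η ≤ ε / (2 * A) := min_le_right _ _
    calc η * A ≤ ε / (2 * A) * A := by gcongr
      _ = ε / 2 := by field_simp
  obtain ⟨C₁, hC₁, hmain⟩ := main_pairs η hη0
  obtain ⟨K₁, hK₁, hpoly⟩ := poly_le η hη0
  obtain ⟨K₂, hK₂, hpoly2⟩ := poly_le (ε / 4) (by positivity)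
  set E : ℝ := max (1 - κ / 6) (A / 2) with hE
  have hEA : A / 2 ≤ E := le_max_right _ _
  have hEκ : 1 - κ / 6 ≤ E := le_max_left _ _
  have hE0 : 0 ≤ E := le_trans (by positivity) hEA
  set Λ : ℕ → ℕ → ℕ → ℝ := fun n l y => if l = 0 then 1 else
    ((2 : ℝ) ^ l) ^ 4 * (2 ^ n) ^ 4 / 27648 / 2 ^ (y + 1) with hΛ
  have hΛ0 : ∀ n l y, 0 < Λ n l y := by
    intro n l y
    simp only [hΛ]
    split_ifs
    · exact one_pos
    · positivity
  refine ⟨K₁ * K₂ * (C₁ * (27648 * 4 + 2)) * (2 ^ η * 2 ^ η * 8), by positivity, ?_⟩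
  intro X hX
  have hX0 : 0 < X := by linarith
  have hXA : 1 ≤ X ^ (A / 6) := Real.one_le_rpow hX (by positivity)
  have hfin := crv_finite κ A X hX
  obtain ⟨n₁, hn1, hn2⟩ := exists_nat_pow_near hXA (one_lt_two)
  set n₀ := n₁ + 1 with hn₀
  have hXn : X ^ (A / 6) ≤ 2 ^ n₀ := hn2.le
  have hnX : (2 : ℝ) ^ n₀ ≤ 2 * X ^ (A / 6) := by rw [hn₀, pow_succ]; linarith
  obtain ⟨y₁, hy1, hy2⟩ := exists_nat_pow_near hX (one_lt_two)
  set S : Finset (ℤ × ℤ) := hfin.toFinset with hS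
  have hcard : ((Crv κ A X).ncard : ℝ) = S.card := by
    rw [Set.ncard_eq_toFinset_card _ hfin]
  rw [hcard]
  -- the bound for one triple
  set G : ℝ := C₁ * ((2 : ℝ) ^ n₀) ^ η * ((27648 * 4 + 2) * (8 * X ^ E)) with hG
  have hG0 : 0 ≤ G := by positivity
  have hcov := card_le_cover S ((range (n₀ + 1) ×ˢ range (n₀ + 3)) ×ˢ range (y₁ + 1))
    (fun nly x => nly.1.1 ≤ n₀ ∧ nly.2 ≤ y₁ ∧ ((2 : ℝ) ^ nly.1.2) ^ 2 ≤ 6 * 2 ^ nly.1.1 ∧
      (nly.1.2 ≠ 0 → ((2 : ℝ) ^ nly.2) ^ κ ≤ ((2 : ℝ) ^ nly.1.2) ^ 4 * (2 ^ nly.1.1) ^ 4) ∧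
      ∃ P : ℕ, Cond (2 ^ nly.1.1) (2 ^ nly.1.2) (Λ nly.1.1 nly.1.2 nly.2) P x)
    (fun _ => G) ?_ ?_
  · refine hcov.trans ?_
    rw [sum_const, card_product, card_product, card_range, card_range, card_range, nsmul_eq_mul]
    have h1 : (((n₀ + 1) * (n₀ + 3) * (y₁ + 1) : ℕ) : ℝ) ≤
        (K₁ * ((2 : ℝ) ^ n₀) ^ η) * (K₂ * ((2 : ℝ) ^ y₁) ^ (ε / 4)) := by
      have h2 : (((n₀ + 1) * (n₀ + 3) : ℕ) : ℝ) ≤ ((6 * n₀ + 2 : ℕ) : ℝ) ^ 3 := by
        have : (n₀ + 1) * (n₀ + 3) ≤ (6 * n₀ + 2) ^ 3 := by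
          have h2 : n₀ + 1 ≤ 6 * n₀ + 2 := by omega
          have h3 : n₀ + 3 ≤ (6 * n₀ + 2) ^ 2 := by nlinarith
          calc (n₀ + 1) * (n₀ + 3) ≤ (6 * n₀ + 2) * (6 * n₀ + 2) ^ 2 :=
                Nat.mul_le_mul h2 h3
            _ = _ := by ring
        exact_mod_cast this
      have h3 : ((y₁ + 1 : ℕ) : ℝ) ≤ ((6 * y₁ + 2 : ℕ) : ℝ) ^ 3 := by
        have : y₁ + 1 ≤ (6 * y₁ + 2) ^ 3 := by
          calc y₁ + 1 ≤ 6 * y₁ + 2 := by omega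
            _ ≤ (6 * y₁ + 2) ^ 3 := Nat.le_self_pow (by norm_num) _
        exact_mod_cast this
      have h4 := h2.trans (hpoly n₀)
      have h5 := h3.trans (hpoly2 y₁)
      calc (((n₀ + 1) * (n₀ + 3) * (y₁ + 1) : ℕ) : ℝ)
          = (((n₀ + 1) * (n₀ + 3) : ℕ) : ℝ) * ((y₁ + 1 : ℕ) : ℝ) := by push_cast; ring
        _ ≤ _ := by gcongr
    have h2 : ((2 : ℝ) ^ n₀) ^ η ≤ 2 ^ η * X ^ (ε / 8) := by
      calc ((2 : ℝ) ^ n₀) ^ η ≤ (2 * X ^ (A / 6)) ^ η := by gcongr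
        _ = 2 ^ η * X ^ (A / 6 * η) := by
          rw [Real.mul_rpow (by norm_num) (by positivity), ← Real.rpow_mul hX0.le]
        _ ≤ 2 ^ η * X ^ (ε / 8) := by
          have h9 : X ^ (A / 6 * η) ≤ X ^ (ε / 8) :=
            Real.rpow_le_rpow_of_exponent_le hX (by nlinarith)
          gcongr
    have h3 : ((2 : ℝ) ^ y₁) ^ (ε / 4) ≤ X ^ (ε / 4) := by gcongr
    calc (((n₀ + 1) * (n₀ + 3) * (y₁ + 1) : ℕ) : ℝ) * G
        ≤ ((K₁ * ((2 : ℝ) ^ n₀) ^ η) * (K₂ * ((2 : ℝ) ^ y₁) ^ (ε / 4))) * G := by gcongr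
      _ ≤ ((K₁ * (2 ^ η * X ^ (ε / 8))) * (K₂ * X ^ (ε / 4))) *
          (C₁ * (2 ^ η * X ^ (ε / 8)) * ((27648 * 4 + 2) * (8 * X ^ E))) := by
          rw [hG]
          gcongr
      _ = K₁ * K₂ * (C₁ * (27648 * 4 + 2)) * (2 ^ η * 2 ^ η * 8) *
          (X ^ (ε / 8) * X ^ (ε / 4) * X ^ (ε / 8) * X ^ E) := by ring
      _ = K₁ * K₂ * (C₁ * (27648 * 4 + 2)) * (2 ^ η * 2 ^ η * 8) *
          X ^ (ε / 8 + ε / 4 + ε / 8 + E) := by
          rw [← Real.rpow_add hX0, ← Real.rpow_add hX0, ← Real.rpow_add hX0]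
      _ ≤ _ := by
          have h9 : X ^ (ε / 8 + ε / 4 + ε / 8 + E) ≤ X ^ (E + ε) :=
            Real.rpow_le_rpow_of_exponent_le hX (by linarith)
          exact mul_le_mul_of_nonneg_left h9 (by positivity)
  · intro x hx
    rw [hS, Set.Finite.mem_toFinset] at hx
    obtain ⟨W, hΔ, hc, rfl, hN, hbig, h4, h6⟩ := hx
    obtain ⟨s4, s6⟩ := sizeA hX h4 h6
    obtain ⟨n, hn, l, hl, hlZ, hl', P, hPN, hP⟩ := exists_cond W hΔ hc n₀
      (s4.trans (by gcongr)) (s6.trans (by gcongr))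
    rw [mem_range] at hn hl
    have hΔR : (W.Δ : ℝ) ≠ 0 := by exact_mod_cast hΔ
    have hΔp : 0 < |(W.Δ : ℝ)| := abs_pos.2 hΔR
    have h3 : ((W.Δ.natAbs : ℕ) : ℝ) = |(W.Δ : ℝ)| := by
      rw [Nat.cast_natAbs]; push_cast; rfl
    have hPN' : |(W.Δ : ℝ)| * rad P = rad W.Δ.natAbs * P := by
      rw [← h3]
      exact_mod_cast hPN
    have hNpos : (0 : ℝ) < rad W.Δ.natAbs := by exact_mod_cast rad_pos _
    have hN1 : (1 : ℝ) ≤ rad W.Δ.natAbs := by exact_mod_cast rad_pos _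
    have hrP : (0 : ℝ) < rad P := by exact_mod_cast rad_pos P
    set N : ℝ := (rad W.Δ.natAbs : ℝ) with hNdef
    obtain ⟨y, hyN1, hyN2⟩ := exists_nat_pow_near hN1 (one_lt_two)
    have hyy : y ≤ y₁ := by
      have h1 : (2 : ℝ) ^ y < 2 ^ (y₁ + 1) := lt_of_le_of_lt (hyN1.trans hN) hy2
      have := (pow_lt_pow_iff_right₀ (one_lt_two)).1 h1
      omega
    have hcond0 : Cond (2 ^ n) (2 ^ l) 1 P (W.c₄, W.c₆) := by
      refine hP 1 ?_
      rw [one_mul]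
      have h1 : N ≤ |(W.Δ : ℝ)| := by
        have h1 : rad W.Δ.natAbs ≤ W.Δ.natAbs :=
          Nat.le_of_dvd (Int.natAbs_pos.2 hΔ) (rad_dvd _)
        rw [← h3, hNdef]
        exact_mod_cast h1
      have h2 : N * rad P ≤ N * P := by
        rw [← hPN']
        exact mul_le_mul_of_nonneg_right h1 hrP.le
      exact le_of_mul_le_mul_left h2 hNpos
    refine ⟨((n, l), y), mem_product.2 ⟨mem_product.2 ⟨mem_range.2 (by simp only; omega),
      mem_range.2 (by simp only; omega)⟩, mem_range.2 (by simp only; omega)⟩, by simp only; omega,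
      hyy, hlZ, ?_, P, hP _ ?_⟩
    · intro _
      have h1 : |(W.c₄ : ℝ) ^ 3 - (W.c₆ : ℝ) ^ 2| ≤ ((2 : ℝ) ^ l) ^ 4 * (2 ^ n) ^ 4 :=
        hcond0.1.2.2.2
      have hrel : 1728 * W.Δ = W.c₄ ^ 3 - W.c₆ ^ 2 := W.c_relation
      have hrelR : 1728 * (W.Δ : ℝ) = (W.c₄ : ℝ) ^ 3 - (W.c₆ : ℝ) ^ 2 := by exact_mod_cast hrel
      rw [← hrelR, abs_mul, abs_of_pos (by norm_num : (0 : ℝ) < 1728)] at h1
      calc ((2 : ℝ) ^ y) ^ κ ≤ N ^ κ := by gcongr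
        _ ≤ |(W.Δ : ℝ)| := hbig
        _ ≤ _ := by linarith
    · have hkey : Λ n l y * N ≤ |(W.Δ : ℝ)| := by
        simp only [hΛ]
        split_ifs with hl0
        · rw [one_mul]
          have h1 : rad W.Δ.natAbs ≤ W.Δ.natAbs :=
            Nat.le_of_dvd (Int.natAbs_pos.2 hΔ) (rad_dvd _)
          rw [← h3, hNdef]
          exact_mod_cast h1
        · have hD := hl'.resolve_left hl0
          have h5 : ((2 : ℝ) ^ l) ^ 4 * (2 ^ n) ^ 4 / 27648 ≤ |(W.Δ : ℝ)| := by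
            rw [div_le_iff₀ (by norm_num)]
            linarith
          rw [div_mul_eq_mul_div, div_le_iff₀ (by positivity)]
          gcongr
      have h7 : N * (Λ n l y * rad P) ≤ N * P := by
        calc N * (Λ n l y * rad P) = Λ n l y * N * rad P := by ring
          _ ≤ |(W.Δ : ℝ)| * rad P := mul_le_mul_of_nonneg_right hkey hrP.le
          _ = _ := hPN'
      exact le_of_mul_le_mul_left h7 hNpos
  · rintro ⟨⟨n, l⟩, y⟩ _ T _ hT
    rcases T.eq_empty_or_nonempty with rfl | ⟨z₀, hz₀⟩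
    · simp only [card_empty, Nat.cast_zero]
      exact hG0
    obtain ⟨hnn, hyy, hlZ, hyD, -⟩ := hT z₀ hz₀
    simp only at hnn hyy hlZ hyD
    refine (hmain n (2 ^ l) (Λ n l y) (one_le_pow₀ (by norm_num)) hlZ (hΛ0 n l y) T
        (fun x hx => (hT x hx).2.2.2.2)).trans ?_
    set Z : ℝ := 2 ^ n with hZdef
    have hZ : 1 ≤ Z := one_le_pow₀ (by norm_num)
    have hZ0 : 0 < Z := by linarith
    have hZn : Z ≤ 2 ^ n₀ := pow_le_pow_right₀ (by norm_num) hnn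
    have hXE0 : 0 < X ^ E := by positivity
    have h3 : Z ^ 3 ≤ 8 * X ^ E := by
      calc Z ^ 3 ≤ (2 * X ^ (A / 6)) ^ 3 := by gcongr; exact hZn.trans hnX
        _ = 8 * (X ^ (A / 6)) ^ 3 := by ring
        _ = 8 * X ^ (A / 2) := by
          rw [← Real.rpow_natCast, ← Real.rpow_mul hX0.le]
          congr 2
          push_cast
          ring
        _ ≤ _ := by
          have h9 : X ^ (A / 2) ≤ X ^ E := Real.rpow_le_rpow_of_exponent_le hX hEA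
          gcongr
    have hmainb : ((2 : ℝ) ^ l) ^ 4 * Z ^ 3 / Λ n l y ≤ (27648 * 4 + 1) * (8 * X ^ E) := by
      simp only [hΛ]
      split_ifs with hl0
      · rw [hl0]
        norm_num
        nlinarith
      · have hyD' := hyD hl0
        have e1 : ((2 : ℝ) ^ l) ^ 4 * Z ^ 3 / (((2 : ℝ) ^ l) ^ 4 * Z ^ 4 / 27648 / 2 ^ (y + 1)) =
            27648 * 2 * (2 ^ y / Z) := by
          rw [pow_succ (2 : ℝ) y]
          field_simp
        rw [e1]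
        -- 2 ^ y / Z is small
        have e2 : ((2 : ℝ) ^ y) ^ κ ≤ (2 * Z) ^ 6 := by
          calc ((2 : ℝ) ^ y) ^ κ ≤ ((2 : ℝ) ^ l) ^ 4 * Z ^ 4 := hyD'
            _ = (((2 : ℝ) ^ l) ^ 2) ^ 2 * Z ^ 4 := by ring
            _ ≤ (6 * Z) ^ 2 * Z ^ 4 := by gcongr
            _ = 36 * Z ^ 6 := by ring
            _ ≤ (2 * Z) ^ 6 := by nlinarith [pow_pos hZ0 6]
        have e3 : ((2 : ℝ) ^ y) ^ (κ / 6) ≤ 2 * Z := by
          have h1 : (((2 : ℝ) ^ y) ^ (κ / 6)) ^ 6 ≤ (2 * Z) ^ 6 := by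
            rw [← Real.rpow_natCast, ← Real.rpow_mul (by positivity)]
            rw [show κ / 6 * ((6 : ℕ) : ℝ) = κ by push_cast; ring]
            exact e2
          exact le_of_pow_le_pow_left₀ (by norm_num) (by positivity) h1
        have hy0 : (0 : ℝ) < 2 ^ y := by positivity
        have hyX : (2 : ℝ) ^ y ≤ X := (pow_le_pow_right₀ (by norm_num) hyy).trans hy1
        have e4 : (2 : ℝ) ^ y / Z ≤ 2 * X ^ E := by
          have h1 : (2 : ℝ) ^ y = ((2 : ℝ) ^ y) ^ (1 - κ / 6) * ((2 : ℝ) ^ y) ^ (κ / 6) := by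
            rw [← Real.rpow_add hy0]
            norm_num
          rw [div_le_iff₀ hZ0]
          have h5 : ((2 : ℝ) ^ y) ^ (1 - κ / 6) ≤ X ^ E := by
            rcases le_total 0 (1 - κ / 6) with hs | hs
            · calc ((2 : ℝ) ^ y) ^ (1 - κ / 6) ≤ X ^ (1 - κ / 6) :=
                    Real.rpow_le_rpow hy0.le hyX hs
                _ ≤ X ^ E := Real.rpow_le_rpow_of_exponent_le hX hEκ
            · have h6 : (1 : ℝ) ≤ 2 ^ y := one_le_pow₀ (by norm_num)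
              calc ((2 : ℝ) ^ y) ^ (1 - κ / 6) ≤ 1 :=
                    Real.rpow_le_one_of_one_le_of_nonpos h6 hs
                _ ≤ X ^ E := Real.one_le_rpow hX hE0
          calc (2 : ℝ) ^ y = ((2 : ℝ) ^ y) ^ (1 - κ / 6) * ((2 : ℝ) ^ y) ^ (κ / 6) := h1
            _ ≤ X ^ E * (2 * Z) := by gcongr
            _ = _ := by ring
        nlinarith
    calc C₁ * Z ^ η * (((2 : ℝ) ^ l) ^ 4 * Z ^ 3 / Λ n l y + Z ^ 3)
        ≤ C₁ * ((2 : ℝ) ^ n₀) ^ η * ((27648 * 4 + 1) * (8 * X ^ E) + 8 * X ^ E) := by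
          gcongr
      _ = G := by rw [hG]; ring

/-- **The exact exponent by conductor.** -/
theorem exact_expC (κ A : ℝ) (hκ : 1 ≤ κ) (hκA : κ < A) (hA : A ≤ 2 - κ / 3) :
    Tendsto (fun X : ℝ => Real.log ((Crv κ A X).ncard : ℝ) / Real.log X) atTop
      (𝓝 (1 - κ / 6)) := by
  have hκ0 : 0 < κ := by linarith
  have hκ2 : κ < 2 := by linarith
  refine tendsto_exp2 ?_ ?_
  · intro ε hε
    obtain ⟨C, hC, h⟩ := upperC κ A ε hκ (by linarith) hε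
    refine ⟨C, hC, fun X hX => ?_⟩
    have h1 := h X hX
    rwa [max_eq_left (by linarith)] at h1
  · intro ε hε
    obtain ⟨X₀, hX₀, hlow⟩ := low_gen κ hκ hκ2
    have hev : ∀ᶠ X : ℝ in atTop, 20000000000 + 0 * Real.log X ≤ X ^ (A - κ) :=
      ev_log _ _ _ (by linarith)
    obtain ⟨X₁, hX₁⟩ := eventually_atTop.1 hev
    refine ⟨1 / 3000000, max (max X₀ X₁) 1, by norm_num, fun X hX => ?_⟩
    have h0 : X₀ ≤ X := (le_max_left _ _).trans ((le_max_left _ _).trans hX)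
    have h1 : X₁ ≤ X := (le_max_right _ _).trans ((le_max_left _ _).trans hX)
    have h2 : 1 ≤ X := (le_max_right _ _).trans hX
    have hX0 : 0 < X := by linarith
    have h3 := hX₁ X h1
    rw [zero_mul, add_zero] at h3
    have h4 : 20000000000 * X ^ κ ≤ X ^ A := by
      calc 20000000000 * X ^ κ ≤ X ^ (A - κ) * X ^ κ := by gcongr
        _ = X ^ A := by
          rw [← Real.rpow_add hX0]
          congr 1
          ring
    have hsub : Lg (fun _ => True) κ 20000000000 X ⊆ Crv κ A X := by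
      rintro q ⟨W, hΔ, hc, -, rfl, hN, hD, h5, h6⟩
      have hN' : (rad W.Δ.natAbs : ℝ) ≤ X := hN
      refine ⟨W, hΔ, hc, rfl, hN', ?_, h5.trans h4, h6.trans h4⟩
      exact (Real.rpow_le_rpow (Nat.cast_nonneg _) hN' hκ0.le).trans hD
    have h7 : ((Lg (fun _ => True) κ 20000000000 X).ncard : ℝ) ≤ ((Crv κ A X).ncard : ℝ) := by
      exact_mod_cast Set.ncard_le_ncard hsub (crv_finite κ A X h2)
    refine le_trans ?_ ((hlow X h0).trans h7)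
    have h8 : X ^ (1 - κ / 6 - ε) ≤ X ^ (1 - κ / 6) :=
      Real.rpow_le_rpow_of_exponent_le h2 (by linarith)
    linarith

end Pool.Agent.T2H27.Szp
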